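import Mathlib

/-!
# Greedy chains in words

Words are functions `w : ℕ → α`; a segment is a half-open interval `[s, t)` of positions.
-/

set_option autoImplicit false

namespace Pool.Agent.Lib.MP_9067ea_co

open Finset

set_option linter.unusedSectionVars false

variable {α : Type*} [DecidableEq α]

/-- The list `π` embeds in the segment `[s, t)` of the word `w`. -/
def Emb (w : ℕ → α) : List α → ℕ → ℕ → Prop
  | [], s, t => s ≤ t
  | x :: π, s, t => ∃ p, s ≤ p ∧ p < t ∧ w p = x ∧ Emb w π (p + 1) t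

/-- Number of occurrences of `x` in the segment `[s, t)`. -/
def occ (w : ℕ → α) (x : α) (s t : ℕ) : ℕ := ((Finset.Ico s t).filter (fun p => w p = x)).card

variable {w : ℕ → α}

lemma Emb.le {π : List α} {s t : ℕ} (h : Emb w π s t) : s ≤ t := by
  induction π generalizing s with
  | nil => exact h
  | cons x π ih =>
    obtain ⟨p, h1, h2, _, _⟩ := h
    omega

lemma Emb.mono {π : List α} {s t s' t' : ℕ} (h : Emb w π s t) (hs : s' ≤ s) (ht : t ≤ t') :
    Emb w π s' t' := by
  induction π generalizing s s' with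
  | nil => exact hs.trans (Nat.le_trans h ht)
  | cons x π ih =>
    obtain ⟨p, h1, h2, h3, h4⟩ := h
    exact ⟨p, hs.trans h1, h2.trans_le ht, h3, ih h4 le_rfl⟩

lemma emb_append {π ρ : List α} {s t : ℕ} :
    Emb w (π ++ ρ) s t ↔ ∃ m, Emb w π s m ∧ Emb w ρ m t := by
  induction π generalizing s with
  | nil =>
    constructor
    · intro h
      exact ⟨s, le_rfl, h⟩
    · rintro ⟨m, h1, h2⟩
      exact h2.mono h1 le_rfl
  | cons x π ih =>
    constructor
    · rintro ⟨p, h1, h2, h3, h4⟩
      obtain ⟨m, h5, h6⟩ := ih.1 h4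
      exact ⟨m, ⟨p, h1, lt_of_lt_of_le (Nat.lt_succ_self p) h5.le, h3, h5⟩, h6⟩
    · rintro ⟨m, ⟨p, h1, h2, h3, h4⟩, h6⟩
      exact ⟨p, h1, h2.trans_le h6.le, h3, ih.2 ⟨m, h4, h6⟩⟩

lemma emb_singleton {x : α} {s t : ℕ} : Emb w [x] s t ↔ ∃ p, s ≤ p ∧ p < t ∧ w p = x := by
  constructor
  · rintro ⟨p, h1, h2, h3, _⟩
    exact ⟨p, h1, h2, h3⟩
  · rintro ⟨p, h1, h2, h3⟩
    exact ⟨p, h1, h2, h3, h2⟩

lemma Emb.sublist {π ρ : List α} (h : π.Sublist ρ) {s t : ℕ} (he : Emb w ρ s t) : Emb w π s t := by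
  induction h generalizing s with
  | slnil => exact he
  | cons a _ ih =>
    obtain ⟨p, h1, h2, h3, h4⟩ := he
    exact (ih h4).mono (by omega) le_rfl
  | cons_cons a _ ih =>
    obtain ⟨p, h1, h2, h3, h4⟩ := he
    exact ⟨p, h1, h2, h3, ih h4⟩

lemma occ_pos {x : α} {s t : ℕ} (h : ∃ p, s ≤ p ∧ p < t ∧ w p = x) : 1 ≤ occ w x s t := by
  obtain ⟨p, h1, h2, h3⟩ := h
  exact Finset.card_pos.2 ⟨p, by simp [h1, h2, h3]⟩

lemma occ_add {x : α} {s m t m' : ℕ} (h1 : s ≤ m) (h2 : m ≤ m') (h3 : m' ≤ t) :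
    occ w x s m + occ w x m' t ≤ occ w x s t := by
  unfold occ
  rw [← Finset.card_union_of_disjoint]
  · apply Finset.card_le_card
    intro p hp
    simp only [Finset.mem_union, Finset.mem_filter, Finset.mem_Ico] at hp ⊢
    rcases hp with ⟨⟨a, b⟩, c⟩ | ⟨⟨a, b⟩, c⟩
    · exact ⟨⟨a, by omega⟩, c⟩
    · exact ⟨⟨by omega, b⟩, c⟩
  · rw [Finset.disjoint_left]
    intro p hp hp'
    simp only [Finset.mem_filter, Finset.mem_Ico] at hp hp'
    omega

/-- One greedy step from the left. -/
lemma step_left {S : Finset α} (hS : S.Nonempty) {s t : ℕ}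
    (h : ∀ x ∈ S, ∃ p, s ≤ p ∧ p < t ∧ w p = x) :
    ∃ z ∈ S, ∃ q, s < q ∧ q ≤ t ∧ (∀ x ∈ S, ∃ p, s ≤ p ∧ p < q ∧ w p = x) ∧
      ∀ ρ t', Emb w (z :: ρ) s t' → Emb w ρ q t' := by
  classical
  have hex : ∀ x : S, ∃ p, s ≤ p ∧ w p = x.1 := fun x => by
    obtain ⟨p, h1, _, h3⟩ := h x.1 x.2
    exact ⟨p, h1, h3⟩
  let f : S → ℕ := fun x => Nat.find (hex x)
  have hfs : ∀ x : S, s ≤ f x ∧ w (f x) = x.1 := fun x => Nat.find_spec (hex x)
  have hft : ∀ x : S, f x < t := fun x => by
    obtain ⟨p, h1, h2, h3⟩ := h x.1 x.2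
    exact (Nat.find_min' (hex x) ⟨h1, h3⟩).trans_lt h2
  have : Nonempty S := hS.to_subtype
  obtain ⟨z, hz⟩ := Finite.exists_max f
  refine ⟨z.1, z.2, f z + 1, ?_, ?_, ?_, ?_⟩
  · have := (hfs z).1; omega
  · have := hft z; omega
  · intro x hx
    have h1 := hz ⟨x, hx⟩
    exact ⟨f ⟨x, hx⟩, (hfs _).1, by omega, (hfs ⟨x, hx⟩).2⟩
  · rintro ρ t' ⟨p, h1, h2, h3, h4⟩
    have : f z ≤ p := Nat.find_min' (hex z) ⟨h1, h3⟩
    exact h4.mono (by omega) le_rfl

/-- One greedy step from the right. -/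
lemma step_right {S : Finset α} (hS : S.Nonempty) {t : ℕ}
    (h : ∀ x ∈ S, ∃ p, p < t ∧ w p = x) :
    ∃ z ∈ S, ∃ q, q < t ∧ (∀ x ∈ S, ∃ p, q ≤ p ∧ p < t ∧ w p = x) ∧
      ∀ ρ s, Emb w (ρ ++ [z]) s t → Emb w ρ s q := by
  classical
  have hex : ∀ x : S, ∃ p, p < t ∧ w p = x.1 ∧ ∀ p', p' < t → w p' = x.1 → p' ≤ p := fun x => by
    obtain ⟨p, h1, h3⟩ := h x.1 x.2
    have hne : ((Finset.range t).filter (fun p => w p = x.1)).Nonempty :=
      ⟨p, by simp [h1, h3]⟩
    refine ⟨((Finset.range t).filter (fun p => w p = x.1)).max' hne, ?_, ?_, ?_⟩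
    · have := Finset.max'_mem _ hne
      simp only [Finset.mem_filter, Finset.mem_range] at this
      exact this.1
    · have := Finset.max'_mem _ hne
      simp only [Finset.mem_filter, Finset.mem_range] at this
      exact this.2
    · intro p' h1' h2'
      exact Finset.le_max' _ _ (by simp [h1', h2'])
  choose f hf1 hf2 hf3 using hex
  have : Nonempty S := hS.to_subtype
  obtain ⟨z, hz⟩ := Finite.exists_min f
  refine ⟨z.1, z.2, f z, hf1 z, ?_, ?_⟩
  · intro x hx
    exact ⟨f ⟨x, hx⟩, hz ⟨x, hx⟩, hf1 _, hf2 ⟨x, hx⟩⟩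
  · intro ρ s he
    obtain ⟨m, h1, h2⟩ := emb_append.1 he
    obtain ⟨p, h3, h4, h5⟩ := emb_singleton.1 h2
    have := hf3 z p h4 h5
    exact h1.mono le_rfl (by omega)

/-- If all orderings of a set of `r ≥ 1` letters embed in a segment, some letter of the set occurs
at least `r` times in it. -/
lemma exists_occ_ge (r : ℕ) : ∀ (S : Finset α), S.card = r + 1 → ∀ (s t : ℕ),
    (∀ ρ : List α, ρ.Nodup → (∀ x ∈ ρ, x ∈ S) → ρ.length = r + 1 → Emb w ρ s t) →
    ∃ x ∈ S, r + 1 ≤ occ w x s t := by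
  induction r with
  | zero =>
    intro S hS s t h
    obtain ⟨x, hx⟩ := Finset.card_eq_one.1 hS
    refine ⟨x, by simp [hx], ?_⟩
    have := h [x] (by simp) (by simp [hx]) (by simp)
    exact occ_pos (emb_singleton.1 this)
  | succ r ih =>
    intro S hS s t h
    have hne : S.Nonempty := Finset.card_pos.1 (by omega)
    have hocc : ∀ x ∈ S, ∃ p, s ≤ p ∧ p < t ∧ w p = x := by
      intro x hx
      have hn : (x :: (S.erase x).toList).Nodup := by
        simp [Finset.nodup_toList]
      have := h (x :: (S.erase x).toList) hn (by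
        intro y hy
        rcases List.mem_cons.1 hy with rfl | hy
        · exact hx
        · exact Finset.mem_of_mem_erase (Finset.mem_toList.1 hy)) (by
        simp [Finset.card_erase_of_mem hx, hS])
      obtain ⟨p, h1, h2, h3, _⟩ := this
      exact ⟨p, h1, h2, h3⟩
    obtain ⟨z, hz, q, hq1, hq2, hq3, hq4⟩ := step_left hne hocc
    obtain ⟨x, hx, hx2⟩ := ih (S.erase z) (by rw [Finset.card_erase_of_mem hz, hS]; rfl) q t (by
      intro ρ hρ hρS hρl
      apply hq4
      apply h
      · rw [List.nodup_cons]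
        refine ⟨fun hmem => ?_, hρ⟩
        exact absurd (hρS z hmem) (Finset.notMem_erase z S)
      · intro y hy
        rcases List.mem_cons.1 hy with rfl | hy
        · exact hz
        · exact Finset.mem_of_mem_erase (hρS y hy)
      · simp [hρl])
    have hxS := Finset.mem_of_mem_erase hx
    refine ⟨x, hxS, ?_⟩
    have h1 := occ_pos (hq3 x hxS)
    have h2 := occ_add (w := w) (x := x) hq1.le le_rfl hq2
    omega

/-- All duplicate-free lists of length at most `k` embed in `[0, L)`. -/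
def Full (w : ℕ → α) (L k : ℕ) : Prop :=
  ∀ ρ : List α, ρ.Nodup → ρ.length ≤ k → Emb w ρ 0 L

/-- The forward chain. -/
lemma forward_chain {L k : ℕ} (hw : Full w L k) (S : Finset α) (hS : k ≤ S.card) :
    ∀ m ≤ k, ∃ (Z : List α) (p : ℕ → ℕ), Z.Nodup ∧ Z.length = m ∧ (∀ x ∈ Z, x ∈ S) ∧ p 0 = 0 ∧
      ∀ a ≤ m, p a ≤ L ∧ (∀ ρ t, Emb w (Z.take a ++ ρ) 0 t → Emb w ρ (p a) t) ∧
        ∀ g ∈ S, g ∉ Z → a ≤ occ w g 0 (p a) := by
  intro m
  induction m with
  | zero =>
    intro _
    refine ⟨[], fun _ => 0, by simp, rfl, by simp, rfl, ?_⟩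
    intro a ha
    obtain rfl : a = 0 := by omega
    refine ⟨Nat.zero_le _, fun ρ t h => by simpa using h, by simp⟩
  | succ m ih =>
    intro hm
    obtain ⟨Z, p, hZ1, hZ2, hZ3, hp0, hp⟩ := ih (by omega)
    set S' := S \ Z.toFinset with hS'
    have hcard : 0 < S'.card := by
      have h1 : Z.toFinset.card ≤ m := by rw [← hZ2]; exact List.toFinset_card_le Z
      have h2 := Finset.le_card_sdiff Z.toFinset S
      rw [hS']
      omega
    have hne : S'.Nonempty := Finset.card_pos.1 hcard
    have hmem : ∀ x ∈ S', x ∈ S ∧ x ∉ Z := by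
      intro x hx
      simpa [hS'] using hx
    have hocc : ∀ x ∈ S', ∃ q, p m ≤ q ∧ q < L ∧ w q = x := by
      intro x hx
      obtain ⟨hx1, hx2⟩ := hmem x hx
      have h1 : Emb w (Z ++ [x]) 0 L := by
        apply hw
        · rw [List.nodup_append]
          refine ⟨hZ1, by simp, ?_⟩
          intro a ha b hb
          simp only [List.mem_singleton] at hb
          rintro rfl
          exact hx2 (hb ▸ ha)
        · simp [hZ2]; omega
      have h2 := (hp m le_rfl).2.1 [x] L (by rw [List.take_of_length_le (by omega)]; exact h1)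
      exact emb_singleton.1 h2
    obtain ⟨z, hz, q, hq1, hq2, hq3, hq4⟩ := step_left hne hocc
    obtain ⟨hzS, hzZ⟩ := hmem z hz
    refine ⟨Z ++ [z], fun a => if a = m + 1 then q else p a, ?_, by simp [hZ2], ?_, ?_, ?_⟩
    · rw [List.nodup_append]
      refine ⟨hZ1, by simp, ?_⟩
      intro a ha b hb
      simp only [List.mem_singleton] at hb
      rintro rfl
      exact hzZ (hb ▸ ha)
    · intro x hx
      rcases List.mem_append.1 hx with hx | hx
      · exact hZ3 x hx
      · simp only [List.mem_singleton] at hx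
        rw [hx]; exact hzS
    · simp [hp0]
    · intro a ha
      by_cases ham : a = m + 1
      · subst ham
        simp only [if_true]
        refine ⟨hq2, ?_, ?_⟩
        · intro ρ t he
          rw [List.take_of_length_le (by simp [hZ2]), List.append_assoc] at he
          apply hq4
          apply (hp m le_rfl).2.1
          rw [List.take_of_length_le (by omega)]
          simpa using he
        · intro g hg hgZ
          rw [List.mem_append, not_or] at hgZ
          have hg' : g ∈ S' := by simp [hS', hg, hgZ.1]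
          have h1 := (hp m le_rfl).2.2 g hg hgZ.1
          have h2 := occ_pos (hq3 g hg')
          have h3 := occ_add (w := w) (x := g) (Nat.zero_le _) le_rfl hq1.le
          omega
      · simp only [ham, if_false]
        have ham' : a ≤ m := by omega
        obtain ⟨h1, h2, h3⟩ := hp a ham'
        refine ⟨h1, ?_, ?_⟩
        · intro ρ t he
          rw [List.take_append_of_le_length (by omega)] at he
          exact h2 ρ t he
        · intro g hg hgZ
          rw [List.mem_append, not_or] at hgZ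
          exact h3 g hg hgZ.1

/-- The backward chain; `r m` is the position after `m` steps from the right. -/
lemma backward_chain {L k : ℕ} (hw : Full w L k) (S : Finset α) (hS : k ≤ S.card) :
    ∀ m ≤ k, ∃ (Z : List α) (r : ℕ → ℕ), Z.Nodup ∧ Z.length = m ∧ (∀ x ∈ Z, x ∈ S) ∧ r 0 = L ∧
      ∀ b ≤ m, r b ≤ L ∧ (∀ ρ s, Emb w (ρ ++ Z.drop (m - b)) s L → Emb w ρ s (r b)) ∧
        ∀ g ∈ S, g ∉ Z → b ≤ occ w g (r b) L := by
  intro m
  induction m with
  | zero =>
    intro _
    refine ⟨[], fun _ => L, by simp, rfl, by simp, rfl, ?_⟩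
    intro a ha
    obtain rfl : a = 0 := by omega
    refine ⟨le_rfl, fun ρ t h => by simpa using h, by simp⟩
  | succ m ih =>
    intro hm
    obtain ⟨Z, r, hZ1, hZ2, hZ3, hr0, hr⟩ := ih (by omega)
    set S' := S \ Z.toFinset with hS'
    have hcard : 0 < S'.card := by
      have h1 : Z.toFinset.card ≤ m := by rw [← hZ2]; exact List.toFinset_card_le Z
      have h2 := Finset.le_card_sdiff Z.toFinset S
      rw [hS']
      omega
    have hne : S'.Nonempty := Finset.card_pos.1 hcard
    have hmem : ∀ x ∈ S', x ∈ S ∧ x ∉ Z := by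
      intro x hx
      simpa [hS'] using hx
    have hocc : ∀ x ∈ S', ∃ q, q < r m ∧ w q = x := by
      intro x hx
      obtain ⟨hx1, hx2⟩ := hmem x hx
      have h1 : Emb w ([x] ++ Z) 0 L := by
        apply hw
        · simpa using ⟨hx2, hZ1⟩
        · simp [hZ2]; omega
      have h2 := (hr m le_rfl).2.1 [x] 0 (by simpa using h1)
      obtain ⟨q, _, h3, h4⟩ := emb_singleton.1 h2
      exact ⟨q, h3, h4⟩
    obtain ⟨z, hz, q, hq2, hq3, hq4⟩ := step_right hne hocc
    obtain ⟨hzS, hzZ⟩ := hmem z hz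
    have hrL := (hr m le_rfl).1
    refine ⟨z :: Z, fun b => if b = m + 1 then q else r b, ?_, by simp [hZ2], ?_, ?_, ?_⟩
    · simpa using ⟨hzZ, hZ1⟩
    · intro x hx
      rcases List.mem_cons.1 hx with rfl | hx
      · exact hzS
      · exact hZ3 x hx
    · simp [hr0]
    · intro b hb
      by_cases hbm : b = m + 1
      · subst hbm
        simp only [if_true]
        refine ⟨by omega, ?_, ?_⟩
        · intro ρ s he
          rw [Nat.sub_self, List.drop_zero] at he
          apply hq4
          apply (hr m le_rfl).2.1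
          rw [Nat.sub_self, List.drop_zero]
          simpa using he
        · intro g hg hgZ
          rw [List.mem_cons, not_or] at hgZ
          have hg' : g ∈ S' := by simp [hS', hg, hgZ.2]
          have h1 := (hr m le_rfl).2.2 g hg hgZ.2
          have h2 := occ_pos (hq3 g hg')
          have h3 := occ_add (w := w) (x := g) hq2.le le_rfl hrL
          omega
      · simp only [hbm, if_false]
        have hbm' : b ≤ m := by omega
        obtain ⟨h1, h2, h3⟩ := hr b hbm'
        refine ⟨h1, ?_, ?_⟩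
        · intro ρ s he
          have : m + 1 - b = (m - b) + 1 := by omega
          rw [this, List.drop_succ_cons] at he
          exact h2 ρ s he
        · intro g hg hgZ
          rw [List.mem_cons, not_or] at hgZ
          exact h3 g hg hgZ.2

end Pool.Agent.Lib.MP_9067ea_co
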