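import Mathlib
import Pool.Agent.Lib.MP_9067ea_co.Core

/-!
# Counting local deficiencies by repeated halving
-/

set_option autoImplicit false
set_option linter.unusedSectionVars false

namespace Pool.Agent.Lib.MP_9067ea_co

open Finset

/-- The sum of `⌊log₂ i⌋` over `1 ≤ i ≤ k`. -/
def logSum (k : ℕ) : ℕ := ∑ i ∈ Finset.Icc 1 k, Nat.log 2 i

lemma logSum_succ (k : ℕ) : logSum (k + 1) = logSum k + Nat.log 2 (k + 1) := by
  unfold logSum
  rw [Finset.sum_Icc_succ_top (by omega)]

lemma logSum_zero : logSum 0 = 0 := rfl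
lemma logSum_one : logSum 1 = 0 := by decide

lemma logSum_mono {a b : ℕ} (h : a ≤ b) : logSum a ≤ logSum b := by
  induction h with
  | refl => exact le_rfl
  | step _ ih => rw [logSum_succ]; omega

lemma log_two_half {n : ℕ} (hn : 2 ≤ n) : Nat.log 2 n = Nat.log 2 (n / 2) + 1 :=
  Nat.log_of_one_lt_of_le (by norm_num) hn

lemma logSum_rec (r : ℕ) : logSum (r + 2) = (r + 1) + logSum ((r + 1) / 2) + logSum ((r + 2) / 2) := by
  induction r with
  | zero => decide
  | succ r ih =>
    rw [logSum_succ, ih, log_two_half (by omega)]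
    rcases Nat.even_or_odd' r with ⟨j, rfl | rfl⟩
    · have e1 : (2 * j + 1) / 2 = j := by omega
      have e2 : (2 * j + 2) / 2 = j + 1 := by omega
      have e3 : (2 * j + 2 + 1) / 2 = j + 1 := by omega
      have e4 : (2 * j + 1 + 1) / 2 = j + 1 := by omega
      have e5 : (2 * j + 1 + 2) / 2 = j + 1 := by omega
      simp only [e1, e2, e3, logSum_succ]
      ring
    · have e1 : (2 * j + 1 + 1) / 2 = j + 1 := by omega
      have e2 : (2 * j + 1 + 2) / 2 = j + 1 := by omega
      have e3 : (2 * j + 1 + 2 + 1) / 2 = j + 2 := by omega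
      have e4 : (2 * j + 1 + 1 + 1) / 2 = j + 1 := by omega
      have e5 : (2 * j + 1 + 1 + 2) / 2 = j + 2 := by omega
      simp only [e1, e2, e3, logSum_succ (j + 1)]
      ring

lemma le_logSum (r : ℕ) : r - 1 ≤ logSum r := by
  rcases r with _ | _ | r
  · simp
  · simp
  · rw [logSum_rec]; omega

variable {α : Type*} [DecidableEq α] {w : ℕ → α}

/-- Within a window of length `r` fewer than `r` letters occur fewer than `r` times. -/
lemma card_poor {B : Finset α} {s t r : ℕ}
    (h : ∀ ρ : List α, ρ.Nodup → (∀ x ∈ ρ, x ∈ B) → ρ.length ≤ r → Emb w ρ s t) :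
    (B.filter (fun x => occ w x s t < r)).card ≤ r - 1 := by
  rcases r with _ | r
  · simp
  · by_contra hcon
    push Not at hcon
    obtain ⟨S, hS1, hS2⟩ := Finset.exists_subset_card_eq
      (show r + 1 ≤ (B.filter (fun x => occ w x s t < r + 1)).card by omega)
    obtain ⟨x, hx1, hx2⟩ := exists_occ_ge (w := w) r S hS2 s t (by
      intro ρ hρ hρS hρl
      exact h ρ hρ (fun x hx => (Finset.mem_filter.1 (hS1 (hρS x hx))).1) hρl.le)
    have := (Finset.mem_filter.1 (hS1 hx1)).2
    omega

/-- The main counting lemma. -/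
lemma sum_deficiency {B : Finset α} {k μ : ℕ} (hμ : 1 ≤ μ) {P R : ℕ → ℕ}
    (h1 : ∀ a b, a ≤ b → b ≤ k → ∀ ρ : List α, ρ.Nodup → (∀ x ∈ ρ, x ∈ B) → ρ.length ≤ b - a →
      Emb w ρ (P a) (R b))
    (h2 : ∀ c, c + μ ≤ k → R c ≤ P (c + μ)) :
    ∀ r a, a + r ≤ k → ∑ x ∈ B, (r - occ w x (P a) (R (a + r))) ≤ μ * logSum r := by
  have hPR : ∀ a b, a ≤ b → b ≤ k → P a ≤ R b := fun a b hab hb =>
    (h1 a b hab hb [] (by simp) (by simp) (by simp)).le
  intro r
  induction r using Nat.strong_induction_on with
  | _ r ih =>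
    intro a ha
    have hpoor := card_poor (w := w) (B := B) (s := P a) (t := R (a + r)) (r := r) (by
      intro ρ hρ hρB hρl
      exact h1 a (a + r) (by omega) ha ρ hρ hρB (by omega))
    set S := B.filter (fun x => occ w x (P a) (R (a + r)) < r) with hS
    have hsum : ∑ x ∈ B, (r - occ w x (P a) (R (a + r))) =
        ∑ x ∈ S, (r - occ w x (P a) (R (a + r))) := by
      symm
      apply Finset.sum_subset (Finset.filter_subset _ _)
      intro x hxB hx
      have : ¬ occ w x (P a) (R (a + r)) < r := fun hlt => hx (Finset.mem_filter.2 ⟨hxB, hlt⟩)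
      omega
    rw [hsum]
    rcases r with _ | _ | r
    · simp
    · have : S.card = 0 := by omega
      rw [Finset.card_eq_zero.1 this]
      simp
    · by_cases hsmall : r + 3 ≤ μ
      · calc ∑ x ∈ S, (r + 2 - occ w x (P a) (R (a + (r + 2)))) ≤ ∑ x ∈ S, (r + 2) :=
              Finset.sum_le_sum fun x _ => Nat.sub_le _ _
          _ = S.card * (r + 2) := by rw [Finset.sum_const, smul_eq_mul]
          _ ≤ (r + 1) * μ := by
              apply Nat.mul_le_mul
              · omega
              · omega
          _ ≤ logSum (r + 2) * μ := by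
              apply Nat.mul_le_mul_right
              have := le_logSum (r + 2)
              omega
          _ = μ * logSum (r + 2) := mul_comm _ _
      · push Not at hsmall
        obtain ⟨r1, r2, hr, hr1, hr2⟩ : ∃ r1 r2, r1 + r2 + μ = r + 2 ∧ r1 ≤ (r + 1) / 2 ∧
            r2 ≤ (r + 2) / 2 := by
          by_cases hc : (r + 1) / 2 + μ ≤ r + 2
          · refine ⟨(r + 1) / 2, r + 2 - μ - (r + 1) / 2, by omega, le_rfl, by omega⟩
          · exact ⟨r + 2 - μ, 0, by omega, by omega, by omega⟩
        have i1 := ih r1 (by omega) a (by omega)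
        have i2 := ih r2 (by omega) (a + r1 + μ) (by omega)
        have key : ∀ x, r + 2 - occ w x (P a) (R (a + (r + 2))) ≤
            (r1 - occ w x (P a) (R (a + r1))) +
            (r2 - occ w x (P (a + r1 + μ)) (R (a + r1 + μ + r2))) + μ := by
          intro x
          have e : a + r1 + μ + r2 = a + (r + 2) := by omega
          rw [e]
          have := occ_add (w := w) (x := x) (hPR a (a + r1) (by omega) (by omega))
            (h2 (a + r1) (by omega)) (hPR (a + r1 + μ) (a + (r + 2)) (by omega) (by omega))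
          omega
        have hSB : ∀ f : α → ℕ, ∑ x ∈ S, f x ≤ ∑ x ∈ B, f x := fun f =>
          Finset.sum_le_sum_of_subset (Finset.filter_subset _ _)
        calc ∑ x ∈ S, (r + 2 - occ w x (P a) (R (a + (r + 2))))
            ≤ ∑ x ∈ S, ((r1 - occ w x (P a) (R (a + r1))) +
              (r2 - occ w x (P (a + r1 + μ)) (R (a + r1 + μ + r2))) + μ) :=
              Finset.sum_le_sum fun x _ => key x
          _ = ∑ x ∈ S, (r1 - occ w x (P a) (R (a + r1))) +
              ∑ x ∈ S, (r2 - occ w x (P (a + r1 + μ)) (R (a + r1 + μ + r2))) + S.card * μ := by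
              rw [Finset.sum_add_distrib, Finset.sum_add_distrib, Finset.sum_const, smul_eq_mul]
          _ ≤ μ * logSum r1 + μ * logSum r2 + (r + 1) * μ := by
              apply Nat.add_le_add (Nat.add_le_add ((hSB _).trans i1) ((hSB _).trans i2))
              apply Nat.mul_le_mul_right
              omega
          _ ≤ μ * logSum ((r + 1) / 2) + μ * logSum ((r + 2) / 2) + (r + 1) * μ := by
              gcongr
              · exact logSum_mono hr1
              · exact logSum_mono hr2
          _ = μ * logSum (r + 2) := by rw [logSum_rec]; ring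

end Pool.Agent.Lib.MP_9067ea_co
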