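import Mathlib
import Pool.Agent.Lib.MP_9067ea_co.Count

/-!
# The lower bound for the length
-/

set_option autoImplicit false

namespace Pool.Agent.Lib.MP_9067ea_co

open Finset

variable {α : Type*} [DecidableEq α] [Fintype α] {w : ℕ → α}

omit [DecidableEq α] in
lemma sum_occ [DecidableEq α] (w : ℕ → α) (L : ℕ) : ∑ x : α, occ w x 0 L = L := by
  unfold occ
  rw [← Finset.card_eq_sum_card_fiberwise (f := w) (s := Finset.Ico 0 L) (t := Finset.univ)]
  · simp
  · intro x _; simp

/-- The main lower bound for words given as functions. -/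
theorem main_bound {L k : ℕ} (hw : Full w L k)
    (hn : 3 * k + logSum k ≤ Fintype.card α + 1) (hn' : 3 * k ≤ Fintype.card α) :
    k * Fintype.card α ≤ L + logSum k := by
  classical
  rcases Nat.eq_zero_or_pos k with rfl | hk
  · simp
  set f : α → ℕ := fun x => occ w x 0 L with hf
  set B : Finset α := Finset.univ.filter (fun x => occ w x 0 L < k) with hB
  have hBcard : B.card ≤ k - 1 := card_poor (w := w) (B := Finset.univ) (s := 0) (t := L) (r := k)
    (fun ρ hρ _ hl => hw ρ hρ hl)
  set H : Finset α := Finset.univ \ B with hH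
  have hHcard : Fintype.card α - (k - 1) ≤ H.card := by
    rw [hH, Finset.card_univ_diff]; omega
  have hHmem : ∀ x ∈ H, x ∉ B ∧ k ≤ f x := by
    intro x hx
    rw [hH, Finset.mem_sdiff] at hx
    refine ⟨hx.2, ?_⟩
    by_contra hcon
    exact hx.2 (by rw [hB]; simp; exact not_le.1 hcon)
  obtain ⟨Z, p, hZ1, hZ2, hZ3, hp0, hp⟩ := forward_chain hw H (by omega) k le_rfl
  set H' : Finset α := H \ Z.toFinset with hH'
  have hH'card : Fintype.card α - (k - 1) - k ≤ H'.card := by
    have h1 : Z.toFinset.card ≤ k := by rw [← hZ2]; exact List.toFinset_card_le Z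
    have h2 := Finset.le_card_sdiff Z.toFinset H
    rw [hH']; omega
  obtain ⟨Z', r, hZ'1, hZ'2, hZ'3, hr0, hr⟩ := backward_chain hw H' (by omega) k le_rfl
  set G : Finset α := H' \ Z'.toFinset with hG
  have hGcard : Fintype.card α - (k - 1) - k - k ≤ G.card := by
    have h1 : Z'.toFinset.card ≤ k := by rw [← hZ'2]; exact List.toFinset_card_le Z'
    have h2 := Finset.le_card_sdiff Z'.toFinset H'
    rw [hG]; omega
  have hGne : G.Nonempty := Finset.card_pos.1 (by omega)
  obtain ⟨g, hgG, hgmin⟩ := Finset.exists_min_image G f hGne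
  have hgH' : g ∈ H' := (Finset.mem_sdiff.1 hgG).1
  have hgH : g ∈ H := (Finset.mem_sdiff.1 hgH').1
  have hgZ : g ∉ Z := fun h => (Finset.mem_sdiff.1 hgH').2 (List.mem_toFinset.2 h)
  have hgZ' : g ∉ Z' := fun h => (Finset.mem_sdiff.1 hgG).2 (List.mem_toFinset.2 h)
  have hgk : k ≤ f g := (hHmem g hgH).2
  obtain ⟨μ, hμ⟩ : ∃ μ, f g + 1 = k + μ := ⟨f g + 1 - k, by omega⟩
  have hμ1 : 1 ≤ μ := by omega
  have hZH' : ∀ x ∈ Z', x ∉ Z := fun x hx hxZ =>
    (Finset.mem_sdiff.1 (hZ'3 x hx)).2 (List.mem_toFinset.2 hxZ)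
  have key := sum_deficiency (w := w) (B := B) (k := k) (μ := μ) hμ1 (P := p)
    (R := fun b => r (k - b)) (by
      intro a b hab hbk ρ hρ hρB hρl
      have h1 : Emb w (Z.take a ++ (ρ ++ Z'.drop b)) 0 L := by
        apply hw
        · rw [List.nodup_append]
          refine ⟨hZ1.sublist (List.take_sublist _ _), ?_, ?_⟩
          · rw [List.nodup_append]
            refine ⟨hρ, hZ'1.sublist (List.drop_sublist _ _), ?_⟩
            intro x hx y hy hxy
            subst hxy
            have h2 := hZ'3 x (List.mem_of_mem_drop hy)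
            exact (hHmem x (Finset.mem_sdiff.1 h2).1).1 (hρB x hx)
          · intro x hx y hy hxy
            subst hxy
            have hxZ := List.mem_of_mem_take hx
            rcases List.mem_append.1 hy with hy | hy
            · exact (hHmem x (hZ3 x hxZ)).1 (hρB x hy)
            · exact hZH' x (List.mem_of_mem_drop hy) hxZ
        · simp only [List.length_append, List.length_take, List.length_drop]
          omega
      have h2 := (hp a (by omega)).2.1 _ _ h1
      refine (hr (k - b) (by omega)).2.1 ρ (p a) ?_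
      have : k - (k - b) = b := by omega
      rw [this]
      exact h2)
    (by
      intro c hc
      by_contra hcon
      push Not at hcon
      have h1 := (hp (c + μ) hc).2.2 g hgH hgZ
      have h2 := (hr (k - c) (by omega)).2.2 g hgH' hgZ'
      have h3 := occ_add (w := w) (x := g) (Nat.zero_le _) hcon.le (hr (k - c) (by omega)).1
      have h4 : occ w g 0 L = f g := rfl
      omega)
    k 0 (by omega)
  rw [hp0] at key
  simp only [zero_add, Nat.sub_self, hr0] at key
  have hGlog : logSum k ≤ G.card := by omega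
  have hpt : ∀ x : α, k + (if x ∈ G then μ - 1 else 0) ≤ f x + (if x ∈ B then k - f x else 0) := by
    intro x
    by_cases hxB : x ∈ B
    · have hxG : x ∉ G := by
        intro h
        exact (hHmem x (Finset.mem_sdiff.1 (Finset.mem_sdiff.1 h).1).1).1 hxB
      simp only [hxB, hxG, if_true, if_false]
      omega
    · by_cases hxG : x ∈ G
      · simp only [hxB, hxG, if_true, if_false]
        have := hgmin x hxG
        omega
      · simp only [hxB, hxG, if_false]
        have : x ∈ H := by rw [hH, Finset.mem_sdiff]; exact ⟨Finset.mem_univ _, hxB⟩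
        have := (hHmem x this).2
        omega
  have hsum := Finset.sum_le_sum fun x (_ : x ∈ (Finset.univ : Finset α)) => hpt x
  rw [Finset.sum_add_distrib, Finset.sum_add_distrib, Finset.sum_const, smul_eq_mul,
    Finset.card_univ, Finset.sum_ite_mem, Finset.sum_ite_mem, Finset.univ_inter,
    Finset.univ_inter, Finset.sum_const, smul_eq_mul] at hsum
  have hL : ∑ x : α, f x = L := sum_occ w L
  rw [hL] at hsum
  obtain ⟨ν, hν⟩ : ∃ ν, μ = ν + 1 := ⟨μ - 1, by omega⟩
  subst hν
  have h5 : logSum k * ν ≤ G.card * ν := Nat.mul_le_mul_right _ hGlog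
  have h6 : (ν + 1) * logSum k = logSum k * ν + logSum k := by ring
  have h7 : Fintype.card α * k = k * Fintype.card α := mul_comm _ _
  have h8 : G.card * (ν + 1 - 1) = G.card * ν := by simp
  have h9 : ∑ x ∈ B, (k - occ w x 0 L) = ∑ x ∈ B, (k - f x) := rfl
  omega

end Pool.Agent.Lib.MP_9067ea_co
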