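import Mathlib
import Pool.Agent.Lib.MP_9067ea_co.Lower

/-!
# The quantity g(n, k)
-/

set_option autoImplicit false

namespace Pool.Agent.Lib.MP_9067ea_co

/-- The word `w` over the alphabet `Fin n` contains every `k`-permutation of the alphabet, that is,
every duplicate-free word of length `k`, as a subsequence. -/
def ContainsAll (n k : ℕ) (w : List (Fin n)) : Prop :=
  ∀ π : List (Fin n), π.Nodup → π.length = k → π.Sublist w

/-- `g n k` is the least length of a word over `Fin n` containing every `k`-permutation. -/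
noncomputable def g (n k : ℕ) : ℕ :=
  sInf {L : ℕ | ∃ w : List (Fin n), w.length = L ∧ ContainsAll n k w}

/-- The `k`-fold repetition of the alphabet contains every word of length `k`. -/
lemma exists_containsAll (n k : ℕ) : ∃ w : List (Fin n), ContainsAll n k w := by
  suffices h : ∀ k, ∃ w : List (Fin n), ∀ π : List (Fin n), π.length = k → π.Sublist w by
    obtain ⟨w, hw⟩ := h k
    exact ⟨w, fun π _ hl => hw π hl⟩
  intro k
  induction k with
  | zero =>
    exact ⟨[], fun π hπ => by rw [List.length_eq_zero_iff.1 hπ]⟩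
  | succ k ih =>
    obtain ⟨w, hw⟩ := ih
    refine ⟨List.finRange n ++ w, fun π hπ => ?_⟩
    obtain ⟨a, π', rfl⟩ : ∃ a π', π = a :: π' := by
      cases π with
      | nil => simp at hπ
      | cons a π' => exact ⟨a, π', rfl⟩
    have h1 : [a].Sublist (List.finRange n) := by simp
    have h2 : π'.Sublist w := hw π' (by simpa using hπ)
    exact h1.append h2

lemma g_spec (n k : ℕ) : ∃ w : List (Fin n), w.length = g n k ∧ ContainsAll n k w := by
  have hne : {L : ℕ | ∃ w : List (Fin n), w.length = L ∧ ContainsAll n k w}.Nonempty := by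
    obtain ⟨w, hw⟩ := exists_containsAll n k
    exact ⟨w.length, w, rfl, hw⟩
  exact Nat.sInf_mem hne

lemma g_le {n k : ℕ} {w : List (Fin n)} (hw : ContainsAll n k w) : g n k ≤ w.length :=
  Nat.sInf_le ⟨w, rfl, hw⟩

/-- Passing from lists to functions. -/
lemma emb_of_sublist {α : Type*} [DecidableEq α] (w : List α) (d : α) {π l : List α} (h : π.Sublist l) :
    ∀ s, w.drop s = l → s ≤ w.length → Emb (fun p => w.getD p d) π s w.length := by
  induction h with
  | slnil =>
    intro s _ hs
    exact hs
  | @cons π l a _ ih =>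
    intro s hl hs
    have hlt : s < w.length := by
      by_contra hcon
      rw [List.drop_eq_nil_of_le (not_lt.1 hcon)] at hl
      simp at hl
    have h2 : w.drop (s + 1) = l := by
      rw [← List.drop_drop, hl]; rfl
    exact (ih (s + 1) h2 hlt).mono (Nat.le_succ s) le_rfl
  | @cons_cons π l a _ ih =>
    intro s hl hs
    have hlt : s < w.length := by
      by_contra hcon
      rw [List.drop_eq_nil_of_le (not_lt.1 hcon)] at hl
      simp at hl
    have h2 : w.drop (s + 1) = l := by
      rw [← List.drop_drop, hl]; rfl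
    refine ⟨s, le_rfl, hlt, ?_, ih (s + 1) h2 hlt⟩
    have h3 : w[s] = a := by
      have := List.getElem_cons_drop (as := w) (i := s) hlt
      rw [hl] at this
      exact (List.cons.inj this).1
    simp [List.getD_eq_getElem?_getD, hlt, h3]

lemma full_of_containsAll {n k : ℕ} {w : List (Fin n)} (hk : k ≤ n) (d : Fin n)
    (hw : ContainsAll n k w) : Full (fun p => w.getD p d) w.length k := by
  intro ρ hρ hl
  obtain ⟨σ, hσ1, hσ2, hσ3⟩ : ∃ σ : List (Fin n), σ.Nodup ∧ ρ.Sublist σ ∧ σ.length = k := by
    have hcard : k - ρ.length ≤ (Finset.univ \ ρ.toFinset).card := by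
      rw [Finset.card_univ_sdiff, List.toFinset_card_of_nodup hρ, Fintype.card_fin]
      omega
    obtain ⟨S, hS1, hS2⟩ := Finset.exists_subset_card_eq hcard
    refine ⟨ρ ++ S.toList, ?_, List.sublist_append_left _ _, ?_⟩
    · rw [List.nodup_append]
      refine ⟨hρ, S.nodup_toList, ?_⟩
      intro a ha b hb hab
      subst hab
      have := hS1 (Finset.mem_toList.1 hb)
      simp [ha] at this
    · simp [hS2]; omega
  have h1 := hw σ hσ1 hσ3
  have h2 := emb_of_sublist w d h1 0 (by simp) (Nat.zero_le _)
  exact h2.sublist hσ2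

/-- The lower bound for `g`. -/
theorem le_g_add {n k : ℕ} (hk : 2 ≤ k) (hn : 3 * k + logSum k ≤ n + 1) :
    k * n ≤ g n k + logSum k := by
  obtain ⟨w, hw1, hw2⟩ := g_spec n k
  have h1 : 1 ≤ logSum k := by
    have := le_logSum k
    omega
  have hn0 : 0 < n := by omega
  have h2 := main_bound (α := Fin n) (k := k)
    (full_of_containsAll (by omega) ⟨0, hn0⟩ hw2) (by simpa using hn) (by simp; omega)
  rw [Fintype.card_fin, hw1] at h2
  exact h2

end Pool.Agent.Lib.MP_9067ea_co
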