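import Mathlib
import Pool.Agent.Lib.MP_9067ea_co.Def

/-!
# Upper bounds from reduced words

A reduced word is a list of natural numbers; the entries `c < m` stand for `m` special letters, the
entry `m` stands for the block of all other letters.
-/

set_option autoImplicit false

namespace Pool.Agent.Lib.MP_9067ea_co

/-- The suffix of `W` after the first occurrence of `c`. -/
def after (c : ℕ) : List ℕ → Option (List ℕ)
  | [] => none
  | a :: W => if Nat.beq a c then some W else after c W

/-- Is every pattern of length `k` over `{0, …, m}` whose entries below `m` are distinct and not in
`used` a subsequence of `W`? -/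
def check (m : ℕ) : ℕ → List ℕ → List ℕ → Bool
  | 0, _, _ => true
  | k + 1, W, used => (List.range (m + 1)).all fun c =>
      (used.any fun a => Nat.beq a c) ||
        match after c W with
        | none => false
        | some W' => check m k W' (if Nat.beq c m then used else c :: used)

lemma after_sublist {c : ℕ} {W W' π : List ℕ} (h : after c W = some W') (hπ : π.Sublist W') :
    (c :: π).Sublist W := by
  induction W with
  | nil => simp [after] at h
  | cons a W ih =>
    unfold after at h
    by_cases hac : a = c
    · subst hac
      simp at h
      subst h
      exact hπ.cons_cons a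
    · have : Nat.beq a c = false := by
        rw [Bool.eq_false_iff]; intro hb; exact hac (Nat.eq_of_beq_eq_true hb)
      rw [this] at h
      exact (ih h).cons a

lemma check_sound (m : ℕ) : ∀ (k : ℕ) (W used : List ℕ), check m k W used = true →
    ∀ π : List ℕ, π.length = k → (∀ x ∈ π, x ≤ m) → (∀ x ∈ π, x ∉ used) →
      (π.filter (fun x => x ≠ m)).Nodup → m ∉ used → π.Sublist W := by
  intro k
  induction k with
  | zero =>
    intro W used _ π hl _ _ _ _
    rw [List.length_eq_zero_iff.1 hl]
    exact List.nil_sublist _
  | succ k ih =>
    intro W used h π hl hm hu hnd hmu
    obtain ⟨c, π', rfl⟩ : ∃ a π', π = a :: π' := by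
      cases π with
      | nil => simp at hl
      | cons a π' => exact ⟨a, π', rfl⟩
    have hc : c ≤ m := hm c (by simp)
    have hcu : c ∉ used := hu c (by simp)
    unfold check at h
    rw [List.all_eq_true] at h
    have h1 := h c (by simp; omega)
    have h2 : (used.any fun a => Nat.beq a c) = false := by
      rw [List.any_eq_false]
      intro a ha hb
      exact hcu (Nat.eq_of_beq_eq_true hb ▸ ha)
    rw [h2, Bool.false_or] at h1
    cases hW : after c W with
    | none => rw [hW] at h1; simp at h1
    | some W' =>
      rw [hW] at h1
      simp only at h1
      apply after_sublist hW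
      apply ih W' _ h1 π' (by simpa using hl) (fun x hx => hm x (by simp [hx]))
      · intro x hx
        by_cases hcm : c = m
        · subst hcm
          simp only [Nat.beq_refl, if_true]
          exact hu x (by simp [hx])
        · have : Nat.beq c m = false := by
            rw [Bool.eq_false_iff]; intro hb; exact hcm (Nat.eq_of_beq_eq_true hb)
          rw [this]
          simp only [Bool.false_eq_true, if_false, List.mem_cons, not_or]
          refine ⟨?_, hu x (by simp [hx])⟩
          rintro rfl
          rw [List.filter_cons] at hnd
          simp only [hcm, ne_eq, not_false_eq_true, decide_true, if_true] at hnd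
          rw [List.nodup_cons] at hnd
          exact hnd.1 (by simp [hx, hcm])
      · rw [List.filter_cons] at hnd
        split_ifs at hnd
        · exact (List.nodup_cons.1 hnd).2
        · exact hnd
      · by_cases hcm : c = m
        · subst hcm
          simpa using hmu
        · have : Nat.beq c m = false := by
            rw [Bool.eq_false_iff]; intro hb; exact hcm (Nat.eq_of_beq_eq_true hb)
          rw [this]
          simp only [Bool.false_eq_true, if_false, List.mem_cons, not_or]
          exact ⟨fun h => hcm h.symm, hmu⟩

/-- The entry of a reduced word that stands for a letter. -/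
def code (n m : ℕ) (x : Fin n) : ℕ := min x.val m

/-- The block of letters represented by an entry of a reduced word. -/
def block (n m c : ℕ) : List (Fin n) := (List.finRange n).filter (fun x => code n m x = c)

lemma mem_block (n m : ℕ) (x : Fin n) : x ∈ block n m (code n m x) := by
  simp [block]

lemma sublist_flatMap {α β : Type*} [DecidableEq β] (f : β → List α) (code : α → β)
    (hf : ∀ x, x ∈ f (code x)) {π : List α} {W : List β} (h : (π.map code).Sublist W) :
    π.Sublist (W.flatMap f) := by
  induction W generalizing π with
  | nil =>
    have : π = [] := by simpa using h
    subst this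
    simp
  | cons b W ih =>
    rw [List.flatMap_cons]
    cases π with
    | nil => simp
    | cons x π =>
      rw [List.map_cons] at h
      by_cases hb : code x = b
      · subst hb
        have h2 : (π.map code).Sublist W := List.cons_sublist_cons.1 h
        have h3 : [x].Sublist (f (code x)) := List.singleton_sublist.2 (hf x)
        exact h3.append (ih h2)
      · have h2 : ((x :: π).map code).Sublist W := by
          rw [List.map_cons]
          rcases List.sublist_cons_iff.1 h with h | ⟨r, hr, _⟩
          · exact h
          · exact absurd (List.cons.inj hr).1 hb
        exact (ih h2).trans (List.sublist_append_right _ _)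

lemma block_length {n m c : ℕ} (hm : m ≤ n) (hc : c ≤ m) :
    (block n m c).length = if c = m then n - m else 1 := by
  unfold block
  rw [← List.toFinset_card_of_nodup ((List.nodup_finRange n).filter _)]
  have h1 : ((List.finRange n).filter (fun x => code n m x = c)).toFinset =
      Finset.univ.filter (fun x : Fin n => code n m x = c) := by
    ext x; simp
  have h2 : (Finset.univ.filter (fun x : Fin n => code n m x = c)).card =
      ((Finset.range n).filter (fun x => min x m = c)).card := by
    apply Finset.card_bij (fun x _ => x.val)
    · intro x hx
      simp only [Finset.mem_filter, Finset.mem_univ, true_and, Finset.mem_range] at hx ⊢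
      exact ⟨x.isLt, hx⟩
    · intro x _ y _ hxy
      exact Fin.ext hxy
    · intro y hy
      simp only [Finset.mem_filter, Finset.mem_range] at hy
      exact ⟨⟨y, hy.1⟩, by simp only [Finset.mem_filter, Finset.mem_univ, true_and]; exact hy.2, rfl⟩
  rw [h1, h2]
  split_ifs with h
  · subst h
    have : (Finset.range n).filter (fun x => min x c = c) = Finset.Ico c n := by
      ext x
      simp only [Finset.mem_filter, Finset.mem_range, Finset.mem_Ico]
      omega
    rw [this, Nat.card_Ico]
  · have : (Finset.range n).filter (fun x => min x m = c) = {c} := by
      ext x
      simp only [Finset.mem_filter, Finset.mem_range, Finset.mem_singleton]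
      omega
    rw [this, Finset.card_singleton]

/-- The word represented by a reduced word. -/
def expand (n m : ℕ) (W : List ℕ) : List (Fin n) := W.flatMap (block n m)

lemma expand_length {n m : ℕ} (hm : m ≤ n) (W : List ℕ) (hW : ∀ c ∈ W, c ≤ m) :
    (expand n m W).length = W.countP (fun c => c ≠ m) + W.countP (fun c => c = m) * (n - m) := by
  unfold expand
  induction W with
  | nil => simp
  | cons c W ih =>
    rw [List.flatMap_cons, List.length_append, ih (fun x hx => hW x (by simp [hx])),
      block_length hm (hW c (by simp)), List.countP_cons, List.countP_cons]
    by_cases h : c = m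
    · simp [h]; ring
    · simp [h]; ring

/-- The upper bound given by a checked reduced word. -/
theorem g_le_of_check {n k m : ℕ} (hm : m ≤ n) (W : List ℕ) (hW : ∀ c ∈ W, c ≤ m)
    (h : check m k W [] = true) :
    g n k ≤ W.countP (fun c => c ≠ m) + W.countP (fun c => c = m) * (n - m) := by
  rw [← expand_length hm W hW]
  apply g_le
  intro π hπ hl
  apply sublist_flatMap (block n m) (code n m) (mem_block n m)
  apply check_sound m k W [] h
  · simpa using hl
  · intro x hx
    obtain ⟨y, _, rfl⟩ := List.mem_map.1 hx
    exact Nat.min_le_right _ _
  · simp
  · have h1 : (π.map (code n m)).filter (fun x => x ≠ m) =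
        (π.filter (fun x => code n m x ≠ m)).map (code n m) := by
      rw [List.filter_map]; rfl
    rw [h1, List.nodup_map_iff_inj_on (hπ.filter _)]
    intro x hx y hy hxy
    have hx2 : code n m x ≠ m := by simpa using (List.mem_filter.1 hx).2
    have hy2 : code n m y ≠ m := by simpa using (List.mem_filter.1 hy).2
    unfold code at hx2 hy2 hxy
    apply Fin.ext
    omega
  · simp

end Pool.Agent.Lib.MP_9067ea_co
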