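import Mathlib
import Pool.Agent.Lib.MP_9067ea_co.Def

/-!
# A lower bound valid for all `n ≥ k ≥ 2`
-/

set_option autoImplicit false

namespace Pool.Agent.Lib.MP_9067ea_co

open Finset

variable {α : Type*} [DecidableEq α] {w : ℕ → α}

/-- Number of positions in `[s, t)` whose letter lies in `S`. -/
def cnt (w : ℕ → α) (S : Finset α) (s t : ℕ) : ℕ :=
  ((Finset.Ico s t).filter (fun p => w p ∈ S)).card

lemma cnt_add {S : Finset α} {s m m' t : ℕ} (h1 : s ≤ m) (h2 : m ≤ m') (h3 : m' ≤ t) :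
    cnt w S s m + cnt w S m' t ≤ cnt w S s t := by
  unfold cnt
  rw [← Finset.card_union_of_disjoint]
  · apply Finset.card_le_card
    intro p hp
    simp only [Finset.mem_union, Finset.mem_filter, Finset.mem_Ico] at hp ⊢
    rcases hp with ⟨⟨a, b⟩, c⟩ | ⟨⟨a, b⟩, c⟩
    · exact ⟨⟨a, by omega⟩, c⟩
    · exact ⟨⟨by omega, b⟩, c⟩
  · rw [Finset.disjoint_left]
    intro p hp hp'
    simp only [Finset.mem_filter, Finset.mem_Ico] at hp hp'
    omega

lemma cnt_mono {S T : Finset α} (h : S ⊆ T) (s t : ℕ) : cnt w S s t ≤ cnt w T s t := by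
  unfold cnt
  apply Finset.card_le_card
  intro p hp
  simp only [Finset.mem_filter] at hp ⊢
  exact ⟨hp.1, h hp.2⟩

lemma cnt_erase {S : Finset α} {z : α} (hz : z ∈ S) (s t : ℕ) :
    cnt w (S.erase z) s t + occ w z s t = cnt w S s t := by
  unfold cnt occ
  rw [← Finset.card_union_of_disjoint]
  · congr 1
    ext p
    simp only [Finset.mem_union, Finset.mem_filter, Finset.mem_erase]
    constructor
    · rintro (⟨a, _, b⟩ | ⟨a, b⟩)
      · exact ⟨a, b⟩
      · exact ⟨a, b ▸ hz⟩
    · rintro ⟨a, b⟩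
      by_cases h : w p = z
      · exact Or.inr ⟨a, h⟩
      · exact Or.inl ⟨a, h, b⟩
  · rw [Finset.disjoint_left]
    intro p hp hp'
    simp only [Finset.mem_filter, Finset.mem_erase] at hp hp'
    exact hp.2.1 hp'.2

lemma card_le_cnt {S : Finset α} {s t : ℕ} (h : ∀ x ∈ S, ∃ p, s ≤ p ∧ p < t ∧ w p = x) :
    S.card ≤ cnt w S s t := by
  unfold cnt
  have : S ⊆ ((Finset.Ico s t).filter (fun p => w p ∈ S)).image w := by
    intro x hx
    obtain ⟨p, h1, h2, h3⟩ := h x hx
    exact Finset.mem_image.2 ⟨p, by simp [h1, h2, h3, hx], h3⟩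
  exact (Finset.card_le_card this).trans Finset.card_image_le

/-- Every duplicate-free list of length `k` of letters of `S` embeds in `[s, t)`. -/
def FullOn (w : ℕ → α) (S : Finset α) (k s t : ℕ) : Prop :=
  ∀ ρ : List α, ρ.Nodup → (∀ x ∈ ρ, x ∈ S) → ρ.length = k → Emb w ρ s t

lemma FullOn.occurs {S : Finset α} {k s t : ℕ} (h : FullOn w S (k + 1) s t) (hS : k + 1 ≤ S.card) :
    ∀ x ∈ S, ∃ p, s ≤ p ∧ p < t ∧ w p = x := by
  intro x hx
  obtain ⟨T, hT1, hT2⟩ := Finset.exists_subset_card_eq (show k ≤ (S.erase x).card by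
    rw [Finset.card_erase_of_mem hx]; omega)
  have hxT : x ∉ T := fun hxT => Finset.notMem_erase x S (hT1 hxT)
  have := h (x :: T.toList) (by simp [Finset.nodup_toList, hxT]) (by
    intro y hy
    rcases List.mem_cons.1 hy with rfl | hy
    · exact hx
    · exact Finset.mem_of_mem_erase (hT1 (Finset.mem_toList.1 hy))) (by simp [hT2])
  obtain ⟨p, h1, h2, h3, _⟩ := this
  exact ⟨p, h1, h2, h3⟩

/-- Numerical form of the bound: `k n ≤ |w| + (k-1)(k-2)/2 + 1`, written with `k = j + 2`. -/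
lemma small_bound (j : ℕ) : ∀ (S : Finset α) (s t : ℕ), j + 2 ≤ S.card → FullOn w S (j + 2) s t →
    2 * ((j + 2) * S.card) ≤ 2 * cnt w S s t + (j + 1) * j + 2 := by
  induction j with
  | zero =>
    intro S s t hS h
    have hne : S.Nonempty := Finset.card_pos.1 (by omega)
    obtain ⟨z, hz, q, hq1, hq2, hq3, hq4⟩ := step_left hne (h.occurs hS)
    have h2 : FullOn w (S.erase z) 1 q t := by
      intro ρ hρ hρS hl
      apply hq4
      apply h
      · rw [List.nodup_cons]
        exact ⟨fun hm => absurd (hρS z hm) (Finset.notMem_erase z S), hρ⟩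
      · intro y hy
        rcases List.mem_cons.1 hy with rfl | hy
        · exact hz
        · exact Finset.mem_of_mem_erase (hρS y hy)
      · simp [hl]
    have hc : (S.erase z).card = S.card - 1 := Finset.card_erase_of_mem hz
    have h3 := card_le_cnt (h2.occurs (k := 0) (by omega))
    have h4 := card_le_cnt hq3
    have h5 := cnt_mono (w := w) (Finset.erase_subset z S) q t
    have h6 := cnt_add (w := w) (S := S) hq1.le le_rfl hq2
    omega
  | succ j ih =>
    intro S s t hS h
    have hne : S.Nonempty := Finset.card_pos.1 (by omega)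
    obtain ⟨z, hz, q, hq1, hq2, hq3, hq4⟩ := step_left hne (h.occurs hS)
    have hc : (S.erase z).card = S.card - 1 := Finset.card_erase_of_mem hz
    have hcons : ∀ ρ : List α, ρ.Nodup → (∀ x ∈ ρ, x ∈ S.erase z) → ρ.length = j + 2 →
        Emb w (z :: ρ) s t ∧ Emb w (ρ ++ [z]) s t := by
      intro ρ hρ hρS hl
      have hzρ : z ∉ ρ := fun hm => absurd (hρS z hm) (Finset.notMem_erase z S)
      refine ⟨h _ ?_ ?_ ?_, h _ ?_ ?_ ?_⟩
      · rw [List.nodup_cons]; exact ⟨hzρ, hρ⟩
      · intro y hy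
        rcases List.mem_cons.1 hy with rfl | hy
        · exact hz
        · exact Finset.mem_of_mem_erase (hρS y hy)
      · simp [hl]
      · rw [List.nodup_append]
        refine ⟨hρ, by simp, ?_⟩
        intro a ha b hb hab
        simp only [List.mem_singleton] at hb
        exact hzρ (hb ▸ hab ▸ ha)
      · intro y hy
        rcases List.mem_append.1 hy with hy | hy
        · exact Finset.mem_of_mem_erase (hρS y hy)
        · simp only [List.mem_singleton] at hy
          rw [hy]; exact hz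
      · simp [hl]
    have h2 : FullOn w (S.erase z) (j + 2) q t := fun ρ hρ hρS hl => hq4 _ _ (hcons ρ hρ hρS hl).1
    have i2 := ih (S.erase z) q t (by omega) h2
    have h4 := card_le_cnt hq3
    have h6 := cnt_add (w := w) (S := S) hq1.le le_rfl hq2
    have h7 := cnt_erase (w := w) hz q t
    rw [hc] at i2
    obtain ⟨N, hN⟩ : ∃ N, S.card = N + 1 := ⟨S.card - 1, by omega⟩
    rw [hN] at i2 h4 hS ⊢
    rw [Nat.add_sub_cancel] at i2
    by_cases hocc : 1 ≤ occ w z q t
    · have e1 : 2 * ((j + 1 + 2) * (N + 1)) = 2 * ((j + 2) * N) + 2 * (N + 1) + 2 * (j + 2) := by ring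
      have e2 : (j + 1 + 1) * (j + 1) = (j + 1) * j + 2 * (j + 1) := by ring
      omega
    · -- `z` occurs only once
      have hz0 : ∀ p, q ≤ p → p < t → w p ≠ z := by
        intro p hp1 hp2 hp3
        exact hocc (occ_pos ⟨p, hp1, hp2, hp3⟩)
      have h8 : FullOn w (S.erase z) (j + 2) s q := by
        intro ρ hρ hρS hl
        obtain ⟨m, hm1, hm2⟩ := emb_append.1 (hcons ρ hρ hρS hl).2
        obtain ⟨p, hp1, hp2, hp3⟩ := emb_singleton.1 hm2
        have : p < q := by
          by_contra hcon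
          exact hz0 p (not_lt.1 hcon) hp2 hp3
        exact hm1.mono le_rfl (by omega)
      have i8 := ih (S.erase z) s q (by omega) h8
      rw [hc, hN, Nat.add_sub_cancel] at i8
      have h9 := cnt_erase (w := w) hz s q
      have h10 := occ_pos (hq3 z hz)
      have e1 : 2 * ((j + 1 + 2) * (N + 1)) = 2 * ((j + 2) * N) + 2 * (N + 1) + 2 * (j + 2) := by ring
      have e2 : (j + 1 + 1) * (j + 1) = (j + 1) * j + 2 * (j + 1) := by ring
      have e3 : 4 * ((j + 2) * N) = 2 * ((j + 2) * N) + 2 * N + (2 * j + 2) * N := by ring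
      have e4 : (2 * j + 2) * (j + 2) ≤ (2 * j + 2) * N := Nat.mul_le_mul_left _ (by omega)
      have e5 : (2 * j + 2) * (j + 2) = 2 * ((j + 1) * j) + 4 * (j + 1) := by ring
      have e6 : (j + 1) * j + j = j * (j + 2) := by ring
      nlinarith [h4, h6, h7, h9, h10, i2, i8]

/-- The lower bound for `g` for all `2 ≤ k ≤ n`. -/
theorem small_g {n k : ℕ} (hk : 2 ≤ k) (hkn : k ≤ n) :
    2 * (k * n) ≤ 2 * g n k + (k - 1) * (k - 2) + 2 := by
  obtain ⟨w, hw1, hw2⟩ := g_spec n k
  obtain ⟨j, rfl⟩ : ∃ j, k = j + 2 := ⟨k - 2, by omega⟩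
  have hn0 : 0 < n := by omega
  have hf := full_of_containsAll hkn ⟨0, hn0⟩ hw2
  have h1 := small_bound (w := fun p => w.getD p ⟨0, hn0⟩) j Finset.univ 0 w.length
    (by rw [Finset.card_univ, Fintype.card_fin]; exact hkn) (fun ρ hρ _ hl => hf ρ hρ hl.le)
  rw [Finset.card_univ, Fintype.card_fin] at h1
  have h2 : cnt (fun p => w.getD p ⟨0, hn0⟩) Finset.univ 0 w.length = w.length := by
    simp [cnt]
  rw [h2, hw1] at h1
  have h3 : (j + 2 - 1) * (j + 2 - 2) = (j + 1) * j := by simp
  omega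

end Pool.Agent.Lib.MP_9067ea_co
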