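import Mathlib
import Pool.Agent.Lib.MP_9067ea_co.Reduced
import Pool.Agent.Lib.MP_9067ea_co.Small

/-!
# The value of `g(n,k)` for `3 ≤ k ≤ 7`
-/

set_option autoImplicit false

namespace Pool.Agent.Lib.MP_9067ea_co.ExactSmallK

open Pool.Agent.Lib.MP_9067ea_co

set_option maxRecDepth 100000

lemma upper3 {n : ℕ} (hn : 3 ≤ n) : g n 3 ≤ 3 * (n - 2) + 4 := by
  have h := g_le_of_check (n := n) (k := 3) (m := 2) (by omega) [2,0,1,2,0,2,1]
    (by decide) (by decide +kernel)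
  have e1 : ([2,0,1,2,0,2,1] : List ℕ).countP (fun c => c ≠ 2) = 4 := by decide
  have e2 : ([2,0,1,2,0,2,1] : List ℕ).countP (fun c => c = 2) = 3 := by decide
  rw [e1, e2] at h
  omega

lemma upper4 {n : ℕ} (hn : 4 ≤ n) : g n 4 ≤ 4 * (n - 2) + 4 := by
  have h := g_le_of_check (n := n) (k := 4) (m := 3) (by omega) [3,1,2,0,3,1,2,3,0,1,3,2]
    (by decide) (by decide +kernel)
  have e1 : ([3,1,2,0,3,1,2,3,0,1,3,2] : List ℕ).countP (fun c => c ≠ 3) = 8 := by decide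
  have e2 : ([3,1,2,0,3,1,2,3,0,1,3,2] : List ℕ).countP (fun c => c = 3) = 4 := by decide
  rw [e1, e2] at h
  omega

lemma upper5 {n : ℕ} (hn : 5 ≤ n) : g n 5 ≤ 5 * (n - 2) + 4 := by
  have h := g_le_of_check (n := n) (k := 5) (m := 4) (by omega)
    [4,3,0,2,1,4,3,0,2,4,1,3,0,4,2,1,3,4,0] (by decide) (by decide +kernel)
  have e1 : ([4,3,0,2,1,4,3,0,2,4,1,3,0,4,2,1,3,4,0] : List ℕ).countP (fun c => c ≠ 4) = 14 := by
    decide
  have e2 : ([4,3,0,2,1,4,3,0,2,4,1,3,0,4,2,1,3,4,0] : List ℕ).countP (fun c => c = 4) = 5 := by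
    decide
  rw [e1, e2] at h
  omega

lemma upper6 {n : ℕ} (hn : 6 ≤ n) : g n 6 ≤ 6 * (n - 2) + 4 := by
  have h := g_le_of_check (n := n) (k := 6) (m := 5) (by omega)
    [5,2,4,0,1,3,5,2,4,0,1,5,3,2,4,0,5,1,2,3,4,5,0,1,2,5,3,4] (by decide) (by decide +kernel)
  have e1 : ([5,2,4,0,1,3,5,2,4,0,1,5,3,2,4,0,5,1,2,3,4,5,0,1,2,5,3,4] : List ℕ).countP
    (fun c => c ≠ 5) = 22 := by decide
  have e2 : ([5,2,4,0,1,3,5,2,4,0,1,5,3,2,4,0,5,1,2,3,4,5,0,1,2,5,3,4] : List ℕ).countP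
    (fun c => c = 5) = 6 := by decide
  rw [e1, e2] at h
  omega

lemma upper7 {n : ℕ} (hn : 7 ≤ n) : g n 7 ≤ 7 * (n - 2) + 4 := by
  have h := g_le_of_check (n := n) (k := 7) (m := 6) (by omega)
    [6,2,0,5,1,3,4,6,2,0,5,1,3,6,2,4,0,5,1,6,3,2,0,4,5,6,1,2,3,0,6,5,4,1,2,6,3,0,5]
    (by decide) (by decide +kernel)
  have e1 : ([6,2,0,5,1,3,4,6,2,0,5,1,3,6,2,4,0,5,1,6,3,2,0,4,5,6,1,2,3,0,6,5,4,1,2,6,3,0,5] :
    List ℕ).countP (fun c => c ≠ 6) = 32 := by decide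
  have e2 : ([6,2,0,5,1,3,4,6,2,0,5,1,3,6,2,4,0,5,1,6,3,2,0,4,5,6,1,2,3,0,6,5,4,1,2,6,3,0,5] :
    List ℕ).countP (fun c => c = 6) = 7 := by decide
  rw [e1, e2] at h
  omega

/-- `g(n,k) = k(n-2) + 4` for `k ∈ {3,4}` and all `n ≥ k`, and for `k ∈ {5,6,7}` and all
`n ≥ 5(k-1)`. -/
theorem result (n k : ℕ)
    (h : (3 ≤ k ∧ k ≤ 4 ∧ k ≤ n) ∨ (5 ≤ k ∧ k ≤ 7 ∧ 5 * (k - 1) ≤ n)) :
    g n k = k * (n - 2) + 4 := by
  rcases h with ⟨h1, h2, h3⟩ | ⟨h1, h2, h3⟩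
  · interval_cases k
    · have a := upper3 h3
      have b := small_g (n := n) (k := 3) (by norm_num) h3
      omega
    · have a := upper4 h3
      have b := small_g (n := n) (k := 4) (by norm_num) h3
      omega
  · interval_cases k
    · have a := upper5 (n := n) (by omega)
      have e : logSum 5 = 6 := by decide +kernel
      have b := le_g_add (n := n) (k := 5) (by norm_num) (by rw [e]; omega)
      rw [e] at b
      omega
    · have a := upper6 (n := n) (by omega)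
      have e : logSum 6 = 8 := by decide +kernel
      have b := le_g_add (n := n) (k := 6) (by norm_num) (by rw [e]; omega)
      rw [e] at b
      omega
    · have a := upper7 (n := n) (by omega)
      have e : logSum 7 = 10 := by decide +kernel
      have b := le_g_add (n := n) (k := 7) (by norm_num) (by rw [e]; omega)
      rw [e] at b
      omega

end Pool.Agent.Lib.MP_9067ea_co.ExactSmallK
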