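import Mathlib
import Pool.Agent.Lib.MP_9067ea_co.Def

/-!
# Frequent letters, and `g(n+1,k) ≥ g(n,k) + k`
-/

set_option autoImplicit false

namespace Pool.Agent.Lib.MP_9067ea_co

section frequent

variable {α : Type*} [DecidableEq α]

omit [DecidableEq α] in
lemma sublist_of_not_mem {a : α} {π l : List α} : ∀ u : List α, a ∉ u →
    (a :: π).Sublist (u ++ l) → (a :: π).Sublist l := by
  intro u
  induction u with
  | nil => intro _ h; simpa using h
  | cons b u ih =>
    intro hb h
    rw [List.mem_cons, not_or] at hb
    rw [List.cons_append] at h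
    cases h with
    | cons _ h => exact ih hb.2 h
    | cons_cons _ h => exact absurd rfl hb.1

lemma exists_list_of_mem {A : Finset α} {x : α} (hx : x ∈ A) {j : ℕ} (hj : j + 1 ≤ A.card) :
    ∃ π : List α, π.Nodup ∧ (∀ y ∈ π, y ∈ A) ∧ π.length = j + 1 ∧ x ∈ π := by
  refine ⟨x :: ((A.erase x).toList.take j), ?_, ?_, ?_, by simp⟩
  · rw [List.nodup_cons]
    refine ⟨fun h => ?_, ((A.erase x).nodup_toList).sublist (List.take_sublist _ _)⟩
    have := List.mem_of_mem_take h
    simp at this
  · intro y hy
    rcases List.mem_cons.1 hy with rfl | hy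
    · exact hx
    · have := List.mem_of_mem_take hy
      simp at this
      exact this.2
  · rw [List.length_cons, List.length_take, Finset.length_toList, Finset.card_erase_of_mem hx]
    omega

/-- If `w` contains all duplicate-free words of length `k+1` over `A` (with `|A| ≥ k+1`), then at
least `|A| - k` letters of `A` occur at least `k+1` times in `w`. -/
theorem exists_frequent : ∀ (k : ℕ) (A : Finset α) (w : List α), k + 1 ≤ A.card →
    (∀ π : List α, π.Nodup → (∀ y ∈ π, y ∈ A) → π.length = k + 1 → π.Sublist w) →
    ∃ B : Finset α, B ⊆ A ∧ A.card ≤ B.card + k ∧ ∀ x ∈ B, k + 1 ≤ w.count x := by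
  intro k
  induction k with
  | zero =>
    intro A w hA hw
    refine ⟨A, subset_rfl, le_rfl, fun x hx => ?_⟩
    have h1 : [x].Sublist w := hw [x] (by simp) (by simpa using hx) rfl
    have h2 := h1.count_le x
    simpa using h2
  | succ k ih =>
    intro A w hA hw
    have hmem : ∀ x ∈ A, x ∈ w := by
      intro x hx
      obtain ⟨π, h1, h2, h3, h4⟩ := exists_list_of_mem hx (j := k + 1) hA
      exact (hw π h1 h2 h3).subset h4
    have hne : A.Nonempty := Finset.card_pos.1 (by omega)
    obtain ⟨a, ha, hmax⟩ := Finset.exists_max_image A (fun x => w.idxOf x) hne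
    set p := w.idxOf a with hp
    have hpl : p < w.length := List.idxOf_lt_length_of_mem (hmem a ha)
    have hwp : w[p] = a := List.getElem_idxOf hpl
    have hsplit : w = w.take p ++ a :: w.drop (p + 1) := by
      conv_lhs => rw [← List.take_append_drop p w]
      rw [← List.getElem_cons_drop hpl, hwp]
    have hau : a ∉ w.take p := by
      intro h
      obtain ⟨i, hi, hia⟩ := List.mem_iff_getElem.1 h
      rw [List.length_take] at hi
      rw [List.getElem_take] at hia
      have h1 : w.idxOf a ≤ i := by
        by_contra hcon
        push Not at hcon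
        have h5 := List.not_of_lt_findIdx hcon
        simp [hia] at h5
      omega
    have hu : ∀ x ∈ A, x ≠ a → x ∈ w.take p := by
      intro x hx hxa
      have h1 : w.idxOf x ≤ p := hmax x hx
      have h2 : w.idxOf x < w.length := List.idxOf_lt_length_of_mem (hmem x hx)
      have h3 : w[w.idxOf x] = x := List.getElem_idxOf h2
      have h4 : w.idxOf x ≠ p := by
        intro h
        apply hxa
        rw [← h3, ← hwp]
        congr 1
      rw [List.mem_iff_getElem]
      refine ⟨w.idxOf x, ?_, ?_⟩
      · rw [List.length_take]; omega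
      · rw [List.getElem_take]; exact h3
    have hv : ∀ π : List α, π.Nodup → (∀ y ∈ π, y ∈ A.erase a) → π.length = k + 1 →
        π.Sublist (w.drop (p + 1)) := by
      intro π h1 h2 h3
      have h4 : (a :: π).Sublist w := by
        apply hw
        · rw [List.nodup_cons]
          exact ⟨fun h => by simpa using h2 a h, h1⟩
        · intro y hy
          rcases List.mem_cons.1 hy with rfl | hy
          · exact ha
          · exact Finset.mem_of_mem_erase (h2 y hy)
        · simp [h3]
      rw [hsplit] at h4
      have h5 := sublist_of_not_mem _ hau h4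
      exact List.cons_sublist_cons.1 h5
    obtain ⟨B, hB1, hB2, hB3⟩ := ih (A.erase a) (w.drop (p + 1))
      (by rw [Finset.card_erase_of_mem ha]; omega) hv
    refine ⟨B, hB1.trans (Finset.erase_subset _ _), ?_, ?_⟩
    · rw [Finset.card_erase_of_mem ha] at hB2
      omega
    · intro x hx
      have hxA := hB1 hx
      have hxa : x ≠ a := Finset.ne_of_mem_erase hxA
      have h1 : 1 ≤ (w.take p).count x :=
        List.count_pos_iff.2 (hu x (Finset.mem_of_mem_erase hxA) hxa)
      have h2 := hB3 x hx
      have h3 : w.count x = (w.take p).count x + (a :: w.drop (p + 1)).count x := by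
        conv_lhs => rw [hsplit]
        rw [List.count_append]
      have h4 : (w.drop (p + 1)).count x ≤ (a :: w.drop (p + 1)).count x :=
        (List.sublist_cons_self a _).count_le x
      omega

end frequent

/-- In a word containing all `k`-permutations of `n` letters, `1 ≤ k ≤ n`, at least `n-k+1`
letters occur at least `k` times. -/
theorem frequent_letters {n k : ℕ} (hk : 1 ≤ k) (hkn : k ≤ n) {w : List (Fin n)}
    (hw : ContainsAll n k w) :
    n + 1 ≤ (Finset.univ.filter fun x : Fin n => k ≤ w.count x).card + k := by
  obtain ⟨j, rfl⟩ : ∃ j, k = j + 1 := ⟨k - 1, by omega⟩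
  obtain ⟨B, _, hB2, hB3⟩ := exists_frequent j (Finset.univ : Finset (Fin n)) w
    (by simpa using hkn) (fun π h1 _ h3 => hw π h1 h3)
  have h1 : B ⊆ Finset.univ.filter fun x : Fin n => j + 1 ≤ w.count x := by
    intro x hx
    exact Finset.mem_filter.2 ⟨Finset.mem_univ _, hB3 x hx⟩
  have h2 := Finset.card_le_card h1
  rw [Finset.card_univ, Fintype.card_fin] at hB2
  omega

/-- Removing one letter. -/
theorem containsAll_remove {n k : ℕ} (x : Fin (n + 1)) {w : List (Fin (n + 1))}
    (hw : ContainsAll (n + 1) k w) :
    ∃ w' : List (Fin n), ContainsAll n k w' ∧ w'.length + w.count x = w.length := by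
  classical
  rcases Nat.eq_zero_or_pos n with h0 | hn
  · -- no letters left
    subst h0
    refine ⟨[], ?_, ?_⟩
    · intro π hπ _
      have : π = [] := by
        cases π with
        | nil => rfl
        | cons a _ => exact a.elim0
      rw [this]
    · have hall : ∀ y ∈ w, y = x := fun y _ => Fin.ext (by omega)
      have : w.count x = w.length := by
        rw [List.count_eq_length]
        intro b hb
        exact (hall b hb).symm
      simp [this]
  · let f : Fin (n + 1) → Fin n := fun y => if h : ∃ i : Fin n, x.succAbove i = y then h.choose else ⟨0, hn⟩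
    have hf : ∀ i : Fin n, f (x.succAbove i) = i := by
      intro i
      have h : ∃ i' : Fin n, x.succAbove i' = x.succAbove i := ⟨i, rfl⟩
      simp only [f, dif_pos h]
      exact Fin.succAbove_right_injective h.choose_spec
    refine ⟨(w.filter (fun y => decide (y ≠ x))).map f, ?_, ?_⟩
    · intro π hπ hl
      have h1 := hw (π.map x.succAbove) (hπ.map Fin.succAbove_right_injective) (by simpa using hl)
      have h2 : (π.map x.succAbove).filter (fun y => decide (y ≠ x)) = π.map x.succAbove := by
        rw [List.filter_eq_self]
        intro y hy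
        obtain ⟨i, _, rfl⟩ := List.mem_map.1 hy
        simp [Fin.succAbove_ne]
      have h3 := (h1.filter (fun y => decide (y ≠ x)))
      rw [h2] at h3
      have h4 := h3.map f
      rw [List.map_map] at h4
      have h5 : π.map (f ∘ x.succAbove) = π := by
        conv_rhs => rw [← List.map_id π]
        apply List.map_congr_left
        intro i _
        exact hf i
      rwa [h5] at h4
    · rw [List.length_map]
      have h1 := List.length_eq_length_filter_add (l := w) (fun y => decide (y ≠ x))
      have h2 : (w.filter (fun y => !decide (y ≠ x))).length = w.count x := by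
        rw [List.count_eq_length_filter]
        congr 1
        apply List.filter_congr
        intro y _
        by_cases h : y = x <;> simp [h]
      omega

/-- **Monotonicity of the deficiency.** -/
theorem g_succ_ge {n k : ℕ} (hk : 1 ≤ k) (hkn : k ≤ n + 1) : g n k + k ≤ g (n + 1) k := by
  obtain ⟨w, hw1, hw2⟩ := g_spec (n + 1) k
  have h1 := frequent_letters hk hkn hw2
  have h2 : 0 < (Finset.univ.filter fun x : Fin (n + 1) => k ≤ w.count x).card := by omega
  obtain ⟨x, hx⟩ := Finset.card_pos.1 h2
  have hx' : k ≤ w.count x := (Finset.mem_filter.1 hx).2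
  obtain ⟨w', h3, h4⟩ := containsAll_remove x hw2
  have h5 := g_le h3
  omega

theorem g_add_mul_le {k : ℕ} (hk : 1 ≤ k) {m n : ℕ} (hm : k ≤ m + 1) (hmn : m ≤ n) :
    g m k + k * (n - m) ≤ g n k := by
  obtain ⟨d, rfl⟩ : ∃ d, n = m + d := ⟨n - m, by omega⟩
  rw [Nat.add_sub_cancel_left]
  clear hmn
  induction d with
  | zero => simp
  | succ d ih =>
    have h := g_succ_ge (n := m + d) hk (by omega)
    have e : k * (d + 1) = k * d + k := by ring
    rw [e]
    have e2 : m + (d + 1) = m + d + 1 := by ring
    rw [e2]
    omega

/-- The trivial upper bound. -/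
theorem g_le_mul (n k : ℕ) : g n k ≤ k * n := by
  suffices h : ∀ k, ∃ w : List (Fin n), w.length = k * n ∧
      ∀ π : List (Fin n), π.length = k → π.Sublist w by
    obtain ⟨w, hw1, hw⟩ := h k
    have := g_le (n := n) (k := k) (w := w) (fun π _ hl => hw π hl)
    omega
  intro k
  induction k with
  | zero =>
    exact ⟨[], by simp, fun π hπ => by rw [List.length_eq_zero_iff.1 hπ]⟩
  | succ k ih =>
    obtain ⟨w, hw1, hw⟩ := ih
    refine ⟨List.finRange n ++ w, ?_, fun π hπ => ?_⟩
    · rw [List.length_append, List.length_finRange, hw1]; ring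
    · obtain ⟨a, π', rfl⟩ : ∃ a π', π = a :: π' := by
        cases π with
        | nil => simp at hπ
        | cons a π' => exact ⟨a, π', rfl⟩
      have h1 : [a].Sublist (List.finRange n) := by simp
      have h2 : π'.Sublist w := hw π' (by simpa using hπ)
      exact h1.append h2

/-- For fixed `k` the deficiency `kn - g(n,k)` is eventually constant. -/
theorem exists_deficiency {k : ℕ} (hk : 1 ≤ k) : ∃ d N : ℕ, ∀ n, N ≤ n → g n k + d = k * n := by
  classical
  let D : ℕ → ℕ := fun n => k * n - g n k
  have hex : ∃ v, ∃ n, k ≤ n ∧ D n = v := ⟨D k, k, le_rfl, rfl⟩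
  obtain ⟨N, hN, hDN⟩ := Nat.find_spec hex
  refine ⟨Nat.find hex, N, fun n hn => ?_⟩
  have h1 : Nat.find hex ≤ D n := Nat.find_min' hex ⟨n, hN.trans hn, rfl⟩
  have h2 := g_add_mul_le hk (m := N) (n := n) (by omega) hn
  have h3 := g_le_mul N k
  have h4 := g_le_mul n k
  have h5 : k * n = k * N + k * (n - N) := by
    rw [← Nat.mul_add]; congr 1; omega
  have h6 : D n = k * n - g n k := rfl
  have h7 : D N = k * N - g N k := rfl
  omega

end Pool.Agent.Lib.MP_9067ea_co
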