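import Mathlib
import Pool.Agent.Lib.MP_9067ea_co.Mono

/-!
# `f(n) ≥ n² - 2 n √n`

Cut a word containing all permutations of `n` letters into `m` parts.  Call a family of disjoint
sets of letters `A_k` a *system* if every letter of `A_k` occurs fewer than `|A_k|` times in the
`k`-th part.  If all `A_k` were nonempty, then some ordering of each `A_k` would not be a
subsequence of the `k`-th part, and the concatenation of these orderings would not be a subsequence
of the word.  For a lexicographically extremal system some part `i` has `A_i = ∅`, and for every `j`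
at most `j - 1` letters outside the sets `A_k` with `|A_k| ≤ j` occur fewer than `j` times in
the `i`-th part, which is therefore long.
-/

set_option autoImplicit false

namespace Pool.Agent.Lib.MP_9067ea_co.Low

open Finset

section general

variable {α : Type*} [DecidableEq α]

/-- If every letter of `A` occurs fewer than `|A|` times in `u`, some ordering of letters of `A` is
not a subsequence of `u`. -/
lemma exists_bad {A : Finset α} {u : List α} (hA : A.Nonempty)
    (h : ∀ y ∈ A, u.count y < A.card) :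
    ∃ π : List α, π.Nodup ∧ (∀ y ∈ π, y ∈ A) ∧ ¬ π.Sublist u := by
  by_contra hcon
  push Not at hcon
  obtain ⟨k, hk⟩ : ∃ k, A.card = k + 1 := ⟨A.card - 1, by have := hA.card_pos; omega⟩
  obtain ⟨B, hB1, hB2, hB3⟩ := exists_frequent k A u (by omega) (fun π h1 h2 _ => hcon π h1 h2)
  have hB : B.Nonempty := by
    rw [← Finset.card_pos]; omega
  obtain ⟨x, hx⟩ := hB
  have h1 := h x (hB1 hx)
  have h2 := hB3 x hx
  omega

omit [DecidableEq α] in
/-- A concatenation of words, none of which is a subsequence of its part, is not a subsequence of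
the concatenation of the parts. -/
lemma not_sublist_flatten {πs ws : List (List α)}
    (h : List.Forall₂ (fun π u => ¬ List.Sublist π u) πs ws) :
    πs ≠ [] → ¬ πs.flatten.Sublist ws.flatten := by
  induction h with
  | nil => intro hne; exact absurd rfl hne
  | @cons π u πs ws hb h ih =>
    intro _ hs
    rw [List.flatten_cons, List.flatten_cons, List.sublist_append_iff] at hs
    obtain ⟨l1, l2, he, h1, h2⟩ := hs
    rcases List.append_eq_append_iff.1 he with ⟨a, ha1, ha2⟩ | ⟨c, hc1, hc2⟩
    · apply hb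
      refine List.Sublist.trans ?_ h1
      rw [ha1]
      exact List.sublist_append_left _ _
    · by_cases hπs : πs = []
      · subst hπs
        cases h
        simp only [List.flatten_nil, List.sublist_nil] at h2
        subst h2
        have hc : c = [] := by
          have := congrArg List.length hc2
          simp at this
          exact List.length_eq_zero_iff.1 this.symm
        apply hb
        rw [hc1, hc, List.append_nil]
        exact h1
      · apply ih hπs
        refine List.Sublist.trans ?_ h2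
        rw [hc2]
        exact List.sublist_append_right _ _

omit [DecidableEq α] in
/-- Cutting a word into `m` parts of length at most `ℓ`. -/
lemma exists_cut (m ℓ : ℕ) : ∀ w : List α, w.length ≤ m * ℓ →
    ∃ ws : Fin m → List α, (∀ i, (ws i).length ≤ ℓ) ∧ (List.ofFn ws).flatten = w := by
  induction m with
  | zero =>
    intro w hw
    have : w = [] := by
      rw [← List.length_eq_zero_iff]; simpa using hw
    exact ⟨Fin.elim0, fun i => i.elim0, by simp [this]⟩
  | succ m ih =>
    intro w hw
    obtain ⟨ws, h1, h2⟩ := ih (w.drop ℓ) (by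
      rw [List.length_drop]
      have : (m + 1) * ℓ = m * ℓ + ℓ := by ring
      omega)
    refine ⟨Fin.cons (w.take ℓ) ws, ?_, ?_⟩
    · intro i
      refine Fin.cases ?_ (fun i => ?_) i
      · simp
      · simpa using h1 i
    · rw [List.ofFn_succ]
      simp only [Fin.cons_zero, Fin.cons_succ, List.flatten_cons]
      rw [h2, List.take_append_drop]

/-- Pairwise disjoint sets `A k` all of whose letters occur fewer than `|A k|` times in the `k`-th
part. -/
def IsSys {m : ℕ} (ws : Fin m → List α) (A : Fin m → Finset α) : Prop :=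
  (∀ i j, i ≠ j → Disjoint (A i) (A j)) ∧ ∀ i, ∀ y ∈ A i, (ws i).count y < (A i).card

lemma exists_not_sublist {m : ℕ} (hm : 0 < m) {ws : Fin m → List α} {A : Fin m → Finset α}
    (hA : IsSys ws A) (hne : ∀ i, (A i).Nonempty) :
    ∃ π : List α, π.Nodup ∧ ¬ π.Sublist (List.ofFn ws).flatten := by
  choose π h1 h2 h3 using fun i => exists_bad (hne i) (hA.2 i)
  refine ⟨(List.ofFn π).flatten, ?_, ?_⟩
  · rw [List.nodup_flatten]
    refine ⟨?_, ?_⟩
    · intro l hl
      rw [List.mem_ofFn] at hl
      obtain ⟨i, rfl⟩ := hl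
      exact h1 i
    · rw [List.pairwise_ofFn]
      intro i j hij y hy1 hy2
      exact Finset.disjoint_left.1 (hA.1 i j hij.ne) (h2 i y hy1) (h2 j y hy2)
  · apply not_sublist_flatten
    · rw [List.forall₂_iff_get]
      refine ⟨by simp, ?_⟩
      intro i hi1 hi2
      simp only [List.get_eq_getElem, List.getElem_ofFn]
      exact h3 _
    · intro h
      have := congrArg List.length h
      simp at this
      omega

end general

section fin

variable {α : Type*} [DecidableEq α] [Fintype α]

/-- The weight of a system; maximal weight forces lexicographic extremality. -/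
def wt {m : ℕ} (A : Fin m → Finset α) : ℕ :=
  ∑ i, if (A i).Nonempty then (m + 1) ^ (Fintype.card α - (A i).card) else 0

/-- The extremal system. -/
lemma exists_row {m : ℕ} (ws : Fin m → List α)
    (hno : ∀ A : Fin m → Finset α, IsSys ws A → ∃ i, A i = ∅) :
    ∃ (i : Fin m) (A : Fin m → Finset α), A i = ∅ ∧ ∀ j, 1 ≤ j →
      (univ.filter (fun y => (ws i).count y < j ∧ ∀ k, (A k).card ≤ j → y ∉ A k)).card < j := by
  classical
  obtain ⟨A, hA, hmax⟩ := Finset.exists_max_image
    (univ.filter (fun A : Fin m → Finset α => IsSys ws A)) wt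
    ⟨fun _ => ∅, Finset.mem_filter.2 ⟨Finset.mem_univ _, fun _ _ _ => by simp, by simp⟩⟩
  rw [Finset.mem_filter] at hA
  obtain ⟨i, hi⟩ := hno A hA.2
  refine ⟨i, A, hi, ?_⟩
  intro j hj
  by_contra hcon
  push Not at hcon
  obtain ⟨A', hA'1, hA'2⟩ := Finset.exists_subset_card_eq hcon
  have hj2 : j ≤ Fintype.card α := by
    rw [← hA'2]; exact Finset.card_le_univ A'
  have hA'3 : ∀ y ∈ A', (ws i).count y < j ∧ ∀ k, (A k).card ≤ j → y ∉ A k := by
    intro y hy
    exact (Finset.mem_filter.1 (hA'1 hy)).2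
  let A2 : Fin m → Finset α := fun k => if k = i then A' else if (A k).card ≤ j then A k else ∅
  have hA2i : A2 i = A' := by simp [A2]
  have hA2k : ∀ k, k ≠ i → A2 k = if (A k).card ≤ j then A k else ∅ := by
    intro k hk
    simp [A2, hk]
  have hsub : ∀ k, k ≠ i → A2 k ⊆ A k := by
    intro k hk
    rw [hA2k k hk]
    split_ifs
    · exact subset_rfl
    · exact Finset.empty_subset _
  have hdis : ∀ k, k ≠ i → Disjoint A' (A2 k) := by
    intro k hk
    rw [Finset.disjoint_left]
    intro y hy hy2
    rw [hA2k k hk] at hy2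
    split_ifs at hy2 with h
    · exact (hA'3 y hy).2 k h hy2
    · simp at hy2
  have hsys : IsSys ws A2 := by
    constructor
    · intro k l hkl
      by_cases hk : k = i
      · subst hk
        rw [hA2i]
        exact hdis l (Ne.symm hkl)
      · by_cases hl : l = i
        · subst hl
          rw [hA2i]
          exact (hdis k hk).symm
        · exact (hA.2.1 k l hkl).mono (hsub k hk) (hsub l hl)
    · intro k y hy
      by_cases hk : k = i
      · subst hk
        rw [hA2i] at hy ⊢
        rw [hA'2]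
        exact (hA'3 y hy).1
      · have h1 := hA2k k hk
        rw [h1] at hy ⊢
        split_ifs at hy ⊢ with h
        · exact hA.2.2 k y hy
        · simp at hy
  have hle := hmax A2 (Finset.mem_filter.2 ⟨Finset.mem_univ _, hsys⟩)
  -- weights
  set c := Fintype.card α with hc
  have hw2 : wt A2 = (m + 1) ^ (c - j) + ∑ k ∈ univ.erase i,
      if (A2 k).Nonempty then (m + 1) ^ (c - (A2 k).card) else 0 := by
    rw [wt, ← Finset.add_sum_erase _ _ (Finset.mem_univ i)]
    congr 1
    have : (A2 i).Nonempty := by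
      rw [hA2i, ← Finset.card_pos]; omega
    rw [if_pos this, hA2i, hA'2]
  have hw1 : wt A = ∑ k ∈ univ.erase i,
      if (A k).Nonempty then (m + 1) ^ (c - (A k).card) else 0 := by
    rw [wt, ← Finset.add_sum_erase _ _ (Finset.mem_univ i), if_neg (by simp [hi]), zero_add]
  have hterm : ∀ k ∈ univ.erase i,
      (m + 1) * (if (A k).Nonempty then (m + 1) ^ (c - (A k).card) else 0) ≤
      (m + 1) * (if (A2 k).Nonempty then (m + 1) ^ (c - (A2 k).card) else 0) +
        (m + 1) ^ (c - j) := by
    intro k hk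
    have hk' : k ≠ i := Finset.ne_of_mem_erase hk
    rw [hA2k k hk']
    by_cases h : (A k).card ≤ j
    · rw [if_pos h]
      exact Nat.le_add_right _ _
    · rw [if_neg h]
      have hcA : (A k).card ≤ c := Finset.card_le_univ _
      have hne : (A k).Nonempty := by
        rw [← Finset.card_pos]; omega
      rw [if_pos hne]
      simp only [Finset.not_nonempty_empty, if_false, mul_zero, zero_add]
      rw [← pow_succ']
      exact Nat.pow_le_pow_right (by omega) (by omega)
  have hsum := Finset.sum_le_sum hterm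
  rw [← Finset.mul_sum, Finset.sum_add_distrib, ← Finset.mul_sum, ← hw1, Finset.sum_const,
    Finset.card_erase_of_mem (Finset.mem_univ i), Finset.card_univ, Fintype.card_fin,
    smul_eq_mul] at hsum
  set S2 := ∑ k ∈ univ.erase i, if (A2 k).Nonempty then (m + 1) ^ (c - (A2 k).card) else 0
  have hP : 0 < (m + 1) ^ (c - j) := Nat.pow_pos (by omega)
  have hm1 : 0 < m := i.pos
  have h3 : (m + 1) * wt A2 ≤ (m + 1) * S2 + (m - 1) * (m + 1) ^ (c - j) :=
    le_trans (Nat.mul_le_mul_left _ hle) hsum
  rw [hw2] at h3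
  have h4 : (m + 1) * ((m + 1) ^ (c - j) + S2) = (m + 1) * S2 + (m + 1) * (m + 1) ^ (c - j) := by
    ring
  rw [h4] at h3
  have h5 : (m + 1) * (m + 1) ^ (c - j) ≤ (m - 1) * (m + 1) ^ (c - j) := by omega
  have h6 := Nat.le_of_mul_le_mul_right h5 hP
  omega

/-- The inequality for one part. -/
lemma row_bound {m : ℕ} {ws : Fin m → List α} {i : Fin m} {A : Fin m → Finset α} (hi : A i = ∅)
    (hrow : ∀ j, 1 ≤ j →
      (univ.filter (fun y => (ws i).count y < j ∧ ∀ k, (A k).card ≤ j → y ∉ A k)).card < j)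
    (J : ℕ) :
    4 * (J * Fintype.card α) ≤ 4 * (ws i).length + 2 * (J * (J - 1)) + (m - 1) * (J + 1) ^ 2 := by
  classical
  set c := Fintype.card α with hc
  -- levels
  have hlevel : ∀ j ∈ Finset.Icc 1 J, c ≤ (univ.filter (fun y => j ≤ (ws i).count y)).card +
      (j - 1) + ∑ k, if (A k).card ≤ j then (A k).card else 0 := by
    intro j hj
    rw [Finset.mem_Icc] at hj
    have h1 : (univ : Finset α) ⊆ (univ.filter (fun y => j ≤ (ws i).count y)) ∪
        (univ.filter (fun y => (ws i).count y < j ∧ ∀ k, (A k).card ≤ j → y ∉ A k)) ∪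
        (univ : Finset (Fin m)).biUnion (fun k => if (A k).card ≤ j then A k else ∅) := by
      intro y _
      simp only [Finset.mem_union, Finset.mem_filter, Finset.mem_univ, true_and,
        Finset.mem_biUnion]
      by_cases h2 : j ≤ (ws i).count y
      · exact Or.inl (Or.inl h2)
      · by_cases h3 : ∀ k, (A k).card ≤ j → y ∉ A k
        · exact Or.inl (Or.inr ⟨by omega, h3⟩)
        · push Not at h3
          obtain ⟨k, hk1, hk2⟩ := h3
          exact Or.inr ⟨k, by rw [if_pos hk1]; exact hk2⟩
    have h2 := Finset.card_le_card h1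
    have h3 := (Finset.card_union_le ((univ.filter (fun y => j ≤ (ws i).count y)) ∪
        (univ.filter (fun y => (ws i).count y < j ∧ ∀ k, (A k).card ≤ j → y ∉ A k)))
        ((univ : Finset (Fin m)).biUnion (fun k => if (A k).card ≤ j then A k else ∅)))
    have h4 := (Finset.card_union_le (univ.filter (fun y => j ≤ (ws i).count y))
        (univ.filter (fun y => (ws i).count y < j ∧ ∀ k, (A k).card ≤ j → y ∉ A k)))
    have h5 := hrow j hj.1
    have h6 : ((univ : Finset (Fin m)).biUnion (fun k => if (A k).card ≤ j then A k else ∅)).card ≤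
        ∑ k, if (A k).card ≤ j then (A k).card else 0 := by
      refine Finset.card_biUnion_le.trans (Finset.sum_le_sum fun k _ => ?_)
      split_ifs <;> simp
    rw [Finset.card_univ] at h2
    omega
  have hsum := Finset.sum_le_sum hlevel
  rw [Finset.sum_const, Nat.card_Icc, Finset.sum_add_distrib, Finset.sum_add_distrib,
    smul_eq_mul] at hsum
  -- the counts
  have hcount : ∑ j ∈ Finset.Icc 1 J, (univ.filter (fun y => j ≤ (ws i).count y)).card ≤
      (ws i).length := by
    have h1 : ∀ j ∈ Finset.Icc 1 J, (univ.filter (fun y => j ≤ (ws i).count y)).card =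
        ∑ y : α, if j ≤ (ws i).count y then 1 else 0 := by
      intro j _
      rw [Finset.card_filter]
    rw [Finset.sum_congr rfl h1, Finset.sum_comm]
    have h2 : ∀ y ∈ (univ : Finset α), (∑ j ∈ Finset.Icc 1 J, if j ≤ (ws i).count y then 1 else 0) ≤
        (ws i).count y := by
      intro y _
      rw [← Finset.card_filter]
      have : (Finset.Icc 1 J).filter (fun j => j ≤ (ws i).count y) ⊆
          Finset.Icc 1 ((ws i).count y) := by
        intro j hj
        rw [Finset.mem_filter, Finset.mem_Icc] at hj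
        rw [Finset.mem_Icc]
        exact ⟨hj.1.1, hj.2⟩
      refine (Finset.card_le_card this).trans ?_
      rw [Nat.card_Icc]; omega
    refine (Finset.sum_le_sum h2).trans ?_
    have h3 : ∑ y : α, (ws i).count y = (ws i).length := by
      have h4 := Multiset.toFinset_sum_count_eq (ws i : Multiset α)
      rw [Multiset.coe_card] at h4
      rw [← h4]
      symm
      apply Finset.sum_subset_zero_on_sdiff (Finset.subset_univ _)
      · intro y hy
        rw [Finset.mem_sdiff, Multiset.mem_toFinset, Multiset.mem_coe] at hy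
        exact List.count_eq_zero.2 hy.2
      · intro y _
        simp
    exact h3.le
  -- the sum of `j - 1`
  have hj1 : 2 * ∑ j ∈ Finset.Icc 1 J, (j - 1) = J * (J - 1) := by
    have h1 : ∑ j ∈ Finset.Icc 1 J, (j - 1) = ∑ j ∈ Finset.range J, j := by
      rw [Finset.range_eq_Ico, Finset.sum_Ico_eq_sum_range]
      have : Finset.Icc 1 J = Finset.Ico 1 (J + 1) := by
        ext x; simp only [Finset.mem_Icc, Finset.mem_Ico]; omega
      rw [this, Finset.sum_Ico_eq_sum_range]
      simp
    rw [h1, mul_comm, Finset.sum_range_id_mul_two]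
  -- the sets
  have hsets : 4 * ∑ j ∈ Finset.Icc 1 J, ∑ k, (if (A k).card ≤ j then (A k).card else 0) ≤
      (m - 1) * (J + 1) ^ 2 := by
    rw [Finset.sum_comm, Finset.mul_sum, ← Finset.add_sum_erase _ _ (Finset.mem_univ i)]
    have h0 : 4 * ∑ j ∈ Finset.Icc 1 J, (if (A i).card ≤ j then (A i).card else 0) = 0 := by
      simp [hi]
    rw [h0, zero_add]
    have h1 : ∀ k ∈ univ.erase i, 4 * ∑ j ∈ Finset.Icc 1 J,
        (if (A k).card ≤ j then (A k).card else 0) ≤ (J + 1) ^ 2 := by
      intro k _
      set t := (A k).card with ht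
      rcases Nat.eq_zero_or_pos t with h0 | hpos
      · simp [h0]
      have h2 : ∑ j ∈ Finset.Icc 1 J, (if t ≤ j then t else 0) = (J + 1 - t) * t := by
        rw [← Finset.sum_filter, Finset.sum_const, smul_eq_mul]
        congr 1
        have : (Finset.Icc 1 J).filter (fun j => t ≤ j) = Finset.Icc t J := by
          ext x; simp only [Finset.mem_filter, Finset.mem_Icc]; omega
        rw [this, Nat.card_Icc]
      rw [h2]
      rcases Nat.le_total t (J + 1) with h3 | h3
      · obtain ⟨s, hs⟩ := Nat.exists_eq_add_of_le h3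
        rw [hs, Nat.add_sub_cancel_left]
        nlinarith [sq_nonneg ((t : ℤ) - s), Nat.zero_le s, sq_nonneg ((t : ℤ) + s),
          four_mul_le_sq_add t s, mul_comm s t]
      · rw [Nat.sub_eq_zero_of_le h3]; simp
    refine (Finset.sum_le_sum h1).trans ?_
    rw [Finset.sum_const, Finset.card_erase_of_mem (Finset.mem_univ i), Finset.card_univ,
      Fintype.card_fin, smul_eq_mul]
  have h7 : J + 1 - 1 = J := by omega
  rw [h7] at hsum
  have h8 : 4 * (J * c) ≤ 4 * (∑ j ∈ Finset.Icc 1 J, (univ.filter (fun y => j ≤ (ws i).count y)).card +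
      ∑ j ∈ Finset.Icc 1 J, (j - 1) +
      ∑ j ∈ Finset.Icc 1 J, ∑ k, (if (A k).card ≤ j then (A k).card else 0)) :=
    Nat.mul_le_mul_left 4 hsum
  omega

/-- If `w` contains every duplicate-free word, then it is long. -/
theorem length_bound {w : List α} (hw : ∀ π : List α, π.Nodup → π.Sublist w) {m : ℕ} (hm : 0 < m)
    (J : ℕ) :
    4 * (m * (J * Fintype.card α)) ≤ 4 * (w.length + (m - 1)) +
      m * (2 * (J * (J - 1)) + (m - 1) * (J + 1) ^ 2) := by
  classical
  set ℓ := (w.length + (m - 1)) / m with hℓ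
  have hℓ1 : w.length ≤ m * ℓ := by
    have h1 := Nat.div_add_mod (w.length + (m - 1)) m
    have h2 := Nat.mod_lt (w.length + (m - 1)) hm
    rw [← hℓ] at h1
    omega
  have hℓ2 : m * ℓ ≤ w.length + (m - 1) := Nat.mul_div_le _ _
  obtain ⟨ws, h1, h2⟩ := exists_cut m ℓ w hℓ1
  obtain ⟨i, A, hi, hrow⟩ := exists_row ws (by
    intro A hA
    by_contra hcon
    push Not at hcon
    obtain ⟨π, hπ1, hπ2⟩ := exists_not_sublist hm hA hcon
    rw [h2] at hπ2
    exact hπ2 (hw π hπ1))
  have h3 := row_bound hi hrow J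
  have h4 := h1 i
  have h5 : 4 * (J * Fintype.card α) ≤ 4 * ℓ + (2 * (J * (J - 1)) + (m - 1) * (J + 1) ^ 2) := by
    omega
  have h6 := Nat.mul_le_mul_left m h5
  have h7 : m * (4 * (J * Fintype.card α)) = 4 * (m * (J * Fintype.card α)) := by ring
  have h8 : m * (4 * ℓ + (2 * (J * (J - 1)) + (m - 1) * (J + 1) ^ 2)) =
      4 * (m * ℓ) + m * (2 * (J * (J - 1)) + (m - 1) * (J + 1) ^ 2) := by ring
  rw [h7, h8] at h6
  omega

end fin

/-- A word containing all permutations contains all duplicate-free words. -/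
lemma sublist_of_containsAll {n : ℕ} {w : List (Fin n)} (hw : ContainsAll n n w)
    {ρ : List (Fin n)} (hρ : ρ.Nodup) : ρ.Sublist w := by
  obtain ⟨σ, hσ1, hσ2, hσ3⟩ : ∃ σ : List (Fin n), σ.Nodup ∧ ρ.Sublist σ ∧ σ.length = n := by
    refine ⟨ρ ++ (univ \ ρ.toFinset).toList, ?_, List.sublist_append_left _ _, ?_⟩
    · rw [List.nodup_append]
      refine ⟨hρ, Finset.nodup_toList _, ?_⟩
      intro a ha b hb hab
      subst hab
      rw [Finset.mem_toList, Finset.mem_sdiff] at hb
      exact hb.2 (by simpa using ha)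
    · rw [List.length_append, Finset.length_toList, Finset.card_univ_sdiff,
        List.toFinset_card_of_nodup hρ, Fintype.card_fin]
      have := hρ.length_le_card
      rw [Fintype.card_fin] at this
      omega
  exact hσ2.trans (hw σ hσ1 hσ3)

/-- The bound for `f(n) = g(n,n)` with free parameters. -/
theorem g_self_bound (n : ℕ) {m : ℕ} (hm : 0 < m) (J : ℕ) :
    4 * (m * (J * n)) ≤ 4 * (g n n + (m - 1)) +
      m * (2 * (J * (J - 1)) + (m - 1) * (J + 1) ^ 2) := by
  obtain ⟨w, hw1, hw2⟩ := g_spec n n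
  have h := length_bound (fun π hπ => sublist_of_containsAll hw2 hπ) hm J
  rw [Fintype.card_fin, hw1] at h
  exact h

/-- `f(n) ≥ n² - 2 n √n`. -/
theorem le_g_self (n : ℕ) : (n : ℝ) ^ 2 - 2 * n * √n ≤ g n n := by
  set s := Nat.sqrt n with hs
  have hs1 : s * s ≤ n := Nat.sqrt_le n
  have hs2 : n < (s + 1) * (s + 1) := Nat.lt_succ_sqrt n
  have hx0 : 0 ≤ √(n : ℝ) := Real.sqrt_nonneg _
  have hxx : √(n : ℝ) * √n = n := Real.mul_self_sqrt (Nat.cast_nonneg n)
  have hg0 : (0 : ℝ) ≤ g n n := Nat.cast_nonneg _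
  rcases Nat.lt_or_ge s 2 with h2 | h2
  · -- small `n`
    have hn : n < 4 := by
      have : s + 1 ≤ 2 := by omega
      calc n < (s + 1) * (s + 1) := hs2
        _ ≤ 2 * 2 := Nat.mul_le_mul this this
    have hn' : (n : ℝ) ≤ 4 := by exact_mod_cast hn.le
    have hx2 : √(n : ℝ) ≤ 2 := by
      rw [show (2 : ℝ) = √4 by rw [show (4 : ℝ) = 2 ^ 2 by norm_num]; simp]
      exact Real.sqrt_le_sqrt hn'
    have h3 : (n : ℝ) ^ 2 ≤ 2 * n * √n := by
      have h4 : (n : ℝ) ^ 2 = n * (√n * √n) := by rw [hxx]; ring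
      rw [h4]
      nlinarith [mul_nonneg (Nat.cast_nonneg n : (0 : ℝ) ≤ n) hx0]
    linarith
  · obtain ⟨u, hu⟩ : ∃ u, s = u + 2 := ⟨s - 2, by omega⟩
    have hb := g_self_bound n (m := s - 1) (by omega) (2 * s)
    have e1 : s - 1 = u + 1 := by omega
    have e2 : s - 1 - 1 = u := by omega
    have e3 : 2 * s - 1 = 2 * u + 3 := by omega
    rw [e2, e1, e3, hu] at hb
    have hbR : (4 : ℝ) * ((u + 1) * (2 * (u + 2) * n)) ≤ 4 * (g n n + u) +
        (u + 1) * (2 * (2 * (u + 2) * (2 * u + 3)) + u * (2 * (u + 2) + 1) ^ 2) := by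
      exact_mod_cast hb
    have hs1R : ((u : ℝ) + 2) * (u + 2) ≤ n := by
      rw [hu] at hs1; exact_mod_cast hs1
    have hs2R : (n : ℝ) < ((u : ℝ) + 3) * (u + 3) := by
      rw [hu] at hs2
      have : n < (u + 3) * (u + 3) := hs2
      exact_mod_cast this
    set x := √(n : ℝ) with hx
    have hu0 : (0 : ℝ) ≤ u := Nat.cast_nonneg u
    have hxl : (u : ℝ) + 2 ≤ x := by
      rw [hx]
      apply Real.le_sqrt_of_sq_le
      nlinarith
    have hxu : x ≤ (u : ℝ) + 3 := by
      rw [hx]
      rw [show (u : ℝ) + 3 = √(((u : ℝ) + 3) * (u + 3)) by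
        rw [Real.sqrt_mul_self (by linarith)]]
      exact Real.sqrt_le_sqrt hs2R.le
    obtain ⟨δ, hδ⟩ : ∃ δ, x = (u : ℝ) + 2 + δ := ⟨x - (u + 2), by ring⟩
    have hδ0 : 0 ≤ δ := by linarith
    have hδ1 : δ ≤ 1 := by linarith
    have hn : (n : ℝ) = x * x := hxx.symm
    rw [hn] at hbR ⊢
    rw [hδ] at hbR ⊢
    have key : 0 ≤ -(4 * δ ^ 2 * (u + 2) ^ 2) - 4 * δ ^ 3 * (u + 2) - δ ^ 4 + 2 * δ * (u + 2) ^ 2 +
        4 * δ ^ 2 * (u + 2) + 2 * δ ^ 3 + (15 / 4 * (u + 2) ^ 2 - 13 / 4 * (u + 2) + 3 / 2) := by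
      have h1 : 0 ≤ (1 - δ) * δ := mul_nonneg (by linarith) hδ0
      have h2 : 0 ≤ (1 - δ) * δ * (u + 2) ^ 2 := mul_nonneg h1 (by positivity)
      have h3 : 0 ≤ (1 - δ) * δ ^ 2 * (u + 2) := by
        have : 0 ≤ (1 - δ) * δ * (δ * (u + 2)) := mul_nonneg h1 (by positivity)
        nlinarith
      have h4 : 0 ≤ δ ^ 3 * (2 - δ) := mul_nonneg (by positivity) (by linarith)
      have h5 : 0 ≤ (1 - δ) * (u + 2) ^ 2 := mul_nonneg (by linarith) (by positivity)
      nlinarith [h2, h3, h4, h5, hu0, mul_nonneg hu0 hu0]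
    nlinarith [key, hbR]

/-- **Lower bound.** `g(n,k) ≥ k n - 2 k √k` for all `1 ≤ k ≤ n`. -/
theorem le_g {n k : ℕ} (hk : 1 ≤ k) (hkn : k ≤ n) : (k : ℝ) * n - 2 * k * √k ≤ g n k := by
  have h1 := g_add_mul_le (k := k) hk (m := k) (n := n) (by omega) hkn
  have h2 := le_g_self k
  obtain ⟨d, rfl⟩ : ∃ d, n = k + d := ⟨n - k, by omega⟩
  rw [Nat.add_sub_cancel_left] at h1
  have h3 : (g k k : ℝ) + k * d ≤ g (k + d) k := by exact_mod_cast h1
  push_cast
  nlinarith

end Pool.Agent.Lib.MP_9067ea_co.Low
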