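import Mathlib

/-!
# Superlinear saving: programs

A *program* over a finite set `D` of letters prescribes, for every row `t`, which letters are
missing from the row, which letters are *parked* (present, but after everything else), and the
location `at a` of the other letters; moreover it has *markers* `mrk t 1 < mrk t 2 < ...`.
-/

set_option autoImplicit false
set_option linter.unusedSectionVars false

namespace Pool.Agent.Lib.MP_9067ea_co.Sup

/-- The place of a letter in a row. -/
inductive Loc where
  | miss : Loc
  | park : Loc
  | at (a : ℕ) : Loc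
  deriving DecidableEq

/-- A program over the letters `D`. -/
structure Prog (D : Type) where
  loc : ℕ → D → Loc
  mrk : ℕ → ℕ → ℕ

variable {D : Type} [DecidableEq D]

/-- `Reach P m c t Q x`: some path of class `c` arrives in row `t` at the letter `x`, having used
the letters of `Q`. A path of class `0` starts at a missing letter, a path of class `c ≥ 1` starts
at the marker `c`. -/
inductive Reach (P : Prog D) (m : ℕ) : ℕ → ℕ → Finset D → D → Prop
  | fresh (t : ℕ) (y : D) (h : P.loc t y = Loc.miss) : Reach P m 0 (t + 1) {y} y
  | mark (c t : ℕ) (y : D) (b : ℕ) (h1 : 1 ≤ c) (h2 : c ≤ m) (h3 : P.loc t y = Loc.at b)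
      (h4 : b ≤ P.mrk t c) : Reach P m c (t + 1) {y} y
  | step (c t : ℕ) (Q : Finset D) (x y : D) (a b : ℕ) (h : Reach P m c t Q x)
      (hx : P.loc t x = Loc.at a) (hy : P.loc t y = Loc.at b) (hab : b ≤ a) (hyQ : y ∉ Q) :
      Reach P m c (t + 1) (insert y Q) y

/-- Validity of a program of length `T` with `m` markers. -/
structure Valid (P : Prog D) (m T : ℕ) : Prop where
  mono : ∀ t, t < T → ∀ c c', 1 ≤ c → c < c' → c' ≤ m → P.mrk t c < P.mrk t c'
  present : ∀ c t Q x, Reach P m c t Q x → t < T → ∃ a, P.loc t x = Loc.at a
  below : ∀ c t Q x a, Reach P m c t Q x → t < T → P.loc t x = Loc.at a → c < m →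
    a < P.mrk t (c + 1)
  final : ∀ c Q x, ¬ Reach P m c T Q x

/-- The reward: the total number of missing letters in the rows before `T`. -/
def rew [Fintype D] (P : Prog D) (T : ℕ) : ℕ :=
  ∑ t ∈ Finset.range T, (Finset.univ.filter (fun y => P.loc t y = Loc.miss)).card

lemma Reach.pos {P : Prog D} {m c t : ℕ} {Q : Finset D} {x : D} (h : Reach P m c t Q x) :
    1 ≤ t := by
  cases h <;> omega

lemma Reach.class_le {P : Prog D} {m c t : ℕ} {Q : Finset D} {x : D} (h : Reach P m c t Q x) :
    c ≤ m := by
  induction h with
  | fresh => omega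
  | mark => assumption
  | step => assumption

lemma Reach.mem {P : Prog D} {m c t : ℕ} {Q : Finset D} {x : D} (h : Reach P m c t Q x) :
    x ∈ Q := by
  cases h <;> simp

/-- Only the rows before `t` matter for reaching row `t`. -/
lemma Reach.congr {P P' : Prog D} {m c t : ℕ} {Q : Finset D} {x : D} (h : Reach P m c t Q x)
    (hloc : ∀ t', t' < t → P'.loc t' = P.loc t') (hmk : ∀ t', t' < t → P'.mrk t' = P.mrk t') :
    Reach P' m c t Q x := by
  induction h with
  | fresh t y h => exact Reach.fresh t y (by rw [hloc t (by omega)]; exact h)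
  | mark c t y b h1 h2 h3 h4 =>
    exact Reach.mark c t y b h1 h2 (by rw [hloc t (by omega)]; exact h3)
      (by rw [hmk t (by omega)]; exact h4)
  | step c t Q x y a b h hx hy hab hyQ ih =>
    refine Reach.step c t Q x y a b (ih (fun t' ht' => hloc t' (by omega))
      (fun t' ht' => hmk t' (by omega))) ?_ ?_ hab hyQ
    · rw [hloc t (by omega)]; exact hx
    · rw [hloc t (by omega)]; exact hy

/-- Extension of a program by rows in which everything is parked. -/
def pad (P : Prog D) (T : ℕ) : Prog D where
  loc t x := if t < T then P.loc t x else Loc.park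
  mrk t c := if t < T then P.mrk t c else c

lemma pad_reach_le {P : Prog D} {m T c t : ℕ} {Q : Finset D} {x : D} (ht : t ≤ T)
    (h : Reach (pad P T) m c t Q x) : Reach P m c t Q x := by
  apply h.congr
  · intro t' ht'
    funext y
    simp [pad, show t' < T by omega]
  · intro t' ht'
    funext y
    simp [pad, show t' < T by omega]

lemma pad_not_reach {P : Prog D} {m T : ℕ} (hP : Valid P m T) :
    ∀ c t Q x, T ≤ t → ¬ Reach (pad P T) m c t Q x := by
  intro c t Q x ht h
  rcases Nat.eq_or_lt_of_le ht with h1 | h1
  · subst h1
    exact hP.final c Q x (pad_reach_le le_rfl h)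
  · cases h with
    | fresh t y h => simp [pad, show ¬ t < T by omega] at h
    | mark c t y b h1 h2 h3 h4 => simp [pad, show ¬ t < T by omega] at h3
    | step c t Q x y a b h hx hy hab hyQ => simp [pad, show ¬ t < T by omega] at hx

lemma pad_valid {P : Prog D} {m T T' : ℕ} (hP : Valid P m T) (hT : T ≤ T') :
    Valid (pad P T) m T' where
  mono := by
    intro t ht c c' h1 h2 h3
    by_cases h : t < T
    · simpa [pad, h] using hP.mono t h c c' h1 h2 h3
    · simpa [pad, h] using h2
  present := by
    intro c t Q x h ht
    by_cases h1 : t < T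
    · have := hP.present c t Q x (pad_reach_le h1.le h) h1
      simpa [pad, h1] using this
    · exact absurd h (pad_not_reach hP c t Q x (by omega))
  below := by
    intro c t Q x a h ht hx hc
    by_cases h1 : t < T
    · have := hP.below c t Q x a (pad_reach_le h1.le h) h1 (by simpa [pad, h1] using hx) hc
      simpa [pad, h1] using this
    · exact absurd h (pad_not_reach hP c t Q x (by omega))
  final := by
    intro c Q x h
    exact pad_not_reach hP c T' Q x hT h

lemma pad_rew [Fintype D] (P : Prog D) {T T' : ℕ} (hT : T ≤ T') :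
    rew (pad P T) T' = rew P T := by
  obtain ⟨d, rfl⟩ := Nat.exists_eq_add_of_le hT
  unfold rew
  rw [Finset.sum_range_add]
  have h2 : ∀ t ∈ Finset.range d,
      (Finset.univ.filter (fun y => (pad P T).loc (T + t) y = Loc.miss)).card = 0 := by
    intro t _
    simp [pad]
  rw [Finset.sum_eq_zero h2, add_zero]
  apply Finset.sum_congr rfl
  intro t ht
  rw [Finset.mem_range] at ht
  simp [pad, ht]

end Pool.Agent.Lib.MP_9067ea_co.Sup
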