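import Mathlib
import Pool.Agent.Lib.MP_9067ea_co.SupProg

/-!
# Superlinear saving: the pipeline

From a program `G` of length `T` with `2 m + 1` markers over the letters `D` we build a program
with `m` markers over `D` and `m + 1` groups of `N` letters each, where `|D| + N ≤ T`.
It runs in stages of `T + 2` rows. In every stage one group is missing in one row, and `G` is run
once.
-/

set_option autoImplicit false

namespace Pool.Agent.Lib.MP_9067ea_co.Sup

/-- The age of the group `γ` in the stage `q`. -/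
def age (m q γ : ℕ) : ℕ := (q + (m - γ) + 1) % (m + 1)

lemma age_le (m q γ : ℕ) : age m q γ ≤ m := by
  have := Nat.mod_lt (q + (m - γ) + 1) (show 0 < m + 1 by omega)
  unfold age
  omega

lemma age_inj {m q γ γ' : ℕ} (h1 : γ ≤ m) (h2 : γ' ≤ m) (h : age m q γ = age m q γ') :
    γ = γ' := by
  unfold age at h
  have h3 : (m - γ) ≡ (m - γ') [MOD (m + 1)] := by
    have h4 : q + (m - γ) + 1 ≡ q + (m - γ') + 1 [MOD (m + 1)] := h
    exact Nat.ModEq.add_left_cancel' q (Nat.ModEq.add_right_cancel' 1 h4)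
  have h5 : (m - γ) % (m + 1) = (m - γ') % (m + 1) := h3
  rw [Nat.mod_eq_of_lt (by omega), Nat.mod_eq_of_lt (by omega)] at h5
  omega

lemma age_succ {m q γ : ℕ} (h : age m q γ < m) : age m (q + 1) γ = age m q γ + 1 := by
  unfold age at *
  have h1 : q + 1 + (m - γ) + 1 = (q + (m - γ) + 1) + 1 := by ring
  rw [h1, Nat.add_mod, Nat.mod_eq_of_lt (a := 1) (by omega), Nat.mod_eq_of_lt]
  omega

lemma age_mod (m q : ℕ) : age m q (q % (m + 1)) = 0 := by
  unfold age
  have h0 := Nat.div_add_mod q (m + 1)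
  have h1 := Nat.mod_lt q (show 0 < m + 1 by omega)
  have h2 : q + (m - q % (m + 1)) + 1 = (m + 1) * (q / (m + 1) + 1) := by
    rw [Nat.mul_add, mul_one]
    omega
  rw [h2, Nat.mul_mod_right]

/-- The group `γ` is in use in the stage `q`. -/
def Act (m κ q γ : ℕ) : Prop := age m q γ ≤ q ∧ q < κ + age m q γ

instance (m κ q γ : ℕ) : Decidable (Act m κ q γ) := by unfold Act; infer_instance

lemma Act.succ {m κ q γ : ℕ} (h : Act m κ q γ) (h1 : age m q γ < m) : Act m κ (q + 1) γ := by
  unfold Act at *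
  rw [age_succ h1]
  omega

variable {D : Type} [DecidableEq D]

/-- The coordinates of the markers of `G` inside a stage. -/
def inMk (G : Prog D) (T r c : ℕ) : ℕ := if 1 ≤ r ∧ r ≤ T then G.mrk (r - 1) c else c

lemma inMk_lt {G : Prog D} {m T : ℕ} (hG : Valid G m T) {r c c' : ℕ} (h1 : 1 ≤ c) (h2 : c < c')
    (h3 : c' ≤ m) : inMk G T r c < inMk G T r c' := by
  unfold inMk
  split_ifs with h
  · exact hG.mono (r - 1) (by omega) c c' h1 h2 h3
  · exact h2

lemma inMk_le {G : Prog D} {m T : ℕ} (hG : Valid G m T) {r c c' : ℕ} (h1 : 1 ≤ c) (h2 : c ≤ c')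
    (h3 : c' ≤ m) : inMk G T r c ≤ inMk G T r c' := by
  rcases Nat.eq_or_lt_of_le h2 with h | h
  · rw [h]
  · exact (inMk_lt hG h1 h h3).le

lemma le_of_inMk_le {G : Prog D} {m T : ℕ} (hG : Valid G m T) {r c c' : ℕ} (h1 : 1 ≤ c')
    (h3 : c ≤ m) (h : inMk G T r c ≤ inMk G T r c') : c ≤ c' := by
  by_contra hcon
  have := inMk_lt hG (r := r) h1 (not_le.1 hcon) h3
  omega

/-- The location of a letter in the row `r` of the stage `q`. -/
def pipeLoc (G : Prog D) (m N T κ : ℕ) (q r : ℕ) : D ⊕ (Fin (m + 1) × Fin N) → Loc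
  | .inl d => if 1 ≤ r ∧ r ≤ T then G.loc (r - 1) d else Loc.park
  | .inr g => if Act m κ q g.1 then
      (if r = 0 ∧ age m q g.1 = 0 then Loc.miss else Loc.at (inMk G T r (2 * age m q g.1 + 1)))
      else Loc.park

omit [DecidableEq D] in
lemma pipeLoc_inl {G : Prog D} {m N T κ q r : ℕ} (d : D) :
    pipeLoc G m N T κ q r (Sum.inl d) =
      if 1 ≤ r ∧ r ≤ T then G.loc (r - 1) d else Loc.park := rfl

omit [DecidableEq D] in
lemma pipeLoc_inr {G : Prog D} {m N T κ q r : ℕ} (g : Fin (m + 1) × Fin N) :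
    pipeLoc G m N T κ q r (Sum.inr g) = if Act m κ q g.1 then
      (if r = 0 ∧ age m q g.1 = 0 then Loc.miss else Loc.at (inMk G T r (2 * age m q g.1 + 1)))
      else Loc.park := rfl

/-- The pipeline with `R` stages. -/
def pipe (G : Prog D) (m N T R : ℕ) : Prog (D ⊕ (Fin (m + 1) × Fin N)) where
  loc t x := pipeLoc G m N T (R - m) (t / (T + 2)) (t % (T + 2)) x
  mrk t c := inMk G T (t % (T + 2)) (2 * c)

/-- The letters of `Q` that belong to `D` or to the group `γ`. -/
def cnt {m N : ℕ} (γ : Fin (m + 1)) (Q : Finset (D ⊕ (Fin (m + 1) × Fin N))) : ℕ :=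
  (Q.filter (fun x => ∀ g, x = Sum.inr g → g.1 = γ)).card

lemma cnt_le [Fintype D] {m N : ℕ} (γ : Fin (m + 1)) (Q : Finset (D ⊕ (Fin (m + 1) × Fin N))) :
    cnt γ Q ≤ Fintype.card D + N := by
  have h1 : Fintype.card D + N = (Finset.univ : Finset (D ⊕ Fin N)).card := by simp
  rw [h1]
  unfold cnt
  apply Finset.card_le_card_of_injOn (fun x => Sum.map id Prod.snd x)
  · intro x _
    simp
  · intro x hx y hy hxy
    simp only [Finset.coe_filter, Set.mem_ofPred_eq] at hx hy
    rcases x with d | ⟨a, i⟩ <;> rcases y with d' | ⟨a', i'⟩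
    · simpa using hxy
    · simp at hxy
    · simp at hxy
    · simp only [Sum.map_inr, Sum.inr.injEq] at hxy
      have e1 := hx.2 (a, i) rfl
      have e2 := hy.2 (a', i') rfl
      simp only at e1 e2
      subst e1
      subst e2
      rw [hxy]

lemma cnt_insert {m N : ℕ} {γ : Fin (m + 1)} {Q : Finset (D ⊕ (Fin (m + 1) × Fin N))}
    {y : D ⊕ (Fin (m + 1) × Fin N)} (hy : y ∉ Q) (h : ∀ g, y = Sum.inr g → g.1 = γ) :
    cnt γ (insert y Q) = cnt γ Q + 1 := by
  unfold cnt
  rw [Finset.filter_insert, if_pos h, Finset.card_insert_of_notMem]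
  simp [hy]

/-- The invariant of the reachable positions of the pipeline. -/
def Inv (G : Prog D) (m N T κ c q r : ℕ) (Q : Finset (D ⊕ (Fin (m + 1) × Fin N))) :
    D ⊕ (Fin (m + 1) × Fin N) → Prop
  | .inl d => 2 ≤ r ∧ r ≤ T ∧ ∃ c' Q', Reach G (2 * m + 1) c' (r - 1) Q' d ∧
      (∀ y ∈ Q', Sum.inl y ∈ Q) ∧ (c' = 2 * c ∨ ∃ γ : Fin (m + 1), c' = 2 * age m q γ + 1 ∧
        age m q γ ≤ c ∧ (age m q γ = c → r ≤ cnt γ Q))
  | .inr g => age m q g.1 ≤ c ∧ Act m κ q g.1 ∧ (r = 0 → 1 ≤ age m q g.1) ∧
      (age m q g.1 = c → r ≤ cnt g.1 Q)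

lemma divmod_lt {t L : ℕ} (h : t % L + 1 < L) : (t + 1) / L = t / L ∧ (t + 1) % L = t % L + 1 := by
  have h0 := Nat.div_add_mod t L
  rw [Nat.div_mod_unique (by omega)]
  constructor
  · omega
  · exact h

lemma divmod_eq {t L : ℕ} (h : t % L + 1 = L) : (t + 1) / L = t / L + 1 ∧ (t + 1) % L = 0 := by
  have h0 := Nat.div_add_mod t L
  rw [Nat.div_mod_unique (by omega)]
  constructor
  · rw [Nat.mul_add]
    omega
  · omega

/-- Entering a group letter. -/
lemma inv_group [Fintype D] {G : Prog D} {m N T κ c t : ℕ} (hT : Fintype.card D + N ≤ T)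
    (hc : c ≤ m) {Q : Finset (D ⊕ (Fin (m + 1) × Fin N))} {g : Fin (m + 1) × Fin N}
    (h1 : age m (t / (T + 2)) g.1 ≤ c) (h2 : Act m κ (t / (T + 2)) g.1)
    (h3 : age m (t / (T + 2)) g.1 = c → t % (T + 2) + 1 ≤ cnt g.1 Q) :
    Inv G m N T κ c ((t + 1) / (T + 2)) ((t + 1) % (T + 2)) Q (Sum.inr g) := by
  have hr := Nat.mod_lt t (show 0 < T + 2 by omega)
  rcases Nat.lt_or_ge (t % (T + 2) + 1) (T + 2) with h | h
  · obtain ⟨e1, e2⟩ := divmod_lt h
    rw [e1, e2]
    refine ⟨h1, h2, by omega, ?_⟩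
    intro h4
    exact h3 h4
  · have h' : t % (T + 2) + 1 = T + 2 := by omega
    obtain ⟨e1, e2⟩ := divmod_eq h'
    rw [e1, e2]
    have h4 : age m (t / (T + 2)) g.1 < c := by
      rcases Nat.eq_or_lt_of_le h1 with h5 | h5
      · have h6 := h3 h5
        have h7 := cnt_le g.1 Q
        omega
      · exact h5
    have h5 : age m (t / (T + 2)) g.1 < m := by omega
    refine ⟨?_, h2.succ h5, ?_, ?_⟩
    · rw [age_succ h5]; omega
    · intro _; rw [age_succ h5]; omega
    · intro _; omega

/-- Entering a letter of `D`. -/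
lemma inv_letter {G : Prog D} {m N T κ c t c' : ℕ} (hG : Valid G (2 * m + 1) T)
    {Q : Finset (D ⊕ (Fin (m + 1) × Fin N))} {Q' : Finset D} {d : D}
    (hr1 : 1 ≤ t % (T + 2)) (hr2 : t % (T + 2) ≤ T)
    (h1 : Reach G (2 * m + 1) c' (t % (T + 2) - 1 + 1) Q' d) (h2 : ∀ y ∈ Q', Sum.inl y ∈ Q)
    (h3 : c' = 2 * c ∨ ∃ γ : Fin (m + 1), c' = 2 * age m (t / (T + 2)) γ + 1 ∧
        age m (t / (T + 2)) γ ≤ c ∧ (age m (t / (T + 2)) γ = c → t % (T + 2) + 1 ≤ cnt γ Q)) :
    Inv G m N T κ c ((t + 1) / (T + 2)) ((t + 1) % (T + 2)) Q (Sum.inl d) := by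
  have hrT : t % (T + 2) ≠ T := by
    intro h
    have h4 : t % (T + 2) - 1 + 1 = T := by omega
    rw [h4] at h1
    exact hG.final _ _ _ h1
  obtain ⟨e1, e2⟩ := divmod_lt (t := t) (L := T + 2) (by omega)
  rw [e1, e2]
  refine ⟨by omega, by omega, c', Q', ?_, h2, h3⟩
  have h5 : t % (T + 2) + 1 - 1 = t % (T + 2) - 1 + 1 := by omega
  rw [h5]
  exact h1

omit [DecidableEq D] in
lemma pipeLoc_inl_ne_park {G : Prog D} {m N T κ q r : ℕ} {d : D}
    (h : pipeLoc G m N T κ q r (Sum.inl d) ≠ Loc.park) :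
    1 ≤ r ∧ r ≤ T ∧ pipeLoc G m N T κ q r (Sum.inl d) = G.loc (r - 1) d := by
  rw [pipeLoc_inl] at h ⊢
  split_ifs at h ⊢ with h1
  · exact ⟨h1.1, h1.2, rfl⟩
  · exact absurd rfl h

omit [DecidableEq D] in
lemma pipeLoc_inr_at {G : Prog D} {m N T κ q r b : ℕ} {g : Fin (m + 1) × Fin N}
    (h : pipeLoc G m N T κ q r (Sum.inr g) = Loc.at b) :
    Act m κ q g.1 ∧ b = inMk G T r (2 * age m q g.1 + 1) := by
  rw [pipeLoc_inr] at h
  split_ifs at h with h1 h2
  simp only [Loc.at.injEq] at h
  exact ⟨h1, h.symm⟩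

omit [DecidableEq D] in
lemma pipeLoc_inr_miss {G : Prog D} {m N T κ q r : ℕ} {g : Fin (m + 1) × Fin N}
    (h : pipeLoc G m N T κ q r (Sum.inr g) = Loc.miss) :
    Act m κ q g.1 ∧ r = 0 ∧ age m q g.1 = 0 := by
  rw [pipeLoc_inr] at h
  split_ifs at h with h1 h2
  exact ⟨h1, h2.1, h2.2⟩

theorem inv [Fintype D] {G : Prog D} {m N T R : ℕ} (hG : Valid G (2 * m + 1) T)
    (hT : Fintype.card D + N ≤ T) {c t : ℕ} {Q : Finset (D ⊕ (Fin (m + 1) × Fin N))}
    {x : D ⊕ (Fin (m + 1) × Fin N)} (h : Reach (pipe G m N T R) m c t Q x) :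
    Inv G m N T (R - m) c (t / (T + 2)) (t % (T + 2)) Q x := by
  induction h with
  | fresh t y h =>
    change pipeLoc G m N T (R - m) (t / (T + 2)) (t % (T + 2)) y = Loc.miss at h
    rcases y with d | g
    · obtain ⟨h1, h2, h3⟩ := pipeLoc_inl_ne_park (by rw [h]; simp)
      rw [h] at h3
      exact inv_letter hG h1 h2 (Reach.fresh _ d h3.symm) (by simp) (Or.inl rfl)
    · obtain ⟨h1, h2, h3⟩ := pipeLoc_inr_miss h
      refine inv_group hT (Nat.zero_le _) h3.le h1 ?_
      intro _
      have h4 := cnt_insert (D := D) (γ := g.1) (Q := ∅) (y := Sum.inr g) (by simp)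
        (by rintro g' h'; simp only [Sum.inr.injEq] at h'; rw [h'])
      rw [insert_empty_eq] at h4
      omega
  | mark c t y b h1 h2 h3 h4 =>
    change pipeLoc G m N T (R - m) (t / (T + 2)) (t % (T + 2)) y = Loc.at b at h3
    change b ≤ inMk G T (t % (T + 2)) (2 * c) at h4
    rcases y with d | g
    · obtain ⟨g1, g2, g3⟩ := pipeLoc_inl_ne_park (by rw [h3]; simp)
      rw [h3] at g3
      refine inv_letter hG g1 g2 (Reach.mark (2 * c) _ d b (by omega) (by omega) g3.symm ?_)
        (by simp) (Or.inl rfl)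
      unfold inMk at h4
      rwa [if_pos ⟨g1, g2⟩] at h4
    · obtain ⟨g1, g2⟩ := pipeLoc_inr_at h3
      rw [g2] at h4
      have h5 := age_le m (t / (T + 2)) g.1
      have h6 := le_of_inMk_le hG (by omega) (by omega) h4
      exact inv_group hT h2 (by omega) g1 (by omega)
  | step c t Q x y a b h hx hy hab hyQ ih =>
    change pipeLoc G m N T (R - m) (t / (T + 2)) (t % (T + 2)) x = Loc.at a at hx
    change pipeLoc G m N T (R - m) (t / (T + 2)) (t % (T + 2)) y = Loc.at b at hy
    have hc := h.class_le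
    rcases y with d | g
    · obtain ⟨g1, g2, g3⟩ := pipeLoc_inl_ne_park (by rw [hy]; simp)
      rw [hy] at g3
      have hcnt : ∀ γ : Fin (m + 1), cnt γ (insert (Sum.inl d) Q) = cnt γ Q + 1 := by
        intro γ
        exact cnt_insert hyQ (by simp)
      rcases x with d' | g'
      · obtain ⟨i1, i2, c', Q', i3, i4, i5⟩ := ih
        obtain ⟨_, _, k3⟩ := pipeLoc_inl_ne_park (by rw [hx]; simp)
        rw [hx] at k3
        refine inv_letter hG g1 g2 (Reach.step c' _ Q' d' d a b i3 k3.symm g3.symm hab ?_) ?_ ?_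
        · intro hd
          exact hyQ (i4 d hd)
        · intro y hy'
          rw [Finset.mem_insert] at hy'
          rcases hy' with rfl | hy'
          · simp
          · exact Finset.mem_insert_of_mem (i4 y hy')
        · rcases i5 with i5 | ⟨γ, i5, i6, i7⟩
          · exact Or.inl i5
          · refine Or.inr ⟨γ, i5, i6, ?_⟩
            intro h8
            rw [hcnt]
            have := i7 h8
            omega
      · obtain ⟨i1, i2, i3, i4⟩ := ih
        obtain ⟨k1, k2⟩ := pipeLoc_inr_at hx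
        have h5 := age_le m (t / (T + 2)) g'.1
        refine inv_letter hG g1 g2 (Reach.mark (2 * age m (t / (T + 2)) g'.1 + 1) _ d b
          (by omega) (by omega) g3.symm ?_) (by simp) (Or.inr ⟨g'.1, rfl, i1, ?_⟩)
        · rw [k2] at hab
          unfold inMk at hab
          rwa [if_pos ⟨g1, g2⟩] at hab
        · intro h8
          rw [hcnt]
          have := i4 h8
          omega
    · obtain ⟨g1, g2⟩ := pipeLoc_inr_at hy
      have hage := age_le m (t / (T + 2)) g.1
      have hcnt : cnt g.1 (insert (Sum.inr g) Q) = cnt g.1 Q + 1 := by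
        apply cnt_insert hyQ
        rintro g' h'
        simp only [Sum.inr.injEq] at h'
        rw [h']
      have key : age m (t / (T + 2)) g.1 ≤ c ∧
          (age m (t / (T + 2)) g.1 = c → t % (T + 2) ≤ cnt g.1 Q) := by
        rcases x with d' | g'
        · obtain ⟨i1, i2, c', Q', i3, i4, i5⟩ := ih
          obtain ⟨k1', k2', k3⟩ := pipeLoc_inl_ne_park (by rw [hx]; simp)
          rw [hx] at k3
          have h6 : 2 * age m (t / (T + 2)) g.1 + 1 ≤ c' := by
            by_contra hcon
            have h7 := hG.below c' _ Q' d' a i3 (by omega) k3.symm (by omega)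
            have h8 : inMk G T (t % (T + 2)) (c' + 1) ≤
                inMk G T (t % (T + 2)) (2 * age m (t / (T + 2)) g.1 + 1) :=
              inMk_le hG (by omega) (by omega) (by omega)
            rw [g2] at hab
            unfold inMk at h8 hab
            rw [if_pos ⟨k1', k2'⟩] at h8 hab
            rw [if_pos ⟨k1', k2'⟩] at h8
            omega
          rcases i5 with i5 | ⟨γ, i5, i6, i7⟩
          · exact ⟨by omega, by omega⟩
          · refine ⟨by omega, ?_⟩
            intro h9
            have h10 : age m (t / (T + 2)) γ = c := by omega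
            have h11 : (γ : ℕ) = (g.1 : ℕ) :=
              age_inj (m := m) (q := t / (T + 2)) (by omega) (by omega) (by omega)
            have h12 : γ = g.1 := Fin.ext h11
            rw [← h12]
            exact i7 h10
        · obtain ⟨i1, i2, i3, i4⟩ := ih
          obtain ⟨k1, k2⟩ := pipeLoc_inr_at hx
          rw [g2, k2] at hab
          have h5 := age_le m (t / (T + 2)) g'.1
          have h6 := le_of_inMk_le hG (by omega) (by omega) hab
          refine ⟨by omega, ?_⟩
          intro h9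
          have h11 : (g'.1 : ℕ) = (g.1 : ℕ) :=
            age_inj (m := m) (q := t / (T + 2)) (by omega) (by omega) (by omega)
          have h12 : g'.1 = g.1 := Fin.ext h11
          rw [← h12]
          exact i4 (by omega)
      refine inv_group hT hc key.1 g1 ?_
      intro h9
      rw [hcnt]
      have := key.2 h9
      omega

theorem pipe_valid [Fintype D] {G : Prog D} {m N T : ℕ} (hG : Valid G (2 * m + 1) T)
    (hT : Fintype.card D + N ≤ T) (R : ℕ) : Valid (pipe G m N T R) m (R * (T + 2)) where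
  mono := by
    intro t _ c c' h1 h2 h3
    exact inMk_lt hG (by omega) (by omega) (by omega)
  present := by
    intro c t Q x h _
    have hi := inv hG hT h
    change ∃ a, pipeLoc G m N T (R - m) (t / (T + 2)) (t % (T + 2)) x = Loc.at a
    rcases x with d | g
    · obtain ⟨i1, i2, c', Q', i3, i4, i5⟩ := hi
      obtain ⟨a, ha⟩ := hG.present c' _ Q' d i3 (by omega)
      refine ⟨a, ?_⟩
      rw [pipeLoc_inl, if_pos ⟨by omega, i2⟩, ha]
    · obtain ⟨i1, i2, i3, i4⟩ := hi
      refine ⟨inMk G T (t % (T + 2)) (2 * age m (t / (T + 2)) g.1 + 1), ?_⟩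
      rw [pipeLoc_inr, if_pos i2, if_neg]
      rintro ⟨h1, h2⟩
      have := i3 h1
      omega
  below := by
    intro c t Q x a h _ hx hc
    have hi := inv hG hT h
    change pipeLoc G m N T (R - m) (t / (T + 2)) (t % (T + 2)) x = Loc.at a at hx
    change a < inMk G T (t % (T + 2)) (2 * (c + 1))
    rcases x with d | g
    · obtain ⟨i1, i2, c', Q', i3, i4, i5⟩ := hi
      obtain ⟨k1', k2', k3⟩ := pipeLoc_inl_ne_park (by rw [hx]; simp)
      rw [hx] at k3
      have hc' : c' ≤ 2 * c + 1 := by
        rcases i5 with i5 | ⟨γ, i5, i6, i7⟩ <;> omega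
      have h7 := hG.below c' _ Q' d a i3 (by omega) k3.symm (by omega)
      have h8 : inMk G T (t % (T + 2)) (c' + 1) ≤ inMk G T (t % (T + 2)) (2 * (c + 1)) :=
        inMk_le hG (by omega) (by omega) (by omega)
      refine lt_of_lt_of_le ?_ h8
      unfold inMk
      rw [if_pos ⟨k1', k2'⟩]
      exact h7
    · obtain ⟨i1, i2, i3, i4⟩ := hi
      obtain ⟨k1, k2⟩ := pipeLoc_inr_at hx
      rw [k2]
      exact inMk_lt hG (by omega) (by omega) (by omega)
  final := by
    intro c Q x h
    have hc := h.class_le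
    have hi := inv hG hT h
    have e1 : R * (T + 2) / (T + 2) = R := Nat.mul_div_cancel _ (by omega)
    have e2 : R * (T + 2) % (T + 2) = 0 := Nat.mul_mod_left _ _
    rw [e1, e2] at hi
    rcases x with d | g
    · obtain ⟨i1, _⟩ := hi
      omega
    · obtain ⟨i1, ⟨i2, i3⟩, _⟩ := hi
      omega

omit [DecidableEq D] in
lemma stage_rew [Fintype D] {G : Prog D} {m N T κ q : ℕ} :
    (if q < κ then N else 0) + rew G T ≤ ∑ r ∈ Finset.range (T + 2),
      (Finset.univ.filter (fun y => pipeLoc G m N T κ q r y = Loc.miss)).card := by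
  classical
  rw [Finset.sum_range_succ, Finset.sum_range_succ']
  have h1 : rew G T ≤ ∑ k ∈ Finset.range T,
      (Finset.univ.filter (fun y => pipeLoc G m N T κ q (k + 1) y = Loc.miss)).card := by
    unfold rew
    apply Finset.sum_le_sum
    intro t ht
    rw [Finset.mem_range] at ht
    apply Finset.card_le_card_of_injOn (fun d => Sum.inl d)
    · intro d hd
      simp only [Finset.coe_filter, Finset.mem_univ, true_and, Set.mem_ofPred_eq] at hd ⊢
      rw [pipeLoc_inl, if_pos ⟨by omega, by omega⟩, Nat.add_sub_cancel]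
      exact hd
    · intro d _ d' _ h
      simpa using h
  have h2 : (if q < κ then N else 0) ≤
      (Finset.univ.filter (fun y => pipeLoc G m N T κ q 0 y = Loc.miss)).card := by
    split_ifs with hq
    · have h3 : N = (Finset.univ : Finset (Fin N)).card := by simp
      conv_lhs => rw [h3]
      have hlt : q % (m + 1) < m + 1 := Nat.mod_lt q (by omega)
      apply Finset.card_le_card_of_injOn (fun i => Sum.inr (⟨q % (m + 1), hlt⟩, i))
      · intro i _
        simp only [Finset.coe_filter, Finset.mem_univ, true_and, Set.mem_ofPred_eq]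
        rw [pipeLoc_inr]
        have h4 : age m q (q % (m + 1)) = 0 := age_mod m q
        have h5 : Act m κ q (q % (m + 1)) := by
          unfold Act
          rw [h4]
          omega
        simp [h5, h4]
      · intro i _ i' _ h
        simpa using h
    · exact Nat.zero_le _
  omega

omit [DecidableEq D] in
lemma pipe_rew [Fintype D] {G : Prog D} {m N T : ℕ} (R : ℕ) :
    (R - m) * N + R * rew G T ≤ rew (pipe G m N T R) (R * (T + 2)) := by
  have key : ∀ R' ≤ R, (min R' (R - m)) * N + R' * rew G T ≤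
      rew (pipe G m N T R) (R' * (T + 2)) := by
    intro R' hR'
    induction R' with
    | zero => simp
    | succ R' ih =>
      have ih' := ih (by omega)
      have h1 : (R' + 1) * (T + 2) = R' * (T + 2) + (T + 2) := by ring
      rw [h1]
      unfold rew at ih' ⊢
      rw [Finset.sum_range_add]
      have h2 : ∑ x ∈ Finset.range (T + 2), (Finset.univ.filter
          (fun y => (pipe G m N T R).loc (R' * (T + 2) + x) y = Loc.miss)).card =
          ∑ r ∈ Finset.range (T + 2), (Finset.univ.filter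
          (fun y => pipeLoc G m N T (R - m) R' r y = Loc.miss)).card := by
        apply Finset.sum_congr rfl
        intro r hr
        rw [Finset.mem_range] at hr
        have e1 : (R' * (T + 2) + r) / (T + 2) = R' := by
          rw [mul_comm, Nat.mul_add_div (by omega), Nat.div_eq_of_lt hr, add_zero]
        have e2 : (R' * (T + 2) + r) % (T + 2) = r := by
          rw [mul_comm, Nat.mul_add_mod, Nat.mod_eq_of_lt hr]
        change (Finset.univ.filter (fun y => pipeLoc G m N T (R - m)
          ((R' * (T + 2) + r) / (T + 2)) ((R' * (T + 2) + r) % (T + 2)) y = Loc.miss)).card = _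
        rw [e1, e2]
      rw [h2]
      have h3 := stage_rew (G := G) (m := m) (N := N) (T := T) (κ := R - m) (q := R')
      have h4 : min (R' + 1) (R - m) * N = min R' (R - m) * N +
          (if R' < R - m then N else 0) := by
        split_ifs with h
        · rw [min_eq_left (by omega), min_eq_left (by omega)]
          ring
        · rw [min_eq_right (by omega), min_eq_right (by omega)]
          ring
      have h5 : (R' + 1) * ∑ t ∈ Finset.range T,
          (Finset.univ.filter (fun y => G.loc t y = Loc.miss)).card =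
          R' * ∑ t ∈ Finset.range T,
          (Finset.univ.filter (fun y => G.loc t y = Loc.miss)).card + rew G T := by
        unfold rew
        ring
      rw [h4, h5]
      unfold rew at h3 ⊢
      omega
  have h := key R le_rfl
  rwa [min_eq_right (by omega)] at h

end Pool.Agent.Lib.MP_9067ea_co.Sup
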