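import Mathlib
import Pool.Agent.Lib.MP_9067ea_co.Def
import Pool.Agent.Lib.MP_9067ea_co.SupProg

/-!
# Superlinear saving: from a program without markers to a word
-/

set_option autoImplicit false
set_option linter.unusedSectionVars false

namespace Pool.Agent.Lib.MP_9067ea_co.Sup

variable {D : Type} [DecidableEq D] [Fintype D]

/-- The sorting key of a letter in a row. -/
def key (P : Prog D) (t : ℕ) (x : D) : ℕ∞ :=
  match P.loc t x with
  | .miss => ⊤
  | .park => ⊤
  | .at a => a

/-- The row `t` as a list. -/
noncomputable def row (P : Prog D) (t : ℕ) : List D :=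
  ((Finset.univ.filter (fun x => P.loc t x ≠ Loc.miss)).toList).mergeSort
    (fun x y => decide (key P t x ≤ key P t y))

lemma mem_row {P : Prog D} {t : ℕ} {x : D} : x ∈ row P t ↔ P.loc t x ≠ Loc.miss := by
  unfold row
  rw [List.mem_mergeSort]
  simp

lemma row_nodup (P : Prog D) (t : ℕ) : (row P t).Nodup := by
  unfold row
  exact (List.mergeSort_perm _ _).nodup_iff.2 (Finset.nodup_toList _)

lemma row_length (P : Prog D) (t : ℕ) :
    (row P t).length + (Finset.univ.filter (fun x => P.loc t x = Loc.miss)).card =
      Fintype.card D := by
  unfold row
  rw [List.length_mergeSort, Finset.length_toList, add_comm]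
  exact Finset.card_filter_add_card_filter_not (s := Finset.univ) (fun x => P.loc t x = Loc.miss)

lemma row_pairwise (P : Prog D) (t : ℕ) :
    (row P t).Pairwise (fun x y => key P t x ≤ key P t y) := by
  unfold row
  have := List.pairwise_mergeSort (le := fun x y => decide (key P t x ≤ key P t y))
    (by
      intro a b c h1 h2
      simp only [decide_eq_true_eq] at *
      exact h1.trans h2)
    (by
      intro a b
      simp only [Bool.or_eq_true, decide_eq_true_eq]
      exact le_total _ _)
    ((Finset.univ.filter (fun x => P.loc t x ≠ Loc.miss)).toList)
  simpa using this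

/-- The other letters. -/
noncomputable def star {n : ℕ} (e : D ↪ Fin n) : List (Fin n) :=
  ((Finset.univ.map e)ᶜ : Finset (Fin n)).toList

lemma mem_star {n : ℕ} {e : D ↪ Fin n} {z : Fin n} (h : ∀ d, e d ≠ z) : z ∈ star e := by
  unfold star
  simp [h]

lemma star_length {n : ℕ} (e : D ↪ Fin n) : (star e).length + Fintype.card D = n := by
  unfold star
  rw [Finset.length_toList, Finset.card_compl, Finset.card_map, Fintype.card_fin, Finset.card_univ]
  have := Fintype.card_le_of_embedding e
  rw [Fintype.card_fin] at this
  omega

/-- The word before the row `i`. -/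
noncomputable def pre {n : ℕ} (P : Prog D) (e : D ↪ Fin n) : ℕ → List (Fin n)
  | 0 => []
  | i + 1 => pre P e i ++ ((row P i).map e ++ star e)

lemma pre_length {n : ℕ} (P : Prog D) (e : D ↪ Fin n) (i : ℕ) :
    (pre P e i).length + rew P i = i * n := by
  induction i with
  | zero => simp [pre, rew]
  | succ i ih =>
    unfold rew at ih ⊢
    rw [Finset.sum_range_succ]
    have h1 := row_length P i
    have h2 := star_length e
    simp only [pre, List.length_append, List.length_map]
    have h3 : (i + 1) * n = i * n + n := by ring
    omega

lemma singleton_sublist_of_mem {α : Type} {z : α} {l : List α} (h : z ∈ l) : [z].Sublist l :=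
  List.singleton_sublist.2 h

theorem embed {n k : ℕ} {P : Prog D} (hP : Valid P 0 (k + 1)) (e : D ↪ Fin n)
    (π : List (Fin n)) : π.Nodup → π.length ≤ k →
      π.Sublist (pre P e π.length) ∨ ∃ Q x l₁ l₂, Reach P 0 0 π.length Q x ∧
        (∀ y ∈ Q, e y ∈ π) ∧ row P π.length = l₁ ++ x :: l₂ ∧
        π.Sublist (pre P e π.length ++ (l₁ ++ [x]).map e) := by
  induction π using List.reverseRecOn with
  | nil => intro _ _; left; simp
  | append_singleton π z ih =>
    intro hnd hlen
    rw [List.length_append, List.length_singleton] at hlen
    rw [List.nodup_append] at hnd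
    obtain ⟨hnd1, _, hnd2⟩ := hnd
    have hz : z ∉ π := fun h => hnd2 z h z (by simp) rfl
    have hlen' : (π ++ [z]).length = π.length + 1 := by simp
    rw [hlen']
    set i := π.length with hi
    -- the fresh case
    have fresh : ∀ d, e d = z → P.loc i d = Loc.miss → π.Sublist (pre P e (i + 1)) →
        (π ++ [z]).Sublist (pre P e (i + 1)) ∨ ∃ Q x l₁ l₂, Reach P 0 0 (i + 1) Q x ∧
        (∀ y ∈ Q, e y ∈ π ++ [z]) ∧ row P (i + 1) = l₁ ++ x :: l₂ ∧
        (π ++ [z]).Sublist (pre P e (i + 1) ++ (l₁ ++ [x]).map e) := by
      intro d hd hmiss hsub
      right
      have hr : Reach P 0 0 (i + 1) {d} d := Reach.fresh i d hmiss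
      obtain ⟨a, ha⟩ := hP.present 0 (i + 1) {d} d hr (by omega)
      have hmem : d ∈ row P (i + 1) := mem_row.2 (by rw [ha]; simp)
      obtain ⟨l₁, l₂, hl⟩ := List.append_of_mem hmem
      refine ⟨{d}, d, l₁, l₂, hr, ?_, hl, ?_⟩
      · intro y hy
        rw [Finset.mem_singleton] at hy
        rw [hy, hd]
        simp
      · refine hsub.append ?_
        rw [← hd]
        simp
    rcases ih hnd1 (by omega) with hA | ⟨Q, x, l₁, l₂, hr, hQ, hrow, hB⟩
    · -- at the start of the row `i`
      have hsub : π.Sublist (pre P e (i + 1)) := hA.trans (List.sublist_append_left _ _)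
      by_cases hzD : ∃ d, e d = z
      · obtain ⟨d, hd⟩ := hzD
        by_cases hmiss : P.loc i d = Loc.miss
        · exact fresh d hd hmiss hsub
        · left
          refine hA.append ((singleton_sublist_of_mem ?_).trans (List.sublist_append_left _ _))
          rw [← hd]
          exact List.mem_map_of_mem (mem_row.2 hmiss)
      · push Not at hzD
        left
        exact hA.append ((singleton_sublist_of_mem (mem_star hzD)).trans
          (List.sublist_append_right _ _))
    · -- at the letter `x` of the row `i`
      obtain ⟨a, ha⟩ := hP.present 0 i Q x hr (by omega)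
      have hsplit : (row P i).map e ++ star e =
          (l₁ ++ [x]).map e ++ (l₂.map e ++ star e) := by
        rw [hrow]
        simp
      have hpre : pre P e (i + 1) =
          (pre P e i ++ (l₁ ++ [x]).map e) ++ (l₂.map e ++ star e) := by
        change pre P e i ++ ((row P i).map e ++ star e) = _
        rw [hsplit, List.append_assoc]
      have hsub : π.Sublist (pre P e (i + 1)) := by
        rw [hpre]
        exact hB.trans (List.sublist_append_left _ _)
      by_cases hzD : ∃ d, e d = z
      · obtain ⟨d, hd⟩ := hzD
        by_cases hmiss : P.loc i d = Loc.miss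
        · exact fresh d hd hmiss hsub
        · have hmem : d ∈ row P i := mem_row.2 hmiss
          have hdQ : d ∉ Q := by
            intro h
            have := hQ d h
            rw [hd] at this
            exact hz this
          rw [hrow, List.mem_append, List.mem_cons] at hmem
          -- `x ∈ Q`
          have hxQ : x ∈ Q := hr.mem
          rcases hmem with hmem | hmem | hmem
          · -- before `x`
            right
            have hp := row_pairwise P i
            rw [hrow, List.pairwise_append] at hp
            have hle := hp.2.2 d hmem x (by simp)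
            have hb : ∃ b, P.loc i d = Loc.at b ∧ b ≤ a := by
              unfold key at hle
              rw [ha] at hle
              rcases hloc : P.loc i d with _ | _ | b
              · exact absurd hloc hmiss
              · rw [hloc] at hle
                simp at hle
              · rw [hloc] at hle
                refine ⟨b, rfl, ?_⟩
                change (b : ℕ∞) ≤ (a : ℕ∞) at hle
                exact_mod_cast hle
            obtain ⟨b, hb1, hb2⟩ := hb
            have hr' : Reach P 0 0 (i + 1) (insert d Q) d :=
              Reach.step 0 i Q x d a b hr ha hb1 hb2 hdQ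
            obtain ⟨a', ha'⟩ := hP.present 0 (i + 1) _ d hr' (by omega)
            have hmem' : d ∈ row P (i + 1) := mem_row.2 (by rw [ha']; simp)
            obtain ⟨m₁, m₂, hl⟩ := List.append_of_mem hmem'
            refine ⟨insert d Q, d, m₁, m₂, hr', ?_, hl, ?_⟩
            · intro y hy
              rw [Finset.mem_insert] at hy
              rcases hy with rfl | hy
              · rw [hd]; simp
              · exact List.mem_append_left _ (hQ y hy)
            · refine hsub.append ?_
              rw [← hd]
              simp
          · rw [hmem] at hdQ
            exact absurd hxQ hdQ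
          · -- after `x`
            left
            rw [hpre]
            refine hB.append ((singleton_sublist_of_mem ?_).trans (List.sublist_append_left _ _))
            rw [← hd]
            exact List.mem_map_of_mem hmem
      · push Not at hzD
        left
        rw [hpre]
        exact hB.append ((singleton_sublist_of_mem (mem_star hzD)).trans
          (List.sublist_append_right _ _))

theorem g_add_rew_le {n k : ℕ} {P : Prog D} (hP : Valid P 0 (k + 1))
    (hn : Fintype.card D ≤ n) : g n k + rew P (k + 1) ≤ k * n + Fintype.card D := by
  obtain ⟨e⟩ : Nonempty (D ↪ Fin n) :=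
    Function.Embedding.nonempty_of_card_le (by rwa [Fintype.card_fin])
  have hw : ContainsAll n k (pre P e k ++ (row P k).map e) := by
    intro π hnd hlen
    rcases embed hP e π hnd hlen.le with hA | ⟨Q, x, l₁, l₂, hr, hQ, hrow, hB⟩
    · rw [hlen] at hA
      exact hA.trans (List.sublist_append_left _ _)
    · rw [hlen] at hB hrow
      refine hB.trans ?_
      rw [hrow]
      apply List.Sublist.append_left
      apply List.Sublist.map
      have : l₁ ++ x :: l₂ = (l₁ ++ [x]) ++ l₂ := by simp
      rw [this]
      exact List.sublist_append_left _ _
  have h1 := g_le hw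
  have h2 := pre_length P e k
  have h3 := row_length P k
  have h4 : rew P (k + 1) = rew P k +
      (Finset.univ.filter (fun x => P.loc k x = Loc.miss)).card := by
    unfold rew
    rw [Finset.sum_range_succ]
  rw [List.length_append, List.length_map] at h1
  omega

end Pool.Agent.Lib.MP_9067ea_co.Sup
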