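import Mathlib
import Pool.Agent.Lib.MP_9067ea_co.SupPipe
import Pool.Agent.Lib.MP_9067ea_co.SupWord

/-!
# Superlinear saving: iteration of the pipeline and the final estimate
-/

set_option autoImplicit false

namespace Pool.Agent.Lib.MP_9067ea_co.Sup

/-- There are programs with `m` markers over `s` letters whose reward in `T` rows is at least
`(p L T - b) / (p + 1)`. -/
def Good (p L m s b : ℕ) : Prop :=
  ∃ (D : Type) (_ : DecidableEq D) (_ : Fintype D), Fintype.card D = s ∧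
    ∀ T, ∃ P : Prog D, Valid P m T ∧ p * L * T ≤ (p + 1) * rew P T + b

lemma good_zero (p m : ℕ) : Good p 0 m 0 0 := by
  refine ⟨Empty, inferInstance, inferInstance, by simp, ?_⟩
  intro T
  refine ⟨⟨fun _ _ => Loc.park, fun _ c => c⟩, ⟨?_, ?_, ?_, ?_⟩, by simp⟩
  · intro t _ c c' _ h _
    exact h
  · intro c t Q x
    exact x.elim
  · intro c t Q x
    exact x.elim
  · intro c Q x
    exact x.elim

lemma good_succ {p L m s b N : ℕ} (h : Good p L (2 * m + 1) s b)
    (hN : N = p * (s + 2 * L + 2) + b) :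
    Good p (L + 1) m (s + (m + 1) * N) ((p + 1) * m * N + p * (L + 1) * (s + N + 2)) := by
  obtain ⟨D, i1, i2, hD, h⟩ := h
  obtain ⟨G, hG, hG2⟩ := h (s + N)
  refine ⟨D ⊕ (Fin (m + 1) × Fin N), inferInstance, inferInstance, by simp [hD], ?_⟩
  intro T
  set U := s + N + 2 with hU
  set R := T / U with hR
  have hRT : R * U ≤ T := Nat.div_mul_le_self T U
  have hRT2 : T < (R + 1) * U := by
    rw [mul_comm]
    exact Nat.lt_mul_div_succ T (by omega)
  have hv := pipe_valid (N := N) hG (by rw [hD]) R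
  refine ⟨pad (pipe G m N (s + N) R) (R * U), pad_valid hv hRT, ?_⟩
  rw [pad_rew _ hRT]
  have h1 := pipe_rew (G := G) (m := m) (N := N) (T := s + N) R
  have h2 : (p + 1) * ((R - m) * N + R * rew G (s + N)) ≤
      (p + 1) * rew (pipe G m N (s + N) R) (R * U) := Nat.mul_le_mul_left _ h1
  refine le_trans ?_ (Nat.add_le_add_right h2 _)
  have h3 : R * N ≤ (R - m) * N + m * N := by
    rw [← add_mul]
    exact Nat.mul_le_mul_right _ (by omega)
  have h4 : p * (L + 1) * T ≤ p * (L + 1) * ((R + 1) * U) := Nat.mul_le_mul_left _ hRT2.le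
  have h5 : R * (p * L * (s + N)) ≤ R * ((p + 1) * rew G (s + N) + b) := Nat.mul_le_mul_left _ hG2
  refine h4.trans ?_
  have h6 : (p + 1) * (R * N) ≤ (p + 1) * ((R - m) * N + m * N) := Nat.mul_le_mul_left _ h3
  have h7 : p * (L + 1) * ((R + 1) * U) + R * b =
      (p + 1) * (R * N) + R * (p * L * (s + N)) + p * (L + 1) * U := by
    have e1 : R * N = R * (p * (s + 2 * L + 2)) + R * b := by rw [← mul_add, ← hN]
    have e2 : p * (L + 1) * ((R + 1) * U) + R * b + R * N =
      (p + 1) * (R * N) + R * (p * L * (s + N)) + p * (L + 1) * U +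
        (R * (p * (s + 2 * L + 2)) + R * b) := by
      rw [hU]
      ring
    omega
  have h8 : (p + 1) * ((R - m) * N + m * N) = (p + 1) * ((R - m) * N) + (p + 1) * m * N := by ring
  have h9 : R * ((p + 1) * rew G (s + N) + b) = (p + 1) * (R * rew G (s + N)) + R * b := by ring
  have h10 : (p + 1) * ((R - m) * N + R * rew G (s + N)) =
      (p + 1) * ((R - m) * N) + (p + 1) * (R * rew G (s + N)) := by ring
  rw [h8] at h6
  rw [h9] at h5
  rw [h10]
  omega

/-- The bound for the parameters. -/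
def F (p : ℕ) : ℕ → ℕ
  | 0 => 2
  | L + 1 => (p + 3) ^ 2 * (L + 1) * 2 ^ L * F p L

lemma exists_good (p L : ℕ) : ∀ m, ∃ s b, Good p L m s b ∧
    s + b + 2 * L + 2 ≤ F p L * (m + 1) ^ L := by
  induction L with
  | zero =>
    intro m
    exact ⟨0, 0, good_zero p m, by simp [F]⟩
  | succ L ih =>
    intro m
    obtain ⟨s, b, h1, h2⟩ := ih (2 * m + 1)
    refine ⟨_, _, good_succ h1 rfl, ?_⟩
    set X := F p L * (2 * m + 1 + 1) ^ L with hX
    set N := p * (s + 2 * L + 2) + b with hN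
    have hs : s ≤ X := by omega
    have hNX : N ≤ (p + 1) * X := by
      have h3 : p * (s + 2 * L + 2) ≤ p * X := Nat.mul_le_mul_left _ (by omega)
      have h4 : (p + 1) * X = p * X + X := by ring
      omega
    have hX2 : 2 ≤ X := by omega
    have h5 : F p (L + 1) * (m + 1) ^ (L + 1) = (p + 3) ^ 2 * (L + 1) * (m + 1) * X := by
      have h6 : (2 * m + 1 + 1) ^ L = 2 ^ L * (m + 1) ^ L := by
        rw [← mul_pow, show 2 * (m + 1) = 2 * m + 1 + 1 by ring]
      rw [hX, h6]
      simp only [F]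
      ring
    rw [h5]
    have h7 : (m + 1) * N ≤ (m + 1) * ((p + 1) * X) := Nat.mul_le_mul_left _ hNX
    have h8 : (p + 1) * m * N ≤ (p + 1) * m * ((p + 1) * X) := Nat.mul_le_mul_left _ hNX
    have h9 : p * (L + 1) * (s + N + 2) ≤ p * (L + 1) * (X + (p + 1) * X + X) :=
      Nat.mul_le_mul_left _ (by omega)
    have h10 : 2 * (L + 1) + 2 ≤ 2 * X := by omega
    have h11 : X + (m + 1) * ((p + 1) * X) + ((p + 1) * m * ((p + 1) * X) +
        p * (L + 1) * (X + (p + 1) * X + X)) + 2 * X ≤ (p + 3) ^ 2 * (L + 1) * (m + 1) * X := by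
      have h12 : X + (m + 1) * ((p + 1) * X) + ((p + 1) * m * ((p + 1) * X) +
        p * (L + 1) * (X + (p + 1) * X + X)) + 2 * X =
        (3 + (m + 1) * (p + 1) + (p + 1) * (p + 1) * m + p * (L + 1) * (p + 3)) * X := by ring
      rw [h12]
      apply Nat.mul_le_mul_right
      have h13 : (p + 3) ^ 2 * (L + 1) * (m + 1) =
        (3 + (m + 1) * (p + 1) + (p + 1) * (p + 1) * m + p * (L + 1) * (p + 3)) +
        ((p + 3) ^ 2 * L * m + (3 * p + 9) * L + (3 * p + 7) * m + (2 * p + 5)) := by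
        ring
      omega
    omega

lemma F_pos (p L : ℕ) : 0 < F p L := by
  induction L with
  | zero => simp [F]
  | succ L ih => simp only [F]; positivity

/-- The explicit estimate. -/
theorem g_le_explicit {p L n k : ℕ} (h1 : F p L ≤ k) (h2 : k ≤ n) :
    (p + 1) * g n k + p * L * k ≤ (p + 1) * (k * n) + (p + 1) * k := by
  obtain ⟨s, b, ⟨D, i1, i2, hD, h⟩, hsb⟩ := exists_good p L 0
  simp only [zero_add, one_pow, mul_one] at hsb
  obtain ⟨P, hP, hP2⟩ := h (k + 1)
  have h3 := g_add_rew_le hP (n := n) (by rw [hD]; omega)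
  rw [hD] at h3
  have h4 : (p + 1) * (g n k + rew P (k + 1)) ≤ (p + 1) * (k * n + s) := Nat.mul_le_mul_left _ h3
  have h5 : p * L * (k + 1) = p * L * k + p * L := by ring
  have h6 : (p + 1) * (k * n + s) = (p + 1) * (k * n) + (p + 1) * s := by ring
  have h7 : (p + 1) * (g n k + rew P (k + 1)) = (p + 1) * g n k + (p + 1) * rew P (k + 1) := by
    ring
  have h8 : (p + 1) * s + b ≤ (p + 1) * k := by
    have : (p + 1) * (s + b) ≤ (p + 1) * k := Nat.mul_le_mul_left _ (by omega)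
    have h9 : (p + 1) * (s + b) = (p + 1) * s + b + p * b := by ring
    omega
  omega

lemma logb_le (y : ℝ) (hy : 0 < y) (δ : ℝ) (hδ : 0 < δ) : Real.logb 2 y ≤ δ * y + 4 / δ := by
  have h2 : (0.6931471803 : ℝ) < Real.log 2 := Real.log_two_gt_d9
  have h1 : Real.log (δ * y / 2) ≤ δ * y / 2 - 1 := Real.log_le_sub_one_of_pos (by positivity)
  have h3 : Real.log (2 / δ) ≤ 2 / δ - 1 := Real.log_le_sub_one_of_pos (by positivity)
  have h4 : Real.log y = Real.log (δ * y / 2) + Real.log (2 / δ) := by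
    rw [← Real.log_mul (by positivity) (by positivity)]
    congr 1
    field_simp
  rw [Real.logb, div_le_iff₀ (by linarith)]
  have h5 : 0 < 1 / δ := by positivity
  have h6 : 0 < δ * y := by positivity
  have e2 : 2 / δ = 2 * (1 / δ) := by ring
  have e4 : 4 / δ = 4 * (1 / δ) := by ring
  have h3' : Real.log (2 / δ) ≤ 2 * (1 / δ) - 1 := by rw [← e2]; exact h3
  rw [e4]
  nlinarith

/-- The growth of `F`. -/
lemma logb_F_le (p : ℕ) (δ : ℝ) (hδ : 0 < δ) (L : ℕ) :
    Real.logb 2 (F p L) ≤ (1 / 2 + δ) * (L : ℝ) ^ 2 +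
      (2 * Real.logb 2 (p + 3) + 4 / δ) * L + 1 := by
  induction L with
  | zero => simp [F]
  | succ L ih =>
    have hF : (0 : ℝ) < F p L := by exact_mod_cast F_pos p L
    have e1 : Real.logb 2 (F p (L + 1) : ℝ) = 2 * Real.logb 2 (p + 3) + Real.logb 2 (L + 1) +
        L + Real.logb 2 (F p L) := by
      simp only [F]
      push_cast
      rw [Real.logb_mul (by positivity) (by positivity), Real.logb_mul (by positivity)
        (by positivity), Real.logb_mul (by positivity) (by positivity), Real.logb_pow]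
      have : Real.logb 2 ((2 : ℝ) ^ L) = L := by
        rw [Real.logb_pow, Real.logb_self_eq_one (by norm_num), mul_one]
      rw [this]
      push_cast
      ring
    have h2 := logb_le ((L : ℝ) + 1) (by positivity) δ hδ
    rw [e1]
    push_cast
    have hL : (0 : ℝ) ≤ L := Nat.cast_nonneg L
    nlinarith

theorem g_le_sqrt_log (c : ℝ) (hc : c < √2) : ∃ K : ℕ, ∀ n k : ℕ, K ≤ k → k ≤ n →
    (g n k : ℝ) ≤ k * n - c * k * √(Real.logb 2 k) := by
  -- the choice of the parameters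
  obtain ⟨μ, hμ0, hcμ, hμ2⟩ : ∃ μ : ℝ, 0 < μ ∧ c < μ ∧ μ < √2 := by
    have h2 : (0 : ℝ) < √2 := by positivity
    refine ⟨(max c 0 + √2) / 2, ?_, ?_, ?_⟩
    · have := le_max_right c 0
      linarith
    · have := le_max_left c 0
      linarith
    · have : max c 0 < √2 := max_lt hc h2
      linarith
  have hμsq : μ ^ 2 < 2 := by
    have h3 := Real.sq_sqrt (show (0 : ℝ) ≤ 2 by norm_num)
    have h4 : 0 < √2 := by positivity
    nlinarith
  obtain ⟨p, hp⟩ : ∃ p : ℕ, c < p / (p + 1) * μ := by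
    obtain ⟨p, hp⟩ := exists_nat_gt (μ / (μ - c))
    refine ⟨p, ?_⟩
    have h1 : 0 < μ - c := by linarith
    rw [div_lt_iff₀ h1] at hp
    have h2 : (0 : ℝ) < (p : ℝ) + 1 := by positivity
    rw [div_mul_eq_mul_div, lt_div_iff₀ h2]
    nlinarith
  obtain ⟨δ, hδ0, hδ1⟩ : ∃ δ : ℝ, 0 < δ ∧ (1 / 2 + δ) * μ ^ 2 < 1 := by
    refine ⟨(2 - μ ^ 2) / (4 * μ ^ 2), by apply div_pos <;> nlinarith [sq_nonneg μ, pow_pos hμ0 2],
      ?_⟩
    have h1 : 0 < μ ^ 2 := by positivity
    have h2 : (1 / 2 + (2 - μ ^ 2) / (4 * μ ^ 2)) * μ ^ 2 = μ ^ 2 / 2 + (2 - μ ^ 2) / 4 := by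
      field_simp
    rw [h2]
    linarith
  set A : ℝ := 2 * Real.logb 2 (p + 3) + 4 / δ with hA
  have hA0 : 0 ≤ A := by
    have h1 : 0 ≤ Real.logb 2 (p + 3) := by
      apply Real.logb_nonneg (by norm_num)
      have : (0 : ℝ) ≤ p := Nat.cast_nonneg p
      linarith
    positivity
  set a : ℝ := 1 - (1 / 2 + δ) * μ ^ 2 with ha
  have ha0 : 0 < a := by linarith
  set B : ℝ := (1 / 2 + δ) * (2 * μ + 1) + A * μ + A + 1 with hB
  have hB0 : 0 ≤ B := by positivity
  set ν : ℝ := p / (p + 1) * μ - c with hν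
  have hν0 : 0 < ν := by linarith
  set X : ℝ := 1 + B / a + 1 / ν with hX
  obtain ⟨K, hK⟩ := exists_nat_ge ((2 : ℝ) ^ (X ^ 2))
  refine ⟨K, ?_⟩
  intro n k hk hkn
  have hX1 : 1 ≤ X := by
    have h1 : 0 ≤ B / a := by positivity
    have h2 : 0 ≤ 1 / ν := by positivity
    linarith
  have hk2 : (2 : ℝ) ^ (X ^ 2) ≤ k := hK.trans (by exact_mod_cast hk)
  have hk0 : (0 : ℝ) < k := lt_of_lt_of_le (by positivity) hk2
  set x : ℝ := √(Real.logb 2 k) with hx
  have hXlog : X ^ 2 ≤ Real.logb 2 k := by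
    rw [Real.le_logb_iff_rpow_le (by norm_num) hk0]
    exact hk2
  have hlog0 : 0 ≤ Real.logb 2 k := le_trans (by positivity) hXlog
  have hxX : X ≤ x := Real.le_sqrt_of_sq_le hXlog
  have hx2 : x ^ 2 = Real.logb 2 k := Real.sq_sqrt hlog0
  have hx1 : 1 ≤ x := hX1.trans hxX
  set L : ℕ := ⌈μ * x⌉₊ with hL
  have hL1 : μ * x ≤ L := Nat.le_ceil _
  have hL2 : (L : ℝ) < μ * x + 1 := Nat.ceil_lt_add_one (by positivity)
  have hFk : F p L ≤ k := by
    have h1 := logb_F_le p δ hδ0 L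
    rw [← hA] at h1
    have h2 : Real.logb 2 (F p L) ≤ Real.logb 2 k := by
      rw [← hx2]
      refine h1.trans ?_
      have hLn : (0 : ℝ) ≤ L := Nat.cast_nonneg L
      have h3 : (L : ℝ) ^ 2 ≤ (μ * x + 1) ^ 2 := by
        apply pow_le_pow_left₀ hLn hL2.le
      have h4 : (1 / 2 + δ) * (L : ℝ) ^ 2 ≤ (1 / 2 + δ) * (μ * x + 1) ^ 2 :=
        mul_le_mul_of_nonneg_left h3 (by positivity)
      have h5 : A * (L : ℝ) ≤ A * (μ * x + 1) := mul_le_mul_of_nonneg_left hL2.le hA0
      have h6 : B ≤ a * x := by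
        have h7 : B / a ≤ x := by
          have h8 : 0 ≤ 1 / ν := by positivity
          linarith
        rw [div_le_iff₀ ha0] at h7
        linarith
      have h7 : B * x ≤ a * x * x := mul_le_mul_of_nonneg_right h6 (by linarith)
      have h8 : (1 / 2 + δ) * (μ * x + 1) ^ 2 + A * (μ * x + 1) + 1 ≤
          (1 / 2 + δ) * μ ^ 2 * x ^ 2 + B * x := by
        rw [hB]
        have h9 : 0 ≤ ((1 / 2 + δ) + A + 1) * (x - 1) := by
          apply mul_nonneg <;> [positivity; linarith]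
        nlinarith
      have h9 : (1 / 2 + δ) * μ ^ 2 * x ^ 2 + a * x * x = x ^ 2 := by
        rw [ha]
        ring
      linarith
    have hF0 : (0 : ℝ) < F p L := by exact_mod_cast F_pos p L
    have h3 := (Real.logb_le_logb (by norm_num : (1 : ℝ) < 2) hF0 hk0).1 h2
    exact_mod_cast h3
  have hmain := g_le_explicit hFk hkn
  have hmain' : ((p : ℝ) + 1) * g n k + p * L * k ≤ (p + 1) * (k * n) + (p + 1) * k := by
    exact_mod_cast hmain
  have hp1 : (0 : ℝ) < (p : ℝ) + 1 := by positivity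
  have h1 : (g n k : ℝ) ≤ k * n + k - p / (p + 1) * L * k := by
    rw [← mul_le_mul_iff_right₀ hp1]
    have h2 : ((p : ℝ) + 1) * (k * n + k - p / (p + 1) * L * k) =
        (p + 1) * (k * n) + (p + 1) * k - p * L * k := by
      field_simp
    rw [h2]
    linarith
  have h2 : 1 ≤ ν * x := by
    have h3 : 1 / ν ≤ x := by
      have h4 : 0 ≤ B / a := by positivity
      linarith
    rw [div_le_iff₀ hν0] at h3
    linarith
  have h3 : c * x + 1 ≤ p / (p + 1) * L := by
    have h4 : (p : ℝ) / (p + 1) * (μ * x) ≤ p / (p + 1) * L :=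
      mul_le_mul_of_nonneg_left hL1 (by positivity)
    have h5 : ν * x = p / (p + 1) * (μ * x) - c * x := by
      rw [hν]
      ring
    linarith
  have h4 : (c * x + 1) * k ≤ p / (p + 1) * L * k := mul_le_mul_of_nonneg_right h3 hk0.le
  nlinarith

end Pool.Agent.Lib.MP_9067ea_co.Sup
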