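import Mathlib

/-!
# Improved upper bound for `g(n,k)`: the combinatorial core

We describe a bi-infinite word with three kinds of symbols, over the positions `ℤ`:

* position `3 j` carries the symbol `A (j mod (c+6))`;
* position `3 (i (c+5)) + 1` carries the marker `Z` (a block of all remaining letters);
* position `3 σ(l) + 2` carries the symbol `S (l mod (c+1))`, where `σ(l) = ⌊l (c+6) / c⌋`.

The main lemma says that every word of length `t` whose non-marker symbols are pairwise distinct,
embeds into the stretch between a marker and the `(t+1)`-st marker after it.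
-/

set_option autoImplicit false

namespace Pool.Agent.Lib.MP_9067ea_co.Up

/-- Symbols. -/
inductive Sym where
  | A (a : ℤ) : Sym
  | S (s : ℤ) : Sym
  | Z : Sym

/-- The sites of the `S`-symbols. -/
def sg (c : ℕ) (l : ℤ) : ℤ := (l * ((c : ℤ) + 6)) / (c : ℤ)

/-- Occurrence of a symbol at a position. -/
def Occ (c : ℕ) : Sym → ℤ → Prop
  | .A a, p => ∃ j : ℤ, p = 3 * j ∧ j % ((c : ℤ) + 6) = a
  | .S s, p => ∃ l : ℤ, p = 3 * sg c l + 2 ∧ l % ((c : ℤ) + 1) = s
  | .Z, p => ∃ i : ℤ, p = 3 * (i * ((c : ℤ) + 5)) + 1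

/-- `Emb c xs q r`: the word `xs` can be embedded at increasing positions after `q` and before
`r`. -/
def Emb (c : ℕ) : List Sym → ℤ → ℤ → Prop
  | [], q, r => q < r
  | x :: xs, q, r => ∃ p, q < p ∧ Occ c x p ∧ Emb c xs p r

/-- Validity of the residues of a symbol. -/
def Valid (c : ℕ) : Sym → Prop
  | .A a => 0 ≤ a ∧ a < (c : ℤ) + 6
  | .S s => 0 ≤ s ∧ s < (c : ℤ) + 1
  | .Z => True

variable {c : ℕ}

lemma sg_add (hc : 0 < c) (l : ℤ) (t : ℤ) : sg c (l + t * c) = sg c l + t * ((c : ℤ) + 6) := by
  unfold sg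
  have h : (l + t * c) * ((c : ℤ) + 6) = l * ((c : ℤ) + 6) + (t * ((c : ℤ) + 6)) * c := by ring
  rw [h, Int.add_mul_ediv_right _ _ (by positivity)]

lemma sg_mono (hc : 0 < c) {l l' : ℤ} (h : l ≤ l') : sg c l ≤ sg c l' := by
  unfold sg
  apply Int.ediv_le_ediv (by positivity)
  nlinarith

lemma sg_lt (hc : 0 < c) {l l' : ℤ} (h : l < l') : sg c l < sg c l' := by
  have h1 : sg c l + 1 ≤ sg c (l + 1) := by
    unfold sg
    have hc' : (0 : ℤ) < c := by exact_mod_cast hc
    rw [Int.le_ediv_iff_mul_le hc']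
    have h2 := Int.ediv_mul_le (l * ((c : ℤ) + 6)) hc'.ne'
    nlinarith
  have h2 : sg c (l + 1) ≤ sg c l' := sg_mono hc (by omega)
  omega

/-- The first site at or after a given gap. -/
lemma exists_site (hc : 6 ≤ c) (x : ℤ) : ∃ B : ℤ, x ≤ sg c B ∧ sg c B ≤ x + 1 ∧
    ∀ B' : ℤ, x ≤ sg c B' → B ≤ B' := by
  have hc' : (0 : ℤ) < c := by exact_mod_cast (by omega : 0 < c)
  have hm : (0 : ℤ) < (c : ℤ) + 6 := by positivity
  refine ⟨(x * c + ((c : ℤ) + 5)) / ((c : ℤ) + 6), ?_, ?_, ?_⟩
  · unfold sg
    rw [Int.le_ediv_iff_mul_le hc']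
    have h := Int.lt_ediv_add_one_mul_self (x * c + ((c : ℤ) + 5)) hm
    nlinarith
  · unfold sg
    have h := Int.ediv_mul_le (x * c + ((c : ℤ) + 5)) hm.ne'
    have h2 : (x * c + ((c : ℤ) + 5)) / ((c : ℤ) + 6) * ((c : ℤ) + 6) < (x + 2) * c := by
      have : (6 : ℤ) ≤ c := by exact_mod_cast hc
      nlinarith
    have h3 := Int.ediv_lt_of_lt_mul hc' h2
    omega
  · intro B' hB'
    unfold sg at hB'
    rw [Int.le_ediv_iff_mul_le hc'] at hB'
    have : (x * c + ((c : ℤ) + 5)) / ((c : ℤ) + 6) < B' + 1 := by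
      apply Int.ediv_lt_of_lt_mul hm
      nlinarith
    omega

/-- In a window of `M` consecutive integers there is one with a prescribed residue. -/
lemma exists_residue {M : ℤ} (hM : 0 < M) (y a : ℤ) (h0 : 0 ≤ a) (h1 : a < M) :
    ∃ j : ℤ, y ≤ j ∧ j < y + M ∧ j % M = a := by
  refine ⟨y + (a - y) % M, ?_, ?_, ?_⟩
  · have := Int.emod_nonneg (a - y) hM.ne'
    omega
  · have := Int.emod_lt_of_pos (a - y) hM
    omega
  · rw [Int.add_emod, Int.emod_emod, ← Int.add_emod]
    have : y + (a - y) = a := by ring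
    rw [this, Int.emod_eq_of_lt h0 h1]

/-- **Main lemma.**  The state of a run that started at the marker number `i`: `t` symbols of the
run have been placed, the last one at the position `q`; `K` are the landing places of the
`A`-symbols used (in the frame moving with the `A`-symbols), `U` are the `S`-symbols used, `B` is
the barrier. -/
theorem run (hc : 6 ≤ c) : ∀ (xs : List Sym) (i q μ H B : ℤ) (t : ℕ) (K U : Finset ℤ),
    (∀ x ∈ xs, Valid c x) →
    xs.Pairwise (fun x y => x = y → x = Sym.Z) →
    t = K.card + U.card →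
    (∀ κ ∈ K, μ ≤ κ ∧ κ ≤ H) →
    μ ≤ H + 1 →
    H ≤ i * ((c : ℤ) + 5) + 1 →
    sg c B ≤ μ + 1 →
    sg c B ≤ H →
    (∀ κ ∈ K, Sym.A (κ % ((c : ℤ) + 6)) ∉ xs) →
    (∀ u ∈ U, 0 ≤ u ∧ u < (c : ℤ) + 1) →
    (∀ u ∈ U, Sym.S u ∉ xs) →
    q ≤ 3 * (sg c B + t * ((c : ℤ) + 6)) + 2 →
    (q = 3 * (sg c B + t * ((c : ℤ) + 6)) + 2 → (B + t * (c : ℤ)) % ((c : ℤ) + 1) ∈ U) →
    Emb c xs q (3 * ((i + t + xs.length + 1) * ((c : ℤ) + 5))) := by
  have hc0 : 0 < c := by omega
  have hc' : (0 : ℤ) < c := by exact_mod_cast hc0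
  intro xs
  induction xs with
  | nil =>
    intro i q μ H B t K U _ _ ht hK hμ hH hB1 hB2 _ hU _ hq _
    have hKc : (K.card : ℤ) ≤ H + 1 - μ := by
      have h1 : K ⊆ Finset.Icc μ H := fun κ hκ => Finset.mem_Icc.2 (hK κ hκ)
      have h2 := Finset.card_le_card h1
      rw [Int.card_Icc] at h2
      omega
    have hUc : (U.card : ℤ) ≤ (c : ℤ) + 1 := by
      have h1 : U ⊆ Finset.Ico 0 ((c : ℤ) + 1) := fun u hu => Finset.mem_Ico.2 (hU u hu)
      have h2 := Finset.card_le_card h1
      rw [Int.card_Ico] at h2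
      omega
    show q < _
    have ht' : (t : ℤ) = K.card + U.card := by exact_mod_cast ht
    have h3 : sg c B + t * ((c : ℤ) + 6) ≤ i * ((c : ℤ) + 5) + t * ((c : ℤ) + 5) + (c + 4) := by
      have : sg c B + t * ((c : ℤ) + 6) = sg c B + t + t * ((c : ℤ) + 5) := by ring
      rw [this]
      omega
    simp only [List.length_nil, Nat.cast_zero, add_zero]
    have h4 : 3 * ((i + t + 1) * ((c : ℤ) + 5)) =
        3 * (i * ((c : ℤ) + 5) + t * ((c : ℤ) + 5)) + 3 * (c + 5) := by ring
    rw [h4]
    omega
  | cons x xs ih =>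
    intro i q μ H B t K U hval hpw ht hK hμ hH hB1 hB2 hKx hU hUx hq hq2
    have hKc : (K.card : ℤ) ≤ H + 1 - μ := by
      have h1 : K ⊆ Finset.Icc μ H := fun κ hκ => Finset.mem_Icc.2 (hK κ hκ)
      have h2 := Finset.card_le_card h1
      rw [Int.card_Icc] at h2
      omega
    have hUc : (U.card : ℤ) ≤ (c : ℤ) + 1 := by
      have h1 : U ⊆ Finset.Ico 0 ((c : ℤ) + 1) := fun u hu => Finset.mem_Ico.2 (hU u hu)
      have h2 := Finset.card_le_card h1
      rw [Int.card_Ico] at h2
      omega
    have hval' : ∀ y ∈ xs, Valid c y := fun y hy => hval y (List.mem_cons_of_mem _ hy)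
    rw [List.pairwise_cons] at hpw
    obtain ⟨hpw1, hpw2⟩ := hpw
    cases x with
    | Z =>
      -- go to the next marker
      obtain ⟨B0, hB01, hB02, -⟩ := exists_site hc ((i + t + 1) * ((c : ℤ) + 5))
      refine ⟨3 * ((i + t + 1) * ((c : ℤ) + 5)) + 1, ?_, ⟨_, rfl⟩, ?_⟩
      · have ht' : (t : ℤ) = K.card + U.card := by exact_mod_cast ht
        have h3 : sg c B + t * ((c : ℤ) + 6) ≤
            i * ((c : ℤ) + 5) + t * ((c : ℤ) + 5) + (c + 4) := by
          have : sg c B + t * ((c : ℤ) + 6) = sg c B + t + t * ((c : ℤ) + 5) := by ring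
          rw [this]
          omega
        have h4 : 3 * ((i + t + 1) * ((c : ℤ) + 5)) =
            3 * (i * ((c : ℤ) + 5) + t * ((c : ℤ) + 5)) + 3 * (c + 5) := by ring
        rw [h4]
        omega
      · have := ih (i + t + 1) (3 * ((i + t + 1) * ((c : ℤ) + 5)) + 1) (sg c B0 + 1) (sg c B0) B0 0
          ∅ ∅ hval' hpw2 (by simp) (by simp) (by omega) hB02 (by omega) le_rfl (by simp) (by simp)
          (by simp) (by simp; omega) (by simp; omega)
        have e : 3 * ((i + t + ((Sym.Z :: xs).length : ℕ) + 1) * ((c : ℤ) + 5)) =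
            3 * ((i + t + 1 + ((0 : ℕ) : ℤ) + xs.length + 1) * ((c : ℤ) + 5)) := by
          simp only [List.length_cons, Nat.cast_add, Nat.cast_one, Nat.cast_zero]
          ring
        rw [e]
        exact this
    | A a =>
      have ha : 0 ≤ a ∧ a < (c : ℤ) + 6 := hval (Sym.A a) (by simp)
      -- choose the occurrence in the window just below the barrier
      obtain ⟨κ, hκ1, hκ2, hκ3⟩ := exists_residue (M := (c : ℤ) + 6) (by positivity)
        (sg c B - ((c : ℤ) + 5)) a ha.1 ha.2
      have hκK : κ ∉ K := fun h => hKx κ h (by rw [hκ3]; simp)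
      have hnotin : Sym.A a ∉ xs := fun h => by
        have := hpw1 _ h rfl
        cases this
      have hmod : (κ + (t + 1) * ((c : ℤ) + 6)) % ((c : ℤ) + 6) = a := by
        rw [Int.add_mul_emod_self_right, hκ3]
      refine ⟨3 * (κ + (t + 1) * ((c : ℤ) + 6)), ?_, ⟨_, rfl, hmod⟩, ?_⟩
      · have : 3 * (κ + (t + 1) * ((c : ℤ) + 6)) =
            3 * (κ + ((c : ℤ) + 6)) + 3 * (t * ((c : ℤ) + 6)) := by ring
        rw [this]
        have : 3 * (sg c B + t * ((c : ℤ) + 6)) + 2 =
            3 * sg c B + 2 + 3 * (t * ((c : ℤ) + 6)) := by ring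
        rw [this] at hq
        omega
      · have e : 3 * ((i + t + ((Sym.A a :: xs).length : ℕ) + 1) * ((c : ℤ) + 5)) =
            3 * ((i + ((t + 1 : ℕ) : ℤ) + xs.length + 1) * ((c : ℤ) + 5)) := by
          simp only [List.length_cons, Nat.cast_add, Nat.cast_one]
          ring
        rw [e]
        have hcard : t + 1 = (insert κ K).card + U.card := by
          rw [Finset.card_insert_of_notMem hκK]; omega
        have hKx' : ∀ κ' ∈ insert κ K, Sym.A (κ' % ((c : ℤ) + 6)) ∉ xs := by
          intro κ' hκ'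
          rcases Finset.mem_insert.1 hκ' with rfl | h
          · rw [hκ3]; exact hnotin
          · exact fun h' => hKx κ' h (List.mem_cons_of_mem _ h')
        have hUx' : ∀ u ∈ U, Sym.S u ∉ xs := fun u hu h' => hUx u hu (List.mem_cons_of_mem _ h')
        by_cases hμκ : μ ≤ κ
        · refine ih i _ μ H B (t + 1) (insert κ K) U hval' hpw2 hcard ?_ hμ hH hB1 hB2 hKx' hU hUx'
            ?_ ?_
          · intro κ' hκ'
            rcases Finset.mem_insert.1 hκ' with rfl | h
            · exact ⟨hμκ, by omega⟩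
            · exact hK κ' h
          · push_cast
            omega
          · intro h
            push_cast at h
            omega
        · push Not at hμκ
          obtain ⟨B', hB'1, hB'2, hB'3⟩ := exists_site hc κ
          have hBB' : B' ≤ B := hB'3 B (by omega)
          have hs : sg c B' ≤ sg c B := sg_mono hc0 hBB'
          refine ih i _ κ H B' (t + 1) (insert κ K) U hval' hpw2 hcard ?_ (by omega) hH hB'2
            (by omega) hKx' hU hUx' ?_ ?_
          · intro κ' hκ'
            rcases Finset.mem_insert.1 hκ' with rfl | h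
            · exact ⟨le_rfl, by omega⟩
            · have := hK κ' h
              omega
          · push_cast
            omega
          · intro h
            push_cast at h
            omega
    | S s =>
      have hs : 0 ≤ s ∧ s < (c : ℤ) + 1 := hval (Sym.S s) (by simp)
      obtain ⟨l, hl1, hl2, hl3⟩ := exists_residue (M := (c : ℤ) + 1) (by positivity)
        (B + t * (c : ℤ)) s hs.1 hs.2
      have hsU : s ∉ U := fun h => hUx s h (by simp)
      have hnotin : Sym.S s ∉ xs := fun h => by
        have := hpw1 _ h rfl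
        cases this
      have hX : sg c (B + t * (c : ℤ)) = sg c B + t * ((c : ℤ) + 6) := sg_add hc0 B t
      have hX' : sg c (B + (t + 1) * (c : ℤ)) = sg c B + (t + 1) * ((c : ℤ) + 6) :=
        sg_add hc0 B (t + 1)
      refine ⟨3 * sg c l + 2, ?_, ⟨l, rfl, hl3⟩, ?_⟩
      · rcases hl1.lt_or_eq with h | h
        · have := sg_lt hc0 h
          rw [hX] at this
          omega
        · rw [← h, hX]
          rcases hq.lt_or_eq with h' | h'
          · exact h'
          · exfalso
            have h5 := hq2 h'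
            rw [h, hl3] at h5
            exact hsU h5
      · have e : 3 * ((i + t + ((Sym.S s :: xs).length : ℕ) + 1) * ((c : ℤ) + 5)) =
            3 * ((i + ((t + 1 : ℕ) : ℤ) + xs.length + 1) * ((c : ℤ) + 5)) := by
          simp only [List.length_cons, Nat.cast_add, Nat.cast_one]
          ring
        rw [e]
        have hl4 : l ≤ B + (t + 1) * (c : ℤ) := by
          have : B + (t + 1) * (c : ℤ) = B + t * (c : ℤ) + c := by ring
          rw [this]; omega
        have hmono := sg_mono hc0 hl4
        rw [hX'] at hmono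
        refine ih i _ μ H B (t + 1) K (insert s U) hval' hpw2 ?_ hK hμ hH hB1 hB2
          (fun κ hκ h' => hKx κ hκ (List.mem_cons_of_mem _ h')) ?_ ?_ ?_ ?_
        · rw [Finset.card_insert_of_notMem hsU]; omega
        · intro u hu
          rcases Finset.mem_insert.1 hu with rfl | h
          · exact hs
          · exact hU u h
        · intro u hu
          rcases Finset.mem_insert.1 hu with rfl | h
          · exact hnotin
          · exact fun h' => hUx u h (List.mem_cons_of_mem _ h')
        · push_cast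
          omega
        · intro h
          push_cast at h
          have heq : sg c l = sg c (B + (t + 1) * (c : ℤ)) := by rw [hX']; omega
          have hl5 : l = B + (t + 1) * (c : ℤ) := by
            by_contra hne
            have := sg_lt hc0 (lt_of_le_of_ne hl4 hne)
            omega
          push_cast
          rw [← hl5, hl3]
          exact Finset.mem_insert_self _ _

/-- Every word of length `k` whose non-marker symbols are distinct embeds into the stretch between
the marker number `0` and the gap number `(k+1)(c+5)`. -/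
theorem emb_all (hc : 6 ≤ c) (xs : List Sym) (hval : ∀ x ∈ xs, Valid c x)
    (hpw : xs.Pairwise (fun x y => x = y → x = Sym.Z)) :
    Emb c xs 1 (3 * (((xs.length : ℤ) + 1) * ((c : ℤ) + 5))) := by
  obtain ⟨B0, hB01, hB02, -⟩ := exists_site hc 0
  have := run hc xs 0 1 (sg c B0 + 1) (sg c B0) B0 0 ∅ ∅ hval hpw (by simp) (by simp) (by omega)
    (by simpa using hB02) (by omega) le_rfl (by simp) (by simp) (by simp) (by simp; omega)
    (by simp; omega)
  simpa using this

end Pool.Agent.Lib.MP_9067ea_co.Up
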