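import Mathlib
import Pool.Agent.Lib.MP_9067ea_co.Def
import Pool.Agent.Lib.MP_9067ea_co.UpChain

/-!
# Improved upper bound for `g(n,k)`: the word and its length
-/

set_option autoImplicit false

namespace Pool.Agent.Lib.MP_9067ea_co.Up

/-- The kind of a letter. -/
def phi (c : ℕ) {n : ℕ} (x : Fin n) : Sym :=
  if x.val < c + 6 then Sym.A x.val
  else if x.val < 2 * c + 7 then Sym.S ((x.val : ℤ) - ((c : ℤ) + 6)) else Sym.Z

/-- The number of sites before the gap `j`. -/
def idx (c j : ℕ) : ℕ := (j * c + (c + 5)) / (c + 6)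

/-- The letter `x` is written at the position `p`. -/
def occb (c : ℕ) {n : ℕ} (p : ℕ) (x : Fin n) : Bool :=
  if p % 3 = 0 then decide (p / 3 ≠ 0 ∧ x.val = (p / 3) % (c + 6))
  else if p % 3 = 1 then decide (p / 3 ≠ 0 ∧ (c + 5) ∣ p / 3 ∧ 2 * c + 7 ≤ x.val)
  else decide (idx c (p / 3) < idx c (p / 3 + 1) ∧ x.val = c + 6 + idx c (p / 3) % (c + 1))

/-- The letters written at the position `p`. -/
def L (c n p : ℕ) : List (Fin n) := (List.finRange n).filter (occb c p)

variable {c n : ℕ}

lemma mem_L {p : ℕ} {x : Fin n} : x ∈ L c n p ↔ occb c p x = true := by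
  simp [L, List.mem_filter]

lemma mem_L_of_occ (hc : 0 < c) {p : ℕ} (hp : 2 ≤ p) {x : Fin n} (h : Occ c (phi c x) (p : ℤ)) :
    x ∈ L c n p := by
  rw [mem_L]
  unfold phi at h
  split_ifs at h with h1 h2
  · -- A
    obtain ⟨j, hj1, hj2⟩ := h
    have hj0 : 0 ≤ j := by omega
    lift j to ℕ using hj0
    have hp3 : p = 3 * j := by exact_mod_cast hj1
    have e1 : p % 3 = 0 := by omega
    have e2 : p / 3 = j := by omega
    unfold occb
    rw [if_pos e1, e2]
    have e3 : x.val = j % (c + 6) := by exact_mod_cast hj2.symm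
    simp only [decide_eq_true_eq]
    exact ⟨by omega, e3⟩
  · -- S
    obtain ⟨l, hl1, hl2⟩ := h
    have hs0 : 0 ≤ sg c l := by omega
    obtain ⟨j, hj⟩ : ∃ j : ℕ, sg c l = j := ⟨(sg c l).toNat, by omega⟩
    rw [hj] at hl1
    have hp3 : p = 3 * j + 2 := by exact_mod_cast hl1
    have e0 : ¬ p % 3 = 0 := by omega
    have e1 : ¬ p % 3 = 1 := by omega
    have e2 : p / 3 = j := by omega
    have hc' : (0 : ℤ) < c := by exact_mod_cast hc
    have h3 : sg c (l - 1) < sg c l := sg_lt hc (by omega)
    have h4 : sg c (l - 1) + 1 ≤ (j : ℤ) := by omega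
    -- inequalities for l
    have k1 : (j : ℤ) * c ≤ l * ((c : ℤ) + 6) := by
      have := Int.ediv_mul_le (l * ((c : ℤ) + 6)) hc'.ne'
      unfold sg at hj
      rw [hj] at this
      exact this
    have k2 : l * ((c : ℤ) + 6) < ((j : ℤ) + 1) * c := by
      have := Int.lt_ediv_add_one_mul_self (l * ((c : ℤ) + 6)) hc'
      unfold sg at hj
      rw [hj] at this
      exact this
    have k3 : (l - 1) * ((c : ℤ) + 6) < (j : ℤ) * c := by
      have h5 := Int.lt_ediv_add_one_mul_self ((l - 1) * ((c : ℤ) + 6)) hc'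
      have h6 : ((l - 1) * ((c : ℤ) + 6)) / (c : ℤ) + 1 ≤ j := h4
      nlinarith
    have hl0 : 0 ≤ l := by
      by_contra hcon
      push Not at hcon
      have : l * ((c : ℤ) + 6) < 0 := by nlinarith
      have : (0 : ℤ) ≤ (j : ℤ) * c := by positivity
      omega
    lift l to ℕ using hl0
    have k1' : j * c ≤ l * (c + 6) := by exact_mod_cast k1
    have k2' : l * (c + 6) < (j + 1) * c := by exact_mod_cast k2
    have k3' : l * (c + 6) < j * c + (c + 6) := by
      have : ((l : ℤ)) * ((c : ℤ) + 6) < (j : ℤ) * c + (c + 6) := by linarith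
      exact_mod_cast this
    have i1 : idx c j = l := by
      unfold idx
      rw [Nat.div_eq_iff (by positivity)]
      constructor
      · omega
      · omega
    have i2 : l < idx c (j + 1) := by
      unfold idx
      rw [Nat.lt_iff_add_one_le, Nat.le_div_iff_mul_le (by positivity)]
      nlinarith
    unfold occb
    rw [if_neg e0, if_neg e1, e2, i1]
    simp only [decide_eq_true_eq]
    refine ⟨i2, ?_⟩
    have h7 : ((l % (c + 1) : ℕ) : ℤ) = (x.val : ℤ) - ((c : ℤ) + 6) := by
      push_cast
      exact hl2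
    omega
  · -- Z
    obtain ⟨i, hi⟩ := h
    have hi0 : 0 < i := by
      by_contra hcon
      push Not at hcon
      have : i * ((c : ℤ) + 5) ≤ 0 := by nlinarith
      omega
    lift i to ℕ using hi0.le
    have hp3 : p = 3 * (i * (c + 5)) + 1 := by exact_mod_cast hi
    have e0 : ¬ p % 3 = 0 := by omega
    have e1 : p % 3 = 1 := by omega
    have e2 : p / 3 = i * (c + 5) := by omega
    unfold occb
    rw [if_neg e0, if_pos e1, e2]
    simp only [decide_eq_true_eq]
    refine ⟨?_, Dvd.intro_left i rfl, by omega⟩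
    have : 0 < i := by exact_mod_cast hi0
    positivity

lemma emb_lt : ∀ (xs : List Sym) (q r : ℤ), Emb c xs q r → q < r := by
  intro xs
  induction xs with
  | nil => intro q r h; exact h
  | cons x xs ih =>
    intro q r h
    obtain ⟨p, hp, _, h2⟩ := h
    exact hp.trans (ih p r h2)

lemma sublist_of_emb (hc : 0 < c) : ∀ (π : List (Fin n)) (q r : ℕ), 1 ≤ q →
    Emb c (π.map (phi c)) (q : ℤ) (r : ℤ) →
    π.Sublist ((List.range' (q + 1) (r - (q + 1))).flatMap (L c n)) := by
  intro π
  induction π with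
  | nil => intro q r _ _; exact List.nil_sublist _
  | cons x π ih =>
    intro q r hq h
    obtain ⟨p, hp, hocc, h2⟩ := h
    have hpr : p < r := emb_lt _ _ _ h2
    have hp0 : 0 ≤ p := by omega
    lift p to ℕ using hp0
    have h3 : x ∈ L c n p := mem_L_of_occ hc (by omega) hocc
    have h4 := ih p r (by omega) h2
    have e : List.range' (q + 1) (r - (q + 1)) =
        List.range' (q + 1) (p - (q + 1)) ++ (p :: List.range' (p + 1) (r - (p + 1))) := by
      have e1 : r - (q + 1) = (p - (q + 1)) + (1 + (r - (p + 1))) := by omega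
      rw [e1, ← List.range'_append_1]
      congr 1
      have e2 : q + 1 + (p - (q + 1)) = p := by omega
      rw [e2, Nat.add_comm 1, List.range'_succ]
    rw [e, List.flatMap_append, List.flatMap_cons]
    refine List.Sublist.trans ?_ (List.sublist_append_right _ _)
    have h5 : [x].Sublist (L c n p) := List.singleton_sublist.2 h3
    exact h5.append h4

/-- Bounds for the number of letters at a position. -/
lemma length_L_A (j : ℕ) : (L c n (3 * j)).length ≤ if j = 0 then 0 else 1 := by
  have e1 : 3 * j % 3 = 0 := by omega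
  have e2 : 3 * j / 3 = j := by omega
  split_ifs with h
  · rw [Nat.le_zero, List.length_eq_zero_iff, List.eq_nil_iff_forall_not_mem]
    intro x hx
    rw [mem_L] at hx
    unfold occb at hx
    rw [if_pos e1, e2] at hx
    simp [h] at hx
  · have hnd : (L c n (3 * j)).Nodup := (List.nodup_finRange n).filter _
    rw [← List.toFinset_card_of_nodup hnd]
    apply Finset.card_le_one.2
    intro a ha b hb
    rw [List.mem_toFinset, mem_L] at ha hb
    unfold occb at ha hb
    rw [if_pos e1, e2] at ha hb
    simp only [decide_eq_true_eq] at ha hb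
    exact Fin.ext (ha.2.trans hb.2.symm)

lemma length_L_Z (j : ℕ) : (L c n (3 * j + 1)).length ≤
    if j ≠ 0 ∧ (c + 5) ∣ j then n - (2 * c + 7) else 0 := by
  have e0 : ¬ (3 * j + 1) % 3 = 0 := by omega
  have e1 : (3 * j + 1) % 3 = 1 := by omega
  have e2 : (3 * j + 1) / 3 = j := by omega
  have hmem : ∀ x : Fin n, x ∈ L c n (3 * j + 1) ↔ (j ≠ 0 ∧ (c + 5) ∣ j ∧ 2 * c + 7 ≤ x.val) := by
    intro x
    rw [mem_L]
    unfold occb
    rw [if_neg e0, if_pos e1, e2]
    simp only [decide_eq_true_eq]
  split_ifs with h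
  · have hnd : (L c n (3 * j + 1)).Nodup := (List.nodup_finRange n).filter _
    rw [← List.toFinset_card_of_nodup hnd]
    have h1 : ((L c n (3 * j + 1)).toFinset.image Fin.val) ⊆ Finset.Ico (2 * c + 7) n := by
      intro v hv
      obtain ⟨x, hx, rfl⟩ := Finset.mem_image.1 hv
      rw [List.mem_toFinset, hmem] at hx
      exact Finset.mem_Ico.2 ⟨hx.2.2, x.isLt⟩
    have h2 := Finset.card_le_card h1
    rw [Finset.card_image_of_injective _ Fin.val_injective, Nat.card_Ico] at h2
    exact h2
  · rw [Nat.le_zero, List.length_eq_zero_iff, List.eq_nil_iff_forall_not_mem]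
    intro x hx
    rw [hmem] at hx
    exact h ⟨hx.1, hx.2.1⟩

lemma length_L_S (j : ℕ) : (L c n (3 * j + 2)).length ≤ idx c (j + 1) - idx c j := by
  have e0 : ¬ (3 * j + 2) % 3 = 0 := by omega
  have e1 : ¬ (3 * j + 2) % 3 = 1 := by omega
  have e2 : (3 * j + 2) / 3 = j := by omega
  have hmem : ∀ x : Fin n, x ∈ L c n (3 * j + 2) ↔
      (idx c j < idx c (j + 1) ∧ x.val = c + 6 + idx c j % (c + 1)) := by
    intro x
    rw [mem_L]
    unfold occb
    rw [if_neg e0, if_neg e1, e2]
    simp only [decide_eq_true_eq]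
  by_cases h : idx c j < idx c (j + 1)
  · have hnd : (L c n (3 * j + 2)).Nodup := (List.nodup_finRange n).filter _
    rw [← List.toFinset_card_of_nodup hnd]
    have h1 : (L c n (3 * j + 2)).toFinset.card ≤ 1 := by
      apply Finset.card_le_one.2
      intro a ha b hb
      rw [List.mem_toFinset, hmem] at ha hb
      exact Fin.ext (ha.2.trans hb.2.symm)
    omega
  · have : L c n (3 * j + 2) = [] := by
      rw [List.eq_nil_iff_forall_not_mem]
      intro x hx
      rw [hmem] at hx
      exact h hx.1
    rw [this]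
    simp

lemma idx_mono {i j : ℕ} (h : i ≤ j) : idx c i ≤ idx c j := by
  unfold idx
  apply Nat.div_le_div_right
  have := Nat.mul_le_mul_right c h
  omega

/-- The word. -/
def word (c n J : ℕ) : List (Fin n) := (List.range (3 * J)).flatMap (L c n)

lemma length_word (J : ℕ) : (word c n J).length ≤
    (J - 1) + (n - (2 * c + 7)) * ((J - 1) / (c + 5)) + idx c J := by
  induction J with
  | zero => simp [word]
  | succ J ih =>
    have e : word c n (J + 1) = word c n J ++ L c n (3 * J) ++ L c n (3 * J + 1) ++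
        L c n (3 * J + 2) := by
      unfold word
      have : 3 * (J + 1) = 3 * J + 1 + 1 + 1 := by ring
      rw [this, List.range_succ, List.range_succ, List.range_succ]
      simp [List.flatMap_append]
    rw [e]
    simp only [List.length_append, Nat.add_sub_cancel]
    have h1 := length_L_A (c := c) (n := n) J
    have h2 := length_L_Z (c := c) (n := n) J
    have h3 := length_L_S (c := c) (n := n) J
    have h4 : idx c J ≤ idx c (J + 1) := idx_mono (Nat.le_succ J)
    rcases Nat.eq_zero_or_pos J with h0 | h0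
    · rw [if_pos h0] at h1
      rw [if_neg (by simp [h0])] at h2
      have e1 : (J - 1) / (c + 5) = 0 := by rw [h0]; simp
      have e2 : J / (c + 5) = 0 := by rw [h0]; simp
      rw [e1, Nat.mul_zero] at ih
      rw [e2, Nat.mul_zero]
      omega
    · rw [if_neg (by omega)] at h1
      have h5 : J / (c + 5) = (J - 1) / (c + 5) + if (c + 5) ∣ J then 1 else 0 := by
        obtain ⟨J', rfl⟩ : ∃ J', J = J' + 1 := ⟨J - 1, by omega⟩
        rw [Nat.add_sub_cancel, Nat.succ_div]
      rw [h5]
      by_cases h6 : (c + 5) ∣ J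
      · rw [if_pos ⟨by omega, h6⟩] at h2
        rw [if_pos h6, Nat.mul_add]
        omega
      · rw [if_neg (fun h => h6 h.2)] at h2
        rw [if_neg h6]
        simp only [Nat.add_zero]
        omega

lemma valid_phi (x : Fin n) : Valid c (phi c x) := by
  unfold phi
  split_ifs with h1 h2
  · exact ⟨by positivity, by exact_mod_cast h1⟩
  · refine ⟨?_, ?_⟩ <;> omega
  · trivial

lemma phi_inj {x y : Fin n} (h : phi c x = phi c y) (hne : phi c x ≠ Sym.Z) : x = y := by
  unfold phi at h hne
  by_cases h1 : x.val < c + 6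
  · rw [if_pos h1] at h
    by_cases h2 : y.val < c + 6
    · rw [if_pos h2] at h
      simp only [Sym.A.injEq] at h
      exact Fin.ext (by exact_mod_cast h)
    · rw [if_neg h2] at h
      split_ifs at h
  · rw [if_neg h1] at h hne
    by_cases h3 : x.val < 2 * c + 7
    · rw [if_pos h3] at h
      split_ifs at h with h4 h5
      simp only [Sym.S.injEq] at h
      apply Fin.ext
      omega
    · rw [if_neg h3] at hne
      exact absurd rfl hne

theorem containsAll_word (hc : 6 ≤ c) (k : ℕ) :
    ContainsAll n k (word c n ((k + 1) * (c + 5))) := by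
  intro π hπ hk
  have h1 := emb_all hc (π.map (phi c)) (by
    intro x hx
    obtain ⟨y, _, rfl⟩ := List.mem_map.1 hx
    exact valid_phi y) (by
    rw [List.pairwise_map]
    refine hπ.imp ?_
    intro a b hab h
    by_contra hne
    exact hab (phi_inj h hne))
  have h2 : (3 * ((((π.map (phi c)).length : ℕ) : ℤ) + 1) * ((c : ℤ) + 5)) =
      ((3 * ((k + 1) * (c + 5)) : ℕ) : ℤ) := by
    rw [List.length_map, hk]
    push_cast
    ring
  rw [← mul_assoc, h2] at h1
  have h3 := sublist_of_emb (c := c) (n := n) (by omega) π 1 (3 * ((k + 1) * (c + 5))) le_rfl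
    (by exact_mod_cast h1)
  refine h3.trans ?_
  unfold word
  have h4 : List.range (3 * ((k + 1) * (c + 5))) =
      [0, 1] ++ List.range' (1 + 1) (3 * ((k + 1) * (c + 5)) - (1 + 1)) := by
    have h5 : 2 ≤ 3 * ((k + 1) * (c + 5)) := by nlinarith
    rw [List.range_eq_range']
    have : 3 * ((k + 1) * (c + 5)) = 2 + (3 * ((k + 1) * (c + 5)) - (1 + 1)) := by omega
    conv_lhs => rw [this, ← List.range'_append_1]
    rfl
  rw [h4, List.flatMap_append]
  exact List.sublist_append_right _ _

/-- **Upper bound.** -/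
theorem g_add_le (hc : 6 ≤ c) (hn : 2 * c + 7 ≤ n) (k : ℕ) :
    g n k + 3 * k ≤ k * n + 2 * c + 3 + (6 * (k + 1) + c + 5) / (c + 6) := by
  have h1 := g_le (n := n) (containsAll_word hc k)
  have h2 := length_word (c := c) (n := n) ((k + 1) * (c + 5))
  have h3 : ((k + 1) * (c + 5) - 1) / (c + 5) = k := by
    rw [Nat.div_eq_iff (by positivity)]
    constructor
    · have : (k + 1) * (c + 5) = k * (c + 5) + (c + 5) := by ring
      omega
    · have : (k + 1) * (c + 5) = k * (c + 5) + (c + 5) := by ring
      omega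
  have h4 : idx c ((k + 1) * (c + 5)) = (k + 1) * (c - 1) + (6 * (k + 1) + c + 5) / (c + 6) := by
    unfold idx
    obtain ⟨d, rfl⟩ : ∃ d, c = d + 1 := ⟨c - 1, by omega⟩
    have : (k + 1) * (d + 1 + 5) * (d + 1) + (d + 1 + 5) =
        (6 * (k + 1) + (d + 1) + 5) + (d + 1 + 6) * ((k + 1) * d) := by ring
    rw [this, Nat.add_mul_div_left _ _ (by positivity)]
    simp only [Nat.add_sub_cancel]
    ring
  rw [h3, h4] at h2
  obtain ⟨e, rfl⟩ : ∃ e, n = 2 * c + 7 + e := ⟨n - (2 * c + 7), by omega⟩
  obtain ⟨d, rfl⟩ : ∃ d, c = d + 1 := ⟨c - 1, by omega⟩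
  simp only [Nat.add_sub_cancel, Nat.add_sub_cancel_left] at h2
  have h5 : (k + 1) * (d + 1 + 5) - 1 + 1 = (k + 1) * (d + 1 + 5) := by
    have : 0 < (k + 1) * (d + 1 + 5) := by positivity
    omega
  nlinarith

end Pool.Agent.Lib.MP_9067ea_co.Up
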