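import Mathlib
import Pool.Agent.Lib.MP_9067ea_co.UpWord

/-!
# Improved upper bound for `g(n,k)`: optimising the parameter
-/

set_option autoImplicit false

namespace Pool.Agent.Lib.MP_9067ea_co.Up

theorem g_le_sqrt {n k : ℕ} (hk : 40 ≤ k) (hkn : k ≤ n) :
    (g n k : ℝ) ≤ k * n - 3 * k + 4 * √(3 * (k + 1)) - 6 := by
  set X : ℝ := √(3 * (k + 1)) with hX
  have hX2 : X ^ 2 = 3 * (k + 1) := Real.sq_sqrt (by positivity)
  have hk' : (40 : ℝ) ≤ k := by exact_mod_cast hk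
  have hX0 : 0 ≤ X := Real.sqrt_nonneg _
  have hX11 : 11 < X := by
    rw [hX]
    apply Real.lt_sqrt_of_sq_lt
    linarith
  set m : ℕ := ⌈X⌉₊ with hm
  have hm1 : X ≤ m := Nat.le_ceil X
  have hm2 : (m : ℝ) < X + 1 := Nat.ceil_lt_add_one hX0
  have hm12 : 12 ≤ m := by
    have : (11 : ℝ) < m := lt_of_lt_of_le hX11 hm1
    have : 11 < m := by exact_mod_cast this
    omega
  obtain ⟨c, hc⟩ : ∃ c, m = c + 6 := ⟨m - 6, by omega⟩
  have hc6 : 6 ≤ c := by omega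
  have hcn : 2 * c + 7 ≤ n := by
    have h1 : (m : ℝ) ^ 2 < (X + 1) ^ 2 := by
      apply pow_lt_pow_left₀ hm2 (by positivity) (by norm_num)
    have h2 : 2 * (m : ℝ) < k + 5 + 1 := by
      by_contra hcon
      push Not at hcon
      have : (k : ℝ) + 6 < 2 * (X + 1) := by linarith
      nlinarith
    have h3 : 2 * m < k + 5 + 1 := by exact_mod_cast h2
    omega
  have h := g_add_le (c := c) (n := n) hc6 hcn k
  have hdiv : (((6 * (k + 1) + c + 5) / (c + 6) : ℕ) : ℝ) ≤ 2 * X + 1 := by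
    have h1 : (((6 * (k + 1) + c + 5) / (c + 6) : ℕ) : ℝ) ≤
        ((6 * (k + 1) + c + 5 : ℕ) : ℝ) / ((c + 6 : ℕ) : ℝ) := Nat.cast_div_le
    refine h1.trans ?_
    have hc0 : (0 : ℝ) < ((c + 6 : ℕ) : ℝ) := by positivity
    rw [div_le_iff₀ hc0]
    have hmc : ((c + 6 : ℕ) : ℝ) = m := by rw [hc]
    rw [hmc]
    have hcm : (c : ℝ) = m - 6 := by rw [hc]; push_cast; ring
    push_cast
    rw [hcm]
    nlinarith
  have hR : (g n k : ℝ) + 3 * k ≤ k * n + 2 * c + 3 +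
      (((6 * (k + 1) + c + 5) / (c + 6) : ℕ) : ℝ) := by exact_mod_cast h
  have hcm : (c : ℝ) = m - 6 := by rw [hc]; push_cast; ring
  rw [hcm] at hR
  linarith

end Pool.Agent.Lib.MP_9067ea_co.Up
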